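import Mathlib

set_option autoImplicit false

/-!
U121/SI (helper121, MP_e016b3_lc, MP_f326ae_lc): the bound for polylogarithmic parameters.
-/

namespace Pool.Agent.U121.SI

open Filter

/-- a power of the logarithm is small -/
lemma log_small (c : ℕ) : ∃ n0 : ℕ, ∀ n ≥ n0, 1 ≤ Nat.log 2 n ∧ 1000 * (Nat.log 2 n) ^ c ≤ n := by
  have h1 := tendsto_pow_const_div_const_pow_of_one_lt c (r := (2 : ℝ)) (by norm_num)
  have h2 := (h1.eventually (gt_mem_nhds (show (0 : ℝ) < 1 / 1000 by norm_num)))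
  obtain ⟨l0, hl0⟩ := eventually_atTop.1 h2
  refine ⟨2 ^ (l0 + 1), fun n hn => ?_⟩
  have h3 : l0 + 1 ≤ Nat.log 2 n := Nat.le_log_of_pow_le (by norm_num) hn
  refine ⟨by omega, ?_⟩
  have h4 := hl0 (Nat.log 2 n) (by omega)
  have h5 : (0 : ℝ) < 2 ^ (Nat.log 2 n) := by positivity
  rw [div_lt_iff₀ h5] at h4
  have h6 : 1000 * ((Nat.log 2 n : ℕ) : ℝ) ^ c ≤ 2 ^ (Nat.log 2 n) := by linarith
  have h7 : 1000 * (Nat.log 2 n) ^ c ≤ 2 ^ (Nat.log 2 n) := by exact_mod_cast h6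
  have hn0 : n ≠ 0 := by
    have : 0 < 2 ^ (l0 + 1) := by positivity
    omega
  exact h7.trans (Nat.pow_log_le_self 2 hn0)

/-- the parameter of the switching lemma -/
def sg (h c l : ℕ) : ℕ := l ^ c + 2 * (l + 1) + h + 1

lemma sg_cond {h c n M : ℕ} (hM : M ≤ 2 ^ (Nat.log 2 n) ^ c) :
    h * (M * n ^ 2) ≤ 2 ^ sg h c (Nat.log 2 n) := by
  have h1 : n ≤ 2 ^ (Nat.log 2 n + 1) := (Nat.lt_pow_succ_log_self (by norm_num) n).le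
  have h2 : h ≤ 2 ^ h := Nat.lt_two_pow_self.le
  calc h * (M * n ^ 2) ≤ 2 ^ h * (2 ^ (Nat.log 2 n) ^ c * (2 ^ (Nat.log 2 n + 1)) ^ 2) :=
        Nat.mul_le_mul h2 (Nat.mul_le_mul hM (Nat.pow_le_pow_left h1 2))
    _ = 2 ^ (h + ((Nat.log 2 n) ^ c + 2 * (Nat.log 2 n + 1))) := by
        rw [← pow_mul, ← pow_add, ← pow_add]
        congr 1
        ring
    _ ≤ _ := by
        apply Nat.pow_le_pow_right (by norm_num)
        unfold sg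
        omega

lemma sg_le {h c l : ℕ} (hl : 1 ≤ l) : sg h c l ≤ (h + 6) * l ^ (c + 1) := by
  have h1 : l ^ c ≤ l ^ (c + 1) := Nat.pow_le_pow_right hl (by omega)
  have h2 : l ≤ l ^ (c + 1) := by
    calc l = l ^ 1 := (pow_one l).symm
      _ ≤ l ^ (c + 1) := Nat.pow_le_pow_right hl (by omega)
  have h3 : 1 ≤ l ^ (c + 1) := Nat.one_le_pow _ _ hl
  unfold sg
  nlinarith

/-- from the explicit bound to polylogarithmic factors -/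
lemma polylog {h c n w s T K : ℕ} (hl : 1 ≤ Nat.log 2 n) (hw : w ≤ (Nat.log 2 n) ^ c)
    (hT : T ≤ (Nat.log 2 n) ^ c)
    (hb : (n : ℝ) ^ 2 ≤ K * T ^ 2 * w ^ 3 * s *
      (24 * (sg h c (Nat.log 2 n) : ℝ)) ^ (2 * h + 2)) :
    (n : ℝ) ^ 2 ≤ ((K * (24 * (h + 6)) ^ (2 * h + 2) : ℕ) : ℝ) *
      (s * (Nat.log 2 n : ℝ) ^ (5 * c + (c + 1) * (2 * h + 2))) := by
  obtain ⟨l, hld⟩ : ∃ l, l = Nat.log 2 n := ⟨_, rfl⟩
  rw [← hld] at hl hw hT hb ⊢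
  have hw' : (w : ℝ) ≤ (l : ℝ) ^ c := by exact_mod_cast hw
  have hT' : (T : ℝ) ≤ (l : ℝ) ^ c := by exact_mod_cast hT
  have hs' : (sg h c l : ℝ) ≤ (h + 6) * (l : ℝ) ^ (c + 1) := by exact_mod_cast sg_le hl
  have hl0 : (0 : ℝ) ≤ (l : ℝ) := Nat.cast_nonneg _
  have e1 : (T : ℝ) ^ 2 ≤ ((l : ℝ) ^ c) ^ 2 := pow_le_pow_left₀ (Nat.cast_nonneg _) hT' 2
  have e2 : (w : ℝ) ^ 3 ≤ ((l : ℝ) ^ c) ^ 3 := pow_le_pow_left₀ (Nat.cast_nonneg _) hw' 3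
  have e3 : (24 * (sg h c l : ℝ)) ^ (2 * h + 2) ≤
      (24 * ((h + 6) * (l : ℝ) ^ (c + 1))) ^ (2 * h + 2) :=
    pow_le_pow_left₀ (by positivity) (mul_le_mul_of_nonneg_left hs' (by norm_num)) _
  have e4 : (T : ℝ) ^ 2 * w ^ 3 ≤ ((l : ℝ) ^ c) ^ 2 * ((l : ℝ) ^ c) ^ 3 :=
    mul_le_mul e1 e2 (by positivity) (by positivity)
  have e5 : (T : ℝ) ^ 2 * w ^ 3 * (24 * (sg h c l : ℝ)) ^ (2 * h + 2) ≤
      ((l : ℝ) ^ c) ^ 2 * ((l : ℝ) ^ c) ^ 3 *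
        (24 * ((h + 6) * (l : ℝ) ^ (c + 1))) ^ (2 * h + 2) :=
    mul_le_mul e4 e3 (by positivity) (by positivity)
  have e6 : ((l : ℝ) ^ c) ^ 2 * ((l : ℝ) ^ c) ^ 3 *
        (24 * ((h + 6) * (l : ℝ) ^ (c + 1))) ^ (2 * h + 2) =
      (24 * (h + 6)) ^ (2 * h + 2) * (l : ℝ) ^ (5 * c + (c + 1) * (2 * h + 2)) := by
    have f1 : (24 * ((h + 6 : ℝ) * (l : ℝ) ^ (c + 1))) ^ (2 * h + 2) =
        (24 * (h + 6 : ℝ)) ^ (2 * h + 2) * (l : ℝ) ^ ((c + 1) * (2 * h + 2)) := by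
      rw [← mul_assoc, mul_pow, ← pow_mul]
    have f2 : ((l : ℝ) ^ c) ^ 2 * ((l : ℝ) ^ c) ^ 3 = (l : ℝ) ^ (5 * c) := by
      rw [← pow_mul, ← pow_mul, ← pow_add]
      congr 1
      ring
    rw [f1, f2, pow_add]
    ring
  rw [e6] at e5
  refine hb.trans ?_
  push_cast
  calc (K : ℝ) * T ^ 2 * w ^ 3 * s * (24 * (sg h c l : ℝ)) ^ (2 * h + 2)
      = K * s * (T ^ 2 * w ^ 3 * (24 * (sg h c l : ℝ)) ^ (2 * h + 2)) := by ring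
    _ ≤ K * s * ((24 * (h + 6)) ^ (2 * h + 2) *
          (l : ℝ) ^ (5 * c + (c + 1) * (2 * h + 2))) :=
        mul_le_mul_of_nonneg_left e5 (by positivity)
    _ = _ := by ring

end Pool.Agent.U121.SI
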