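import Pool.Agent.U121.SI.Asym

set_option autoImplicit false

/-!
U121/SI (helper121, MP_f326ae_lc): the bound for listing for polylogarithmic parameters.
-/

namespace Pool.Agent.U121.SI.Lst

/-- the condition for the query time -/
lemma cond_le {l c A N w : ℕ} {C T : ℝ} (hl : 2 ≤ l) (hA : 4 * c + 34 ≤ A)
    (hw : w ≤ l ^ c) (hC1 : 1 ≤ C) (hC : C ≤ (l : ℝ) ^ c) (hT : 1 ≤ T)
    (hN : T * (l : ℝ) ^ A ≤ N) : 10 ^ 10 * (C * w) ^ 2 * T ≤ N := by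
  have hl' : (2 : ℝ) ≤ l := by exact_mod_cast hl
  have hw' : (w : ℝ) ≤ (l : ℝ) ^ c := by exact_mod_cast hw
  have h1 : (C * w) ^ 2 ≤ (l : ℝ) ^ (4 * c) := by
    calc (C * w) ^ 2 ≤ ((l : ℝ) ^ c * (l : ℝ) ^ c) ^ 2 := by
          apply pow_le_pow_left₀ (by positivity)
          exact mul_le_mul hC hw' (by positivity) (by positivity)
      _ = (l : ℝ) ^ (4 * c) := by
          rw [← pow_add, ← pow_mul]
          congr 1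
          ring
  have h2 : (10 : ℝ) ^ 10 ≤ (l : ℝ) ^ 34 := by
    calc (10 : ℝ) ^ 10 ≤ 2 ^ 34 := by norm_num
      _ ≤ _ := pow_le_pow_left₀ (by norm_num) hl' 34
  have h3 : (l : ℝ) ^ 34 * (l : ℝ) ^ (4 * c) ≤ (l : ℝ) ^ A := by
    rw [← pow_add]
    exact pow_le_pow_right₀ (by linarith) (by omega)
  calc 10 ^ 10 * (C * w) ^ 2 * T ≤ (l : ℝ) ^ 34 * (l : ℝ) ^ (4 * c) * T := by gcongr
    _ ≤ (l : ℝ) ^ A * T := by gcongr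
    _ = T * (l : ℝ) ^ A := mul_comm _ _
    _ ≤ N := hN

/-- from the explicit bound to polylogarithmic factors -/
lemma polylog_list {h c n w s A : ℕ} {C T : ℝ} (hl : 1 ≤ Nat.log 2 n)
    (hA : 11 * c + (c + 1) * (2 * h + 2) ≤ A)
    (hw : w ≤ (Nat.log 2 n) ^ c) (hC0 : 0 ≤ C) (hC : C ≤ (Nat.log 2 n : ℝ) ^ c) (hT : 0 ≤ T)
    (hb : (n : ℝ) ^ 2 ≤ 10 ^ 21 * C ^ 5 * w ^ 6 * T * s *
      (24 * (sg h c (Nat.log 2 n) : ℝ)) ^ (2 * h + 2)) :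
    (n : ℝ) ^ 2 ≤ ((10 ^ 21 * (24 * (h + 6)) ^ (2 * h + 2) : ℕ) : ℝ) *
      (T * s * (Nat.log 2 n : ℝ) ^ A) := by
  obtain ⟨l, hld⟩ : ∃ l, l = Nat.log 2 n := ⟨_, rfl⟩
  rw [← hld] at hl hw hC hb ⊢
  have hl1 : (1 : ℝ) ≤ l := by exact_mod_cast hl
  have hw' : (w : ℝ) ≤ (l : ℝ) ^ c := by exact_mod_cast hw
  have hs' : (sg h c l : ℝ) ≤ (h + 6) * (l : ℝ) ^ (c + 1) := by exact_mod_cast sg_le hl
  have hl0 : (0 : ℝ) ≤ (l : ℝ) := Nat.cast_nonneg _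
  have e1 : C ^ 5 ≤ ((l : ℝ) ^ c) ^ 5 := pow_le_pow_left₀ hC0 hC 5
  have e2 : (w : ℝ) ^ 6 ≤ ((l : ℝ) ^ c) ^ 6 := pow_le_pow_left₀ (Nat.cast_nonneg _) hw' 6
  have e3 : (24 * (sg h c l : ℝ)) ^ (2 * h + 2) ≤
      (24 * ((h + 6) * (l : ℝ) ^ (c + 1))) ^ (2 * h + 2) :=
    pow_le_pow_left₀ (by positivity) (mul_le_mul_of_nonneg_left hs' (by norm_num)) _
  have e4 : C ^ 5 * (w : ℝ) ^ 6 ≤ ((l : ℝ) ^ c) ^ 5 * ((l : ℝ) ^ c) ^ 6 :=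
    mul_le_mul e1 e2 (by positivity) (by positivity)
  have e5 : C ^ 5 * (w : ℝ) ^ 6 * (24 * (sg h c l : ℝ)) ^ (2 * h + 2) ≤
      ((l : ℝ) ^ c) ^ 5 * ((l : ℝ) ^ c) ^ 6 *
        (24 * ((h + 6) * (l : ℝ) ^ (c + 1))) ^ (2 * h + 2) :=
    mul_le_mul e4 e3 (by positivity) (by positivity)
  have e6 : ((l : ℝ) ^ c) ^ 5 * ((l : ℝ) ^ c) ^ 6 *
        (24 * ((h + 6) * (l : ℝ) ^ (c + 1))) ^ (2 * h + 2) =
      (24 * (h + 6)) ^ (2 * h + 2) * (l : ℝ) ^ (11 * c + (c + 1) * (2 * h + 2)) := by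
    have f1 : (24 * ((h + 6 : ℝ) * (l : ℝ) ^ (c + 1))) ^ (2 * h + 2) =
        (24 * (h + 6 : ℝ)) ^ (2 * h + 2) * (l : ℝ) ^ ((c + 1) * (2 * h + 2)) := by
      rw [← mul_assoc, mul_pow, ← pow_mul]
    have f2 : ((l : ℝ) ^ c) ^ 5 * ((l : ℝ) ^ c) ^ 6 = (l : ℝ) ^ (11 * c) := by
      rw [← pow_mul, ← pow_mul, ← pow_add]
      congr 1
      ring
    rw [f1, f2, pow_add]
    ring
  have e7 : (l : ℝ) ^ (11 * c + (c + 1) * (2 * h + 2)) ≤ (l : ℝ) ^ A :=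
    pow_le_pow_right₀ hl1 hA
  have e8 : (24 * (h + 6 : ℝ)) ^ (2 * h + 2) * (l : ℝ) ^ (11 * c + (c + 1) * (2 * h + 2)) ≤
      (24 * (h + 6 : ℝ)) ^ (2 * h + 2) * (l : ℝ) ^ A :=
    mul_le_mul_of_nonneg_left e7 (by positivity)
  rw [e6] at e5
  refine hb.trans ?_
  push_cast
  calc 10 ^ 21 * C ^ 5 * (w : ℝ) ^ 6 * T * s * (24 * (sg h c l : ℝ)) ^ (2 * h + 2)
      = 10 ^ 21 * T * s * (C ^ 5 * w ^ 6 * (24 * (sg h c l : ℝ)) ^ (2 * h + 2)) := by ring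
    _ ≤ 10 ^ 21 * T * s * ((24 * (h + 6)) ^ (2 * h + 2) * (l : ℝ) ^ A) :=
        mul_le_mul_of_nonneg_left (e5.trans e8) (by positivity)
    _ = _ := by ring

end Pool.Agent.U121.SI.Lst
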