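import Mathlib

set_option autoImplicit false

/-!
U121/SI (helper121, MP_e016b3_lc, MP_f326ae_lc): the theorem of Babai, Frankl and Simon on the
disjointness of random sets, for the sets `{(l, a l)}` with uniformly random functions `a`.
-/

namespace Pool.Agent.U121.SI

open Finset

open scoped Classical

variable {m : ℕ}

/-- the graph of the function `a` -/
noncomputable def gr (a : Fin m → Fin m) : Finset (Fin m × Fin m) := univ.image fun l => (l, a l)

lemma mem_gr {a : Fin m → Fin m} {p : Fin m × Fin m} : p ∈ gr a ↔ a p.1 = p.2 := by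
  unfold gr
  simp only [mem_image, mem_univ, true_and]
  constructor
  · rintro ⟨l, rfl⟩; rfl
  · intro h; exact ⟨p.1, by rw [h]⟩

lemma card_gr (a : Fin m → Fin m) : (gr a).card = m := by
  unfold gr
  rw [card_image_of_injective _ (fun l l' h => (Prod.mk.inj h).1)]
  simp

/-- the two functions agree somewhere -/
def hit (a b : Fin m → Fin m) : Prop := ∃ l, a l = b l

lemma hit_of_mem {a b : Fin m → Fin m} {p : Fin m × Fin m} (h : p ∈ gr a) (h' : p ∈ gr b) :
    hit a b := ⟨p.1, by rw [mem_gr.1 h, mem_gr.1 h']⟩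

/-- the elements of `W` in the row `l` -/
noncomputable def row (W : Finset (Fin m × Fin m)) (l : Fin m) : Finset (Fin m) :=
  univ.filter fun v => (l, v) ∈ W

lemma sum_row (W : Finset (Fin m × Fin m)) : ∑ l, (row W l).card = W.card := by
  rw [Finset.card_eq_sum_card_fiberwise (f := Prod.fst) (t := univ) (fun _ _ => by simp)]
  refine sum_congr rfl fun l _ => ?_
  refine card_bij (fun v _ => (l, v)) ?_ ?_ ?_
  · intro v hv
    rw [row, mem_filter] at hv
    simp [hv.2]
  · intro v _ v' _ h
    exact (Prod.mk.inj h).2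
  · rintro ⟨l', v⟩ h
    rw [mem_filter] at h
    obtain ⟨h1, h2⟩ := h
    simp only at h2
    subst h2
    exact ⟨v, by rw [row, mem_filter]; exact ⟨mem_univ _, h1⟩, rfl⟩

/-- few functions avoid a large set -/
lemma avoid (hm : 0 < m) (W : Finset (Fin m × Fin m)) :
    ((univ.filter fun b : Fin m → Fin m => Disjoint (gr b) W).card : ℝ) ≤
      (m : ℝ) ^ m * Real.exp (-(W.card / m : ℝ)) := by
  have hm' : (0 : ℝ) < m := by exact_mod_cast hm
  have h1 : (univ.filter fun b : Fin m → Fin m => Disjoint (gr b) W) ⊆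
      Fintype.piFinset fun l => univ \ row W l := by
    intro b hb
    rw [mem_filter] at hb
    rw [Fintype.mem_piFinset]
    intro l
    rw [mem_sdiff]
    refine ⟨mem_univ _, fun h => ?_⟩
    rw [row, mem_filter] at h
    exact (disjoint_left.1 hb.2) (mem_gr.2 rfl) h.2
  have h2 := card_le_card h1
  rw [Fintype.card_piFinset] at h2
  have h3 : ((∏ l : Fin m, (univ \ row W l).card : ℕ) : ℝ) ≤
      ∏ l : Fin m, ((m : ℝ) * Real.exp (-((row W l).card / m : ℝ))) := by
    push_cast
    refine prod_le_prod (fun _ _ => by positivity) fun l _ => ?_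
    rw [card_sdiff_of_subset (subset_univ _), card_univ, Fintype.card_fin,
      Nat.cast_sub (by have := card_le_univ (row W l); rwa [Fintype.card_fin] at this)]
    have h4 := Real.add_one_le_exp (-((row W l).card / m : ℝ))
    calc (m : ℝ) - (row W l).card = m * (-((row W l).card / m : ℝ) + 1) := by field_simp; ring
      _ ≤ _ := mul_le_mul_of_nonneg_left h4 hm'.le
  have h5 : ∏ l : Fin m, ((m : ℝ) * Real.exp (-((row W l).card / m : ℝ))) =
      (m : ℝ) ^ m * Real.exp (-(W.card / m : ℝ)) := by
    rw [prod_mul_distrib, prod_const, card_univ, Fintype.card_fin, ← Real.exp_sum]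
    congr 2
    rw [sum_neg_distrib, ← sum_div, ← sum_row W]
    push_cast
    rfl
  rw [← h5]
  refine le_trans ?_ h3
  exact_mod_cast h2

/-- few functions have many values in a small set -/
lemma inside (hm : 0 < m) (W : Finset (Fin m × Fin m)) :
    ((univ.filter fun a : Fin m → Fin m => m ≤ 2 * (gr a ∩ W).card).card : ℝ) * 2 ^ m ≤
      (m : ℝ) ^ m * Real.exp (3 * W.card / m) := by
  have hm' : (0 : ℝ) < m := by exact_mod_cast hm
  have h1 : ((univ.filter fun a : Fin m → Fin m => m ≤ 2 * (gr a ∩ W).card).card : ℝ) * 2 ^ m ≤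
      ∑ a : Fin m → Fin m, ∏ l, (if (l, a l) ∈ W then (4 : ℝ) else 1) := by
    rw [← nsmul_eq_mul, ← sum_const]
    refine le_trans ?_ (sum_le_sum_of_subset_of_nonneg
      (subset_univ (univ.filter fun a : Fin m → Fin m => m ≤ 2 * (gr a ∩ W).card))
      fun a _ _ => prod_nonneg fun l _ => by split_ifs <;> norm_num)
    refine sum_le_sum fun a ha => ?_
    rw [mem_filter] at ha
    have e1 : ∏ l, (if (l, a l) ∈ W then (4 : ℝ) else 1) = 4 ^ (gr a ∩ W).card := by
      rw [prod_ite, prod_const_one, mul_one, prod_const]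
      congr 1
      refine card_bij (fun l _ => (l, a l)) ?_ ?_ ?_
      · intro l hl
        rw [mem_filter] at hl
        exact mem_inter.2 ⟨mem_gr.2 rfl, hl.2⟩
      · intro l _ l' _ h
        exact (Prod.mk.inj h).1
      · rintro ⟨l, v⟩ h
        rw [mem_inter, mem_gr] at h
        obtain ⟨h2, h3⟩ := h
        simp only at h2
        subst h2
        exact ⟨l, by rw [mem_filter]; exact ⟨mem_univ _, h3⟩, rfl⟩
    rw [e1]
    calc (2 : ℝ) ^ m ≤ 2 ^ (2 * (gr a ∩ W).card) := pow_le_pow_right₀ (by norm_num) ha.2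
      _ = 4 ^ (gr a ∩ W).card := by rw [pow_mul]; norm_num
  have h2 : ∑ a : Fin m → Fin m, ∏ l, (if (l, a l) ∈ W then (4 : ℝ) else 1) =
      ∏ l : Fin m, ∑ v : Fin m, (if (l, v) ∈ W then (4 : ℝ) else 1) := by
    rw [Finset.prod_univ_sum]
    simp
  have h3 : ∀ l : Fin m, ∑ v : Fin m, (if (l, v) ∈ W then (4 : ℝ) else 1) =
      m + 3 * (row W l).card := by
    intro l
    have : ∀ v : Fin m, (if (l, v) ∈ W then (4 : ℝ) else 1) =
        1 + 3 * (if (l, v) ∈ W then (1 : ℝ) else 0) := by
      intro v; split_ifs <;> norm_num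
    simp_rw [this]
    rw [sum_add_distrib, ← mul_sum, sum_const, card_univ, Fintype.card_fin, row, card_filter]
    push_cast
    simp
  refine h1.trans ?_
  rw [h2]
  have h5 : ∏ l : Fin m, ((m : ℝ) * Real.exp (3 * (row W l).card / m)) =
      (m : ℝ) ^ m * Real.exp (3 * W.card / m) := by
    rw [prod_mul_distrib, prod_const, card_univ, Fintype.card_fin, ← Real.exp_sum]
    congr 2
    rw [← sum_div, ← mul_sum, ← sum_row W]
    push_cast
    rfl
  rw [← h5]
  refine prod_le_prod (fun l _ => sum_nonneg fun v _ => by split_ifs <;> norm_num) fun l _ => ?_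
  rw [h3]
  have h4 := Real.add_one_le_exp (3 * (row W l).card / m : ℝ)
  calc (m : ℝ) + 3 * (row W l).card = m * (3 * (row W l).card / m + 1) := by field_simp; ring
    _ ≤ _ := mul_le_mul_of_nonneg_left h4 hm'.le

section greedy

variable (nx : Finset (Fin m × Fin m) → (Fin m → Fin m))

/-- the union of the first graphs -/
noncomputable def un : ℕ → Finset (Fin m × Fin m)
  | 0 => ∅
  | i + 1 => un i ∪ gr (nx (un i))

lemma un_mono : Monotone (un nx) := monotone_nat_of_le_succ fun i => by
  show un nx i ⊆ un nx i ∪ gr (nx (un nx i))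
  exact subset_union_left

lemma card_un (i : ℕ) : (un nx i).card ≤ i * m := by
  induction i with
  | zero => simp [un]
  | succ i ih =>
    have := card_union_le (un nx i) (gr (nx (un nx i)))
    rw [card_gr] at this
    show (un nx i ∪ gr (nx (un nx i))).card ≤ _
    rw [Nat.succ_mul]
    omega

/-- the new part -/
noncomputable def nw (i : ℕ) : Finset (Fin m × Fin m) := gr (nx (un nx i)) \ un nx i

lemma nw_sub (i : ℕ) : nw nx i ⊆ un nx (i + 1) := by
  show _ ⊆ un nx i ∪ gr (nx (un nx i))
  exact (sdiff_subset).trans subset_union_right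

lemma nw_disj {i j : ℕ} (h : i < j) : Disjoint (nw nx i) (nw nx j) := by
  rw [disjoint_left]
  intro p hp hp'
  unfold nw at hp'
  rw [mem_sdiff] at hp'
  exact hp'.2 (un_mono nx h (nw_sub nx i hp))

lemma nw_disj' {i j : ℕ} (h : i ≠ j) : Disjoint (nw nx i) (nw nx j) := by
  rcases lt_or_gt_of_ne h with h | h
  · exact nw_disj nx h
  · exact (nw_disj nx h).symm

/-- the new parts which `b` meets -/
noncomputable def met (t : ℕ) (b : Fin m → Fin m) : Finset ℕ :=
  (range t).filter fun i => ¬ Disjoint (gr b) (nw nx i)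

lemma met_few (hm : 0 < m) (t : ℕ) (h : ∀ i < t, m ≤ 2 * (nw nx i).card) :
    ((univ.filter fun b : Fin m → Fin m => 16 * (met nx t b).card ≤ t).card : ℝ) ≤
      (m : ℝ) ^ m * (803 / 1000) ^ t := by
  have hm' : (0 : ℝ) < m := by exact_mod_cast hm
  have h12 : (2 : ℝ) ≤ (6 / 5) ^ 4 := by norm_num
  have h1 : ((univ.filter fun b : Fin m → Fin m => 16 * (met nx t b).card ≤ t).card : ℝ) ≤
      ∑ b : Fin m → Fin m, (6 / 5 : ℝ) ^ t * (1 / 16) ^ (met nx t b).card := by
    rw [card_filter]
    push_cast
    refine sum_le_sum fun b _ => ?_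
    split_ifs with hb
    · have e1 : (16 : ℝ) ^ (met nx t b).card ≤ (6 / 5) ^ t := by
        calc (16 : ℝ) ^ (met nx t b).card = (2 ^ 4) ^ (met nx t b).card := by norm_num
          _ ≤ (((6 / 5) ^ 4) ^ 4) ^ (met nx t b).card :=
              pow_le_pow_left₀ (by norm_num) (pow_le_pow_left₀ (by norm_num) h12 4) _
          _ = (6 / 5) ^ (16 * (met nx t b).card) := by
              rw [← pow_mul, ← pow_mul]
              congr 1
              ring
          _ ≤ _ := pow_le_pow_right₀ (by norm_num) hb
      rw [one_div, inv_pow, ← div_eq_mul_inv, one_le_div (by positivity)]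
      exact e1
    · positivity
  refine h1.trans ?_
  rw [← mul_sum]
  have h2 : ∑ b : Fin m → Fin m, (1 / 16 : ℝ) ^ (met nx t b).card ≤
      ∑ S ∈ (range t).powerset, (1 / 16 : ℝ) ^ S.card *
        ((m : ℝ) ^ m * Real.exp (-(1 / 2 : ℝ)) ^ (range t \ S).card) := by
    have e1 : ∀ b : Fin m → Fin m, (1 / 16 : ℝ) ^ (met nx t b).card =
        ∑ S ∈ (range t).powerset, if met nx t b = S then (1 / 16 : ℝ) ^ S.card else 0 := by
      intro b
      rw [Finset.sum_ite_eq, if_pos]
      rw [mem_powerset]
      exact filter_subset _ _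
    simp_rw [e1]
    rw [sum_comm]
    refine sum_le_sum fun S hS => ?_
    rw [← sum_filter, sum_const, nsmul_eq_mul, mul_comm]
    refine mul_le_mul_of_nonneg_left ?_ (by positivity)
    have hU : univ.filter (fun b : Fin m → Fin m => met nx t b = S) ⊆
        univ.filter fun b : Fin m → Fin m => Disjoint (gr b) ((range t \ S).biUnion (nw nx)) := by
      intro b hb
      rw [mem_filter] at hb ⊢
      refine ⟨mem_univ _, ?_⟩
      rw [disjoint_biUnion_right]
      intro i hi
      rw [mem_sdiff] at hi
      by_contra hcon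
      apply hi.2
      rw [← hb.2, met, mem_filter]
      exact ⟨hi.1, hcon⟩
    have h3 : ((univ.filter fun b : Fin m → Fin m => met nx t b = S).card : ℝ) ≤
        ((univ.filter fun b : Fin m → Fin m =>
          Disjoint (gr b) ((range t \ S).biUnion (nw nx))).card : ℝ) := by
      exact_mod_cast card_le_card hU
    refine h3.trans ((avoid hm _).trans ?_)
    refine mul_le_mul_of_nonneg_left ?_ (by positivity)
    rw [← Real.exp_nat_mul]
    apply Real.exp_le_exp.2
    have h4 : ((range t \ S).card : ℝ) * m ≤ 2 * (((range t \ S).biUnion (nw nx)).card : ℝ) := by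
      rw [card_biUnion (fun i _ j _ hij => nw_disj' nx hij)]
      have : (range t \ S).card * m ≤ 2 * ∑ i ∈ range t \ S, (nw nx i).card := by
        rw [mul_sum, ← smul_eq_mul]
        refine card_nsmul_le_sum _ _ _ fun i hi => ?_
        rw [mem_sdiff, mem_range] at hi
        exact h i hi.1
      exact_mod_cast this
    have h5 : ((range t \ S).card : ℝ) / 2 ≤ (((range t \ S).biUnion (nw nx)).card : ℝ) / m := by
      rw [div_le_div_iff₀ (by norm_num) hm']
      linarith
    linarith
  have h3 : ∑ S ∈ (range t).powerset, (1 / 16 : ℝ) ^ S.card *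
        ((m : ℝ) ^ m * Real.exp (-(1 / 2 : ℝ)) ^ (range t \ S).card) =
      (m : ℝ) ^ m * (1 / 16 + Real.exp (-(1 / 2 : ℝ))) ^ t := by
    have := Finset.prod_add (fun _ : ℕ => (1 / 16 : ℝ)) (fun _ => Real.exp (-(1 / 2 : ℝ))) (range t)
    rw [prod_const, card_range] at this
    rw [this, mul_sum]
    refine sum_congr rfl fun S _ => ?_
    rw [prod_const, prod_const]
    ring
  have h4 : (6 / 5 : ℝ) * (1 / 16 + Real.exp (-(1 / 2 : ℝ))) ≤ 803 / 1000 := by
    have e1 : Real.exp (-(1 / 2 : ℝ)) ≤ 6066 / 10000 := by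
      have e2 : (16486 / 10000 : ℝ) ≤ Real.exp (1 / 2) := by
        have h6 : (∑ i ∈ range 6, (1 / 2 : ℝ) ^ i / (i.factorial : ℝ)) ≤ Real.exp (1 / 2) :=
          Real.sum_le_exp_of_nonneg (by norm_num) 6
        simp only [sum_range_succ, range_zero, sum_empty, Nat.factorial] at h6
        norm_num at h6
        linarith
      rw [Real.exp_neg, inv_le_comm₀ (Real.exp_pos _) (by norm_num)]
      refine le_trans ?_ e2
      norm_num
    linarith
  calc (6 / 5 : ℝ) ^ t * ∑ b : Fin m → Fin m, (1 / 16 : ℝ) ^ (met nx t b).card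
      ≤ (6 / 5 : ℝ) ^ t * ((m : ℝ) ^ m * (1 / 16 + Real.exp (-(1 / 2 : ℝ))) ^ t) :=
        mul_le_mul_of_nonneg_left (h2.trans h3.le) (by positivity)
    _ = (m : ℝ) ^ m * ((6 / 5 : ℝ) * (1 / 16 + Real.exp (-(1 / 2 : ℝ)))) ^ t := by
        rw [mul_pow]; ring
    _ ≤ _ := mul_le_mul_of_nonneg_left (pow_le_pow_left₀ (by positivity) h4 t) (by positivity)

end greedy

/-- the pairs which agree somewhere in a rectangle -/
noncomputable def hits (A B : Finset (Fin m → Fin m)) : ℕ :=
  ((A ×ˢ B).filter fun p => hit p.1 p.2).card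

/-- **Babai, Frankl and Simon.** -/
theorem bfs {t : ℕ} (ht : 1 ≤ t) (hmt : m = 16 * t) (A B : Finset (Fin m → Fin m))
    (hA : 2 * ((81 / 100 : ℝ) ^ t * (m : ℝ) ^ m) ≤ A.card)
    (hB : 2 * ((81 / 100 : ℝ) ^ t * (m : ℝ) ^ m) ≤ B.card) : A.card * B.card ≤ 64 * hits A B := by
  by_contra hcon
  push Not at hcon
  have hm : 0 < m := by omega
  have hm' : (0 : ℝ) < m := by exact_mod_cast hm
  have hpos : (0 : ℝ) < (81 / 100 : ℝ) ^ t * (m : ℝ) ^ m := by positivity
  have hBpos : 0 < B.card := by
    have : (0 : ℝ) < B.card := by linarith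
    exact_mod_cast this
  obtain ⟨d, hd⟩ : ∃ d : (Fin m → Fin m) → ℕ, d = fun a => (B.filter fun b => hit a b).card :=
    ⟨_, rfl⟩
  have hsum : hits A B = ∑ a ∈ A, d a := by
    unfold hits
    rw [card_filter, sum_product, hd]
    refine sum_congr rfl fun a _ => ?_
    show _ = (B.filter fun b => hit a b).card
    rw [card_filter]
  obtain ⟨A', hA'⟩ : ∃ A', A' = A.filter fun a => 32 * d a ≤ B.card := ⟨_, rfl⟩
  have h1 : A.card < 2 * A'.card := by
    have h2 : (A \ A').card * B.card ≤ 32 * hits A B := by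
      rw [hsum, mul_sum, ← smul_eq_mul]
      refine le_trans (card_nsmul_le_sum (A \ A') (fun a => 32 * d a) B.card ?_)
        (sum_le_sum_of_subset sdiff_subset)
      intro a ha
      rw [mem_sdiff, hA', mem_filter] at ha
      by_contra h3
      exact ha.2 ⟨ha.1, by omega⟩
    have h3 : (A \ A').card + A'.card = A.card :=
      card_sdiff_add_card_eq_card (by rw [hA']; exact filter_subset _ _)
    have h4 : 2 * ((A \ A').card * B.card) < A.card * B.card := by omega
    have h5 : 2 * (A \ A').card < A.card := by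
      by_contra h6
      push Not at h6
      have := Nat.mul_le_mul_right B.card h6
      have e : 2 * (A \ A').card * B.card = 2 * ((A \ A').card * B.card) := by ring
      omega
    omega
  have h1r : (81 / 100 : ℝ) ^ t * (m : ℝ) ^ m < A'.card := by
    have : (A.card : ℝ) < 2 * A'.card := by exact_mod_cast h1
    linarith
  -- the next function
  have hnext : ∀ W : Finset (Fin m × Fin m), ∃ a : Fin m → Fin m,
      W.card ≤ t * m → a ∈ A' ∧ 2 * (gr a ∩ W).card < m := by
    intro W
    by_cases hW : W.card ≤ t * m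
    · by_contra h2
      push Not at h2
      have h3 : A' ⊆ univ.filter fun a : Fin m → Fin m => m ≤ 2 * (gr a ∩ W).card := by
        intro a ha
        rw [mem_filter]
        exact ⟨mem_univ _, (h2 a).2 ha⟩
      have h4 := inside hm W
      have h5 : (A'.card : ℝ) ≤
          ((univ.filter fun a : Fin m → Fin m => m ≤ 2 * (gr a ∩ W).card).card : ℝ) := by
        exact_mod_cast card_le_card h3
      have h6 : (3 * W.card / m : ℝ) ≤ 3 * t := by
        rw [div_le_iff₀ hm']
        have : (W.card : ℝ) ≤ t * m := by exact_mod_cast hW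
        linarith
      have h7 : Real.exp (3 * W.card / m : ℝ) ≤ (27 : ℝ) ^ t := by
        calc Real.exp (3 * W.card / m : ℝ) ≤ Real.exp (3 * t) := Real.exp_le_exp.2 h6
          _ = (Real.exp 1 ^ 3) ^ t := by
              rw [← Real.exp_nat_mul, ← Real.exp_nat_mul]
              congr 1
              push_cast
              ring
          _ ≤ _ := by
              have := Real.exp_one_lt_d9
              have h8 : Real.exp 1 ≤ 3 := by linarith
              have h9 : Real.exp 1 ^ 3 ≤ 27 := by
                calc Real.exp 1 ^ 3 ≤ 3 ^ 3 := pow_le_pow_left₀ (Real.exp_pos _).le h8 3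
                  _ = 27 := by norm_num
              exact pow_le_pow_left₀ (by positivity) h9 t
      have h8 : (A'.card : ℝ) * 2 ^ m ≤ (m : ℝ) ^ m * 27 ^ t :=
        (mul_le_mul_of_nonneg_right h5 (by positivity)).trans
          (h4.trans (mul_le_mul_of_nonneg_left h7 (by positivity)))
      have h9 : (2 : ℝ) ^ m = 65536 ^ t := by rw [hmt, pow_mul]; norm_num
      have h10 : (81 / 100 : ℝ) ^ t * (m : ℝ) ^ m * 2 ^ m < (m : ℝ) ^ m * 27 ^ t :=
        lt_of_lt_of_le (mul_lt_mul_of_pos_right h1r (by positivity)) h8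
      rw [h9] at h10
      have h11 : (27 : ℝ) ^ t ≤ (81 / 100) ^ t * 65536 ^ t := by
        rw [← mul_pow]
        exact pow_le_pow_left₀ (by norm_num) (by norm_num) t
      have h12 : (m : ℝ) ^ m * 27 ^ t ≤ (m : ℝ) ^ m * ((81 / 100) ^ t * 65536 ^ t) :=
        mul_le_mul_of_nonneg_left h11 (by positivity)
      linarith
    · exact ⟨fun l => l, fun h => absurd h hW⟩
  choose nx hnx using hnext
  have hun : ∀ i < t, (un nx i).card ≤ t * m := fun i hi =>
    (card_un nx i).trans (Nat.mul_le_mul_right m hi.le)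
  have hmem : ∀ i < t, nx (un nx i) ∈ A' := fun i hi => (hnx _ (hun i hi)).1
  have hnw : ∀ i < t, m ≤ 2 * (nw nx i).card := by
    intro i hi
    have h2 := (hnx _ (hun i hi)).2
    have h3 : (nw nx i).card + (gr (nx (un nx i)) ∩ un nx i).card = m := by
      unfold nw
      rw [card_sdiff_add_card_inter, card_gr]
    omega
  have hfew := met_few nx hm t hnw
  -- many `b` meet few of the new parts
  have hmeet : 16 * ∑ b ∈ B, (met nx t b).card * 2 ≤ t * B.card := by
    have h2 : ∑ b ∈ B, (met nx t b).card ≤ ∑ i ∈ range t, d (nx (un nx i)) := by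
      have e1 : ∀ b, (met nx t b).card =
          ∑ i ∈ range t, if ¬ Disjoint (gr b) (nw nx i) then 1 else 0 := by
        intro b
        rw [met, card_filter]
      simp_rw [e1]
      rw [sum_comm]
      refine sum_le_sum fun i _ => ?_
      rw [← card_filter, hd]
      refine card_le_card fun b hb => ?_
      rw [mem_filter] at hb ⊢
      refine ⟨hb.1, ?_⟩
      rw [Finset.not_disjoint_iff] at hb
      obtain ⟨p, hp, hp'⟩ := hb.2
      unfold nw at hp'
      rw [mem_sdiff] at hp'
      exact hit_of_mem hp'.1 hp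
    have h3 : 32 * ∑ i ∈ range t, d (nx (un nx i)) ≤ t * B.card := by
      rw [mul_sum]
      refine (sum_le_card_nsmul _ _ B.card ?_).trans ?_
      · intro i hi
        have := hmem i (mem_range.1 hi)
        rw [hA', mem_filter] at this
        exact this.2
      · rw [card_range, smul_eq_mul]
    rw [← sum_mul]
    omega
  have h13 : B.card < 2 * (B.filter fun b => 16 * (met nx t b).card ≤ t).card := by
    have h2 : (B.filter fun b => ¬ 16 * (met nx t b).card ≤ t).card * (t + 1) ≤
        16 * ∑ b ∈ B, (met nx t b).card := by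
      rw [mul_sum, ← smul_eq_mul]
      refine le_trans (card_nsmul_le_sum _ (fun b => 16 * (met nx t b).card) (t + 1) ?_)
        (sum_le_sum_of_subset (filter_subset _ _))
      intro b hb
      rw [mem_filter] at hb
      omega
    have h3 := Finset.card_filter_add_card_filter_not (s := B)
      (fun b => 16 * (met nx t b).card ≤ t)
    rw [← sum_mul] at hmeet
    by_contra h4
    push Not at h4
    have h5 : B.card ≤ 2 * (B.filter fun b => ¬ 16 * (met nx t b).card ≤ t).card := by omega
    have h6 : B.card * (t + 1) ≤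
        2 * ((B.filter fun b => ¬ 16 * (met nx t b).card ≤ t).card * (t + 1)) := by
      calc B.card * (t + 1) ≤
          2 * (B.filter fun b => ¬ 16 * (met nx t b).card ≤ t).card * (t + 1) :=
            Nat.mul_le_mul_right _ h5
        _ = _ := by ring
    have h7 : B.card * (t + 1) ≤ t * B.card := by
      refine h6.trans ?_
      refine le_trans (Nat.mul_le_mul_left 2 h2) ?_
      refine le_trans ?_ hmeet
      apply le_of_eq
      ring
    have h8 : B.card * (t + 1) = t * B.card + B.card := by ring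
    omega
  have h14 : ((B.filter fun b => 16 * (met nx t b).card ≤ t).card : ℝ) ≤
      (m : ℝ) ^ m * (803 / 1000) ^ t := by
    refine le_trans ?_ hfew
    exact_mod_cast card_le_card (filter_subset_filter _ (subset_univ B))
  have h15 : (B.card : ℝ) < 2 * (B.filter fun b => 16 * (met nx t b).card ≤ t).card := by
    exact_mod_cast h13
  have h16 : (803 / 1000 : ℝ) ^ t ≤ (81 / 100) ^ t :=
    pow_le_pow_left₀ (by norm_num) (by norm_num) t
  have h17 : (m : ℝ) ^ m * (803 / 1000) ^ t ≤ (m : ℝ) ^ m * (81 / 100) ^ t :=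
    mul_le_mul_of_nonneg_left h16 (by positivity)
  linarith

end Pool.Agent.U121.SI
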