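import Pool.Agent.U47.AC.Core

set_option autoImplicit false
set_option linter.unusedSectionVars false
set_option linter.unusedVariables false

/-!
U121/SI (helper121, MP_e016b3_lc, MP_f326ae_lc): circuits of small depth whose inputs are functions
of one bit each, under random restrictions; the mean number of pairs of sensitive bits.
-/

namespace Pool.Agent.U121.SI

open Finset DomAC0 H568R2 Pool.Agent.TH163.AC3 Pool.Agent.U47.AC Pool.Agent.Y601.SSE

section coll

variable {I : Type} [Fintype I] [DecidableEq I] {J : Type}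

/-- a function of one bit -/
def Lit (g : (I → Bool) → Bool) : Prop := ∃ (i : I) (φ : Bool → Bool), ∀ x, g x = φ (x i)

/-- all gates of depth at most `j` have shallow decision trees under `ρ` -/
def Sh (C : Circuit J) (σ : (I → Bool) → J → Bool) (s j : ℕ) (ρ : Restr I) : Prop :=
  ∀ g : Fin C.size, C.gateDepth g ≤ j → HasDT s (rs (fun x => C.gateVal (σ x) g) ρ)

lemma Lit.dt {g : (I → Bool) → Bool} (hg : Lit g) {s : ℕ} (hs : 1 ≤ s) (ρ : Restr I) :
    HasDT s (rs g ρ) := by
  obtain ⟨i, φ, h⟩ := hg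
  cases hρ : ρ i with
  | none =>
    refine ⟨TH163.AC3.Tree.node i (.leaf (φ false)) (.leaf (φ true)), ?_, ?_⟩
    · unfold TH163.AC3.Tree.depth
      simp only [TH163.AC3.Tree.depth]
      omega
    · intro x
      have h1 : rs g ρ x = φ (x i) := by
        show g (ov ρ x) = _
        rw [h]
        unfold ov
        rw [hρ]
        rfl
      rw [h1]
      unfold TH163.AC3.Tree.eval
      rcases hx : x i with _ | _
      · simp [TH163.AC3.Tree.eval]
      · simp [TH163.AC3.Tree.eval]
  | some b =>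
    apply hasDT_const (φ b)
    intro x
    show g (ov ρ x) = _
    rw [h]
    unfold ov
    rw [hρ]
    rfl

lemma node_dt' (C : Circuit J) (σ : (I → Bool) → J → Bool) (hσ : ∀ j, Lit fun x => σ x j)
    {s j : ℕ} (hs : 1 ≤ s) {ρ : Restr I} (hG : Sh C σ s j ρ)
    (v : J ⊕ Fin C.size) (hv : C.nodeDepth v ≤ j) :
    HasDT s (rs (fun x => C.nodeVal (σ x) v) ρ) := by
  cases v with
  | inl i => exact (hσ i).dt hs ρ
  | inr g => exact hG g hv

lemma gate_cert'' (C : Circuit J) (σ : (I → Bool) → J → Bool) {K : ℕ} {ρ : Restr I}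
    (g : Fin C.size) (Q : List (J ⊕ Fin C.size))
    (hQ : ∀ v ∈ Q, HasDT K (rs (fun x => C.nodeVal (σ x) v) ρ)) :
    ∃ b, Cert K b (rs (fun x => gfun C g (σ x) Q) ρ) := by
  cases hg : C.kind g with
  | and =>
    refine ⟨false, ?_⟩
    intro x hx
    simp only [rs, gfun, hg, decide_eq_false_iff_not, not_forall] at hx
    obtain ⟨v, hvQ, hv⟩ := hx
    have hv' : rs (fun x => C.nodeVal (σ x) v) ρ x = false := by
      show C.nodeVal (σ (ov ρ x)) v = false
      simpa using hv
    obtain ⟨A, hA, hy⟩ := (hQ v hvQ).cert false x hv'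
    refine ⟨A, hA, fun y hxy => ?_⟩
    simp only [rs, gfun, hg, decide_eq_false_iff_not, not_forall]
    exact ⟨v, hvQ, by have := hy y hxy; simpa [rs] using this⟩
  | or =>
    refine ⟨true, ?_⟩
    intro x hx
    simp only [rs, gfun, hg, decide_eq_true_eq] at hx
    obtain ⟨v, hvQ, hv⟩ := hx
    obtain ⟨A, hA, hy⟩ := (hQ v hvQ).cert true x hv
    refine ⟨A, hA, fun y hxy => ?_⟩
    simp only [rs, gfun, hg, decide_eq_true_eq]
    exact ⟨v, hvQ, hy y hxy⟩
  | not =>
    refine ⟨false, ?_⟩
    intro x hx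
    simp only [rs, gfun, hg, decide_eq_false_iff_not, not_forall] at hx
    obtain ⟨v, hvQ, hv⟩ := hx
    have hv' : rs (fun x => C.nodeVal (σ x) v) ρ x = true := by
      show C.nodeVal (σ (ov ρ x)) v = true
      simpa using hv
    obtain ⟨A, hA, hy⟩ := (hQ v hvQ).cert true x hv'
    refine ⟨A, hA, fun y hxy => ?_⟩
    simp only [rs, gfun, hg, decide_eq_false_iff_not, not_forall]
    exact ⟨v, hvQ, by have := hy y hxy; simpa [rs] using this⟩

open Classical in
theorem collapse'' (C : Circuit J) (σ : (I → Bool) → J → Bool) (hσ : ∀ j, Lit fun x => σ x j)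
    {q : ℝ} (h0 : 0 ≤ q) (h1 : q ≤ 1 / 3) {s : ℕ} (hs : 1 ≤ s) :
    ∀ j : ℕ, Ex (wq (q ^ j)) (fun ρ : Restr I => if ¬ Sh C σ s j ρ then (1 : ℝ) else 0) ≤
      j * C.size * (12 * s * q) ^ (s + 1) := by
  intro j
  induction j with
  | zero =>
    have hgood : ∀ ρ : Restr I, Sh C σ s 0 ρ := by
      intro ρ g hg
      have : 0 < C.gateDepth g := by rw [Circuit.gateDepth]; omega
      omega
    simp only [hgood, not_true, if_false]
    unfold Ex
    simp
  | succ j ih =>
    rw [pow_succ, wq_cmp]
    set ε : ℝ := (12 * s * q) ^ (s + 1) with hε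
    have hε0 : 0 ≤ ε := by positivity
    have hwj : ∀ a, 0 ≤ wq (q ^ j) a :=
      wq_nonneg (pow_nonneg h0 j) (pow_le_one₀ h0 (by linarith))
    have hw1 : ∀ a, 0 ≤ wq q a := wq_nonneg h0 (by linarith)
    have hin : ∀ ρ : Restr I, Ex (wq q) (fun τ : Restr I =>
        if ¬ Sh C σ s (j + 1) (cmp ρ τ) then (1 : ℝ) else 0) ≤
        (if ¬ Sh C σ s j ρ then (1 : ℝ) else 0) + C.size * ε := by
      intro ρ
      by_cases hG : Sh C σ s j ρ
      · simp only [hG, not_true, if_false, zero_add]
        have hpt : ∀ τ : Restr I, (if ¬ Sh C σ s (j + 1) (cmp ρ τ) then (1 : ℝ) else 0) ≤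
            ∑ g ∈ univ.filter (fun g : Fin C.size => C.gateDepth g ≤ j + 1),
              (if ¬ HasDT s (rs (rs (fun x => C.gateVal (σ x) g) ρ) τ) then (1 : ℝ) else 0) := by
          intro τ
          have hnn : ∀ g ∈ univ.filter (fun g : Fin C.size => C.gateDepth g ≤ j + 1),
              (0 : ℝ) ≤ (if ¬ HasDT s (rs (rs (fun x => C.gateVal (σ x) g) ρ) τ)
                then (1 : ℝ) else 0) := by
            intro g _
            split_ifs <;> norm_num
          by_cases hGG : Sh C σ s (j + 1) (cmp ρ τ)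
          · simp only [hGG, not_true, if_false]
            exact Finset.sum_nonneg hnn
          · simp only [hGG, not_false_iff, if_true]
            have hex : ∃ g : Fin C.size, C.gateDepth g ≤ j + 1 ∧
                ¬ HasDT s (rs (fun x => C.gateVal (σ x) g) (cmp ρ τ)) := by
              by_contra hcon
              apply hGG
              intro g hg
              by_contra hJ
              exact hcon ⟨g, hg, hJ⟩
            obtain ⟨g, hg, hJ⟩ := hex
            rw [rs_cmp] at hJ
            refine le_trans ?_ (Finset.single_le_sum hnn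
              (Finset.mem_filter.2 ⟨Finset.mem_univ g, hg⟩))
            rw [if_pos hJ]
        refine (Ex_mono hw1 hpt).trans ?_
        rw [Ex_sum]
        have hterm : ∀ g ∈ univ.filter (fun g : Fin C.size => C.gateDepth g ≤ j + 1),
            Ex (wq q) (fun τ : Restr I => (if ¬ HasDT s
                (rs (rs (fun x => C.gateVal (σ x) g) ρ) τ) then (1 : ℝ) else 0)) ≤ ε := by
          intro g hgi
          have hgd : C.gateDepth g ≤ j + 1 := (Finset.mem_filter.1 hgi).2
          obtain ⟨b, hb⟩ := gate_cert'' C σ (K := s) (ρ := ρ) g (C.preds g).toList (by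
            intro v hv
            apply node_dt' C σ hσ hs hG
            have hvp : v ∈ C.preds g := by
              rwa [Finset.mem_toList] at hv
            have := depth_lt C g v hvp
            omega)
          have h2 : (fun x => C.gateVal (σ x) g) = fun x => gfun C g (σ x) (C.preds g).toList := by
            funext x
            exact gateVal_eq C (σ x) g
          rw [← h2] at hb
          exact switching' h0 h1 hb
        refine (Finset.sum_le_card_nsmul _ _ _ hterm).trans ?_
        rw [nsmul_eq_mul]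
        apply mul_le_mul_of_nonneg_right _ hε0
        have : (univ.filter (fun g : Fin C.size => C.gateDepth g ≤ j + 1)).card ≤ C.size := by
          refine (Finset.card_le_univ _).trans ?_
          simp
        exact_mod_cast this
      · simp only [hG, not_false_iff, if_true]
        have h2 : Ex (wq q) (fun τ : Restr I =>
            if ¬ Sh C σ s (j + 1) (cmp ρ τ) then (1 : ℝ) else 0) ≤
            Ex (wq q) (fun _ : Restr I => (1 : ℝ)) := by
          apply Ex_mono hw1
          intro τ
          split_ifs <;> norm_num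
        rw [Ex_const (wq_sum q)] at h2
        have : 0 ≤ C.size * ε := by positivity
        linarith
    refine (Ex_mono hwj hin).trans ?_
    rw [Ex_add, Ex_const (wq_sum (q ^ j))]
    push_cast at ih ⊢
    linarith

open Classical in
/-- two stars, and the values on the stars and outside, are independent -/
theorem avg2 {p : ℝ} {i j : I} (hij : i ≠ j) (F : (I → Bool) → ℝ) :
    Ex (wq p) (fun ρ : Restr I => Ex half (fun x =>
      (if ρ i = none ∧ ρ j = none then (1 : ℝ) else 0) * F (ov ρ x))) = p ^ 2 * Ex half F := by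
  have h1 := Ex_prod (wq p) half (fun ω : I → Option Bool × Bool =>
    (if (ω i).1 = none ∧ (ω j).1 = none then (1 : ℝ) else 0) *
      F (ov (fun j => (ω j).1) (fun j => (ω j).2)))
  rw [← h1]
  have h2 := Ex_push (I := I) (fun c : Option Bool × Bool => (c.1.getD c.2, decide (c.1 = none)))
    (fun c : Option Bool × Bool => wq p c.1 * half c.2)
    (fun c : Bool × Bool => half c.1 * bern p c.2) (by
      rintro ⟨y, z⟩
      rw [Finset.sum_filter, Fintype.sum_prod_type, Fintype.sum_option, Fintype.sum_bool,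
        Fintype.sum_bool, Fintype.sum_bool, Fintype.sum_bool]
      cases y <;> cases z <;> simp [wq, half, bern] <;> ring)
    (fun η : I → Bool × Bool => (if (η i).2 = true ∧ (η j).2 = true then (1 : ℝ) else 0) *
      F (fun j => (η j).1))
  have h3 : (fun ω : I → Option Bool × Bool =>
      (if (ω i).1 = none ∧ (ω j).1 = none then (1 : ℝ) else 0) *
        F (ov (fun j => (ω j).1) (fun j => (ω j).2))) =
      fun ω => (fun η : I → Bool × Bool =>
        (if (η i).2 = true ∧ (η j).2 = true then (1 : ℝ) else 0) * F (fun j => (η j).1))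
        (fun j => ((ω j).1.getD (ω j).2, decide ((ω j).1 = none))) := by
    funext ω
    simp only [decide_eq_true_eq]
    rfl
  rw [h3, h2, Ex_prod half (bern p)]
  have e0 : Ex (bern p) (fun z : I → Bool =>
      if z i = true ∧ z j = true then (1 : ℝ) else 0) = p ^ 2 := by
    rw [Ex_resample (bern_sum p) _ i]
    have e1 : (fun ω : I → Bool => ∑ a, bern p a *
        (if Function.update ω i a i = true ∧ Function.update ω i a j = true
          then (1 : ℝ) else 0)) = fun ω => p * (if ω j = true then (1 : ℝ) else 0) := by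
      funext ω
      rw [Fintype.sum_bool]
      simp only [Function.update_self, Function.update_of_ne hij.symm]
      by_cases h : ω j = true <;> simp [bern, h]
    rw [e1, Ex_smul, ex_bern]
    ring
  have h4 : (fun α : I → Bool => Ex (bern p) (fun β : I → Bool =>
      (if β i = true ∧ β j = true then (1 : ℝ) else 0) * F (fun j => α j))) =
        fun α => p ^ 2 * F α := by
    funext α
    have h5 : (fun β : I → Bool => (if β i = true ∧ β j = true then (1 : ℝ) else 0) *
        F (fun j => α j)) =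
        fun β => F α * (if β i = true ∧ β j = true then (1 : ℝ) else 0) := by
      funext β
      rw [mul_comm]
    rw [h5, Ex_smul, e0, mul_comm]
  show Ex half (fun α : I → Bool => Ex (bern p) (fun β : I → Bool =>
      (if β i = true ∧ β j = true then (1 : ℝ) else 0) * F (fun j => α j))) = _
  rw [h4, Ex_smul]

end coll

section pair

open scoped Classical

variable {k : ℕ} {J : Type}

/-- the function changes if one of the two bits is flipped -/
def Two (F : (Fin k ⊕ Fin k → Bool) → Bool) (x : Fin k ⊕ Fin k → Bool) (p : Fin k × Fin k) :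
    Prop :=
  F (Y601.SSE.flip (Sum.inl p.1) x) ≠ F x ∧ F (Y601.SSE.flip (Sum.inr p.2) x) ≠ F x

/-- the mean number of sensitive pairs of a circuit of small depth is small -/
theorem pair_moment (C : Circuit J) (σ : (Fin k ⊕ Fin k → Bool) → J → Bool)
    (hσ : ∀ j, Lit fun x => σ x j) {s h : ℕ} (hs : 1 ≤ s)
    (hcond : h * (C.size * k ^ 2) ≤ 2 ^ s) (v : J ⊕ Fin C.size) (hv : C.nodeDepth v ≤ h) :
    ∑ x : Fin k ⊕ Fin k → Bool,
      ((univ.filter fun p : Fin k × Fin k => Two (fun x => C.nodeVal (σ x) v) x p).card : ℝ) ≤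
      2 ^ (k + k) * (24 * s : ℝ) ^ (2 * h + 2) := by
  have hs0 : (1 : ℝ) ≤ s := by exact_mod_cast hs
  obtain ⟨F, hF⟩ : ∃ F : (Fin k ⊕ Fin k → Bool) → Bool, F = fun x => C.nodeVal (σ x) v := ⟨_, rfl⟩
  rw [← hF]
  obtain ⟨q, hq⟩ : ∃ q : ℝ, q = 1 / (24 * s) := ⟨_, rfl⟩
  have hq0 : 0 < q := by rw [hq]; positivity
  have hq1 : q ≤ 1 / 3 := by
    rw [hq, div_le_div_iff₀ (by positivity) (by norm_num)]
    linarith
  have hbad := collapse'' C σ hσ hq0.le hq1 hs h
  have h1 : (12 * s * q : ℝ) = 1 / 2 := by rw [hq]; field_simp; norm_num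
  rw [h1] at hbad
  have hqh : 0 < q ^ h := by positivity
  have hw : ∀ a, 0 ≤ wq (q ^ h) a :=
    wq_nonneg hqh.le (pow_le_one₀ hq0.le (by linarith))
  obtain ⟨L, hL⟩ : ∃ L : Restr (Fin k ⊕ Fin k) → Fin k × Fin k → Prop, L = fun ρ p =>
    ρ (Sum.inl p.1) = none ∧ ρ (Sum.inr p.2) = none := ⟨_, rfl⟩
  obtain ⟨T, hT⟩ : ∃ T : Restr (Fin k ⊕ Fin k) → ℝ, T = fun ρ => Ex half (fun x =>
    ∑ p, (if L ρ p then (1 : ℝ) else 0) * (if Two F (ov ρ x) p then (1 : ℝ) else 0)) :=
    ⟨_, rfl⟩
  have hTcount : ∀ (ρ : Restr (Fin k ⊕ Fin k)) (x : Fin k ⊕ Fin k → Bool),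
      ∑ p, (if L ρ p then (1 : ℝ) else 0) * (if Two F (ov ρ x) p then (1 : ℝ) else 0) =
        ((univ.filter fun p => L ρ p ∧ Two F (ov ρ x) p).card : ℝ) := by
    intro ρ x
    rw [card_filter]
    push_cast
    refine sum_congr rfl fun i _ => ?_
    by_cases h2 : L ρ i <;> by_cases h3 : Two F (ov ρ x) i <;> simp [h2, h3]
  obtain ⟨A, hA⟩ : ∃ A : ℝ, A = Ex half (fun x : Fin k ⊕ Fin k → Bool =>
      ((univ.filter fun p : Fin k × Fin k => Two F x p).card : ℝ)) := ⟨_, rfl⟩
  have hExT : Ex (wq (q ^ h)) T = (q ^ h) ^ 2 * A := by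
    rw [hT]
    have e1 : (fun ρ : Restr (Fin k ⊕ Fin k) => Ex half (fun x =>
        ∑ p, (if L ρ p then (1 : ℝ) else 0) * (if Two F (ov ρ x) p then (1 : ℝ) else 0))) =
        fun ρ => ∑ p, Ex half (fun x => (if L ρ p then (1 : ℝ) else 0) *
          (if Two F (ov ρ x) p then (1 : ℝ) else 0)) := by
      funext ρ
      rw [Ex_sum univ half fun p x => (if L ρ p then (1 : ℝ) else 0) *
          (if Two F (ov ρ x) p then (1 : ℝ) else 0)]
    rw [e1, Ex_sum univ (wq (q ^ h)) fun p (ρ : Restr (Fin k ⊕ Fin k)) =>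
      Ex half (fun x => (if L ρ p then (1 : ℝ) else 0) *
          (if Two F (ov ρ x) p then (1 : ℝ) else 0))]
    have e2 : ∀ p : Fin k × Fin k, Ex (wq (q ^ h)) (fun ρ : Restr (Fin k ⊕ Fin k) =>
        Ex half (fun x => (if L ρ p then (1 : ℝ) else 0) *
          (if Two F (ov ρ x) p then (1 : ℝ) else 0))) =
        (q ^ h) ^ 2 * Ex half (fun x => if Two F x p then (1 : ℝ) else 0) := by
      intro p
      rw [hL]
      have e3 := avg2 (p := q ^ h) (i := Sum.inl p.1) (j := Sum.inr p.2) (by simp)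
        fun y => if Two F y p then (1 : ℝ) else 0
      refine Eq.trans ?_ e3
      refine congrArg _ (funext fun ρ => congrArg _ (funext fun x => ?_))
      congr 1
      split_ifs <;> first | rfl | contradiction
    rw [sum_congr rfl fun p _ => e2 p, ← mul_sum]
    congr 1
    rw [← Ex_sum univ half fun p x => if Two F x p then (1 : ℝ) else 0, hA]
    congr 1
    funext x
    rw [card_filter]
    push_cast
    rfl
  have hk0 : (0 : ℝ) ≤ (k : ℝ) ^ 2 := by positivity
  have hTle : ∀ ρ, T ρ ≤ (s : ℝ) ^ 2 + (k : ℝ) ^ 2 *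
      (if ¬ Sh C σ s h ρ then (1 : ℝ) else 0) := by
    intro ρ
    rw [hT]
    show Ex half (fun x => ∑ p, (if L ρ p then (1 : ℝ) else 0) *
        (if Two F (ov ρ x) p then (1 : ℝ) else 0)) ≤ _
    rw [show (fun x => ∑ p, (if L ρ p then (1 : ℝ) else 0) *
        (if Two F (ov ρ x) p then (1 : ℝ) else 0)) =
        fun x => ((univ.filter fun p => L ρ p ∧ Two F (ov ρ x) p).card : ℝ) from
      funext fun x => hTcount ρ x]
    rw [← Ex_const (I := Fin k ⊕ Fin k) half_sum
      ((s : ℝ) ^ 2 + (k : ℝ) ^ 2 * (if ¬ Sh C σ s h ρ then (1 : ℝ) else 0))]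
    refine Ex_mono half_nonneg fun x => ?_
    by_cases hS : Sh C σ s h ρ
    · simp only [hS, not_true, if_false, mul_zero, add_zero]
      have hdt : HasDT s (rs F ρ) := by rw [hF]; exact node_dt' C σ hσ hs hS v hv
      have key : ∀ i, ρ i = none → F (Y601.SSE.flip i (ov ρ x)) ≠ F (ov ρ x) →
          rs F ρ (Y601.SSE.flip i x) ≠ rs F ρ x := by
        intro i hi hne
        show F (ov ρ (Y601.SSE.flip i x)) ≠ F (ov ρ x)
        rw [ov_flip ρ i hi]
        exact hne
      obtain ⟨S, hSd⟩ : ∃ S : Finset (Fin k ⊕ Fin k), S = univ.filter fun i =>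
        rs F ρ (Y601.SSE.flip i x) ≠ rs F ρ x := ⟨_, rfl⟩
      have hScard : S.card ≤ s := by
        have := sens_le hdt univ x
        rw [hSd]
        exact this
      have hsub : (univ.filter fun p => L ρ p ∧ Two F (ov ρ x) p).card ≤ s * s := by
        calc (univ.filter fun p => L ρ p ∧ Two F (ov ρ x) p).card
            ≤ (S ×ˢ S).card := by
              refine card_le_card_of_injOn (fun p => (Sum.inl p.1, Sum.inr p.2)) ?_ ?_
              · intro p hp
                rw [mem_coe, mem_filter, hL] at hp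
                obtain ⟨-, ⟨a1, a2⟩, a3, a4⟩ := hp
                rw [mem_coe, mem_product, hSd, mem_filter, mem_filter]
                exact ⟨⟨mem_univ _, key _ a1 a3⟩, ⟨mem_univ _, key _ a2 a4⟩⟩
              · intro p _ p' _ hpp
                simp only [Prod.mk.injEq, Sum.inl.injEq, Sum.inr.injEq] at hpp
                exact Prod.ext hpp.1 hpp.2
          _ = S.card * S.card := card_product _ _
          _ ≤ s * s := Nat.mul_le_mul hScard hScard
      have : ((univ.filter fun p => L ρ p ∧ Two F (ov ρ x) p).card : ℝ) ≤ ((s * s : ℕ) : ℝ) := by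
        exact_mod_cast hsub
      push_cast at this
      rw [sq]
      exact this
    · simp only [hS, not_false_iff, if_true, mul_one]
      have h2 : (univ.filter fun p => L ρ p ∧ Two F (ov ρ x) p).card ≤ k ^ 2 := by
        refine (card_le_univ _).trans ?_
        simp [sq]
      have h3 : ((univ.filter fun p => L ρ p ∧ Two F (ov ρ x) p).card : ℝ) ≤ (k : ℝ) ^ 2 := by
        exact_mod_cast h2
      have : (0 : ℝ) ≤ (s : ℝ) ^ 2 := by positivity
      linarith
  have hmain := Ex_mono hw hTle
  rw [hExT, Ex_add (wq (q ^ h)) (fun _ : Restr (Fin k ⊕ Fin k) => (s : ℝ) ^ 2)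
    (fun ρ => (k : ℝ) ^ 2 * (if ¬ Sh C σ s h ρ then (1 : ℝ) else 0)),
    Ex_const (wq_sum _), Ex_smul] at hmain
  have hsmall : (k : ℝ) ^ 2 * Ex (wq (q ^ h)) (fun ρ : Restr (Fin k ⊕ Fin k) =>
      if ¬ Sh C σ s h ρ then (1 : ℝ) else 0) ≤ 1 / 2 := by
    refine (mul_le_mul_of_nonneg_left hbad hk0).trans ?_
    have h3 : ((h * (C.size * k ^ 2) : ℕ) : ℝ) ≤ ((2 ^ s : ℕ) : ℝ) := by exact_mod_cast hcond
    push_cast at h3
    have h5 : ((1 : ℝ) / 2) ^ (s + 1) * 2 ^ s = 1 / 2 := by
      rw [pow_succ, mul_right_comm, ← mul_pow]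
      norm_num
    calc (k : ℝ) ^ 2 * (h * C.size * (1 / 2) ^ (s + 1))
        = (1 / 2) ^ (s + 1) * (h * (C.size * k ^ 2)) := by ring
      _ ≤ (1 / 2) ^ (s + 1) * 2 ^ s := mul_le_mul_of_nonneg_left h3 (by positivity)
      _ = 1 / 2 := h5
  have h4 : q ^ h * (24 * s) ^ h = 1 := by
    rw [← mul_pow, hq]
    have : (1 : ℝ) / (24 * s) * (24 * s) = 1 := by field_simp
    rw [this, one_pow]
  have h5 : (q ^ h) ^ 2 * A ≤ (s : ℝ) ^ 2 + 1 / 2 := by linarith
  have h6 : (0 : ℝ) < (24 * s) ^ h := by positivity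
  have h7 : A ≤ (24 * s : ℝ) ^ (2 * h + 2) := by
    calc A = (q ^ h * (24 * s) ^ h) ^ 2 * A := by rw [h4]; ring
      _ = ((q ^ h) ^ 2 * A) * ((24 * s) ^ h) ^ 2 := by ring
      _ ≤ ((s : ℝ) ^ 2 + 1 / 2) * ((24 * s) ^ h) ^ 2 :=
          mul_le_mul_of_nonneg_right h5 (by positivity)
      _ ≤ ((24 * s) ^ 2) * ((24 * s) ^ h) ^ 2 := by
          apply mul_le_mul_of_nonneg_right _ (by positivity)
          nlinarith
      _ = (24 * s : ℝ) ^ (2 * h + 2) := by rw [pow_add, pow_mul']; ring
  rw [hA, Ex_half] at h7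
  have h8 : (0 : ℝ) < 2 ^ (k + k) := by positivity
  have h9 : Fintype.card (Fin k ⊕ Fin k) = k + k := by simp
  rw [h9, div_le_iff₀ h8] at h7
  linarith

end pair

end Pool.Agent.U121.SI
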