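import Pool.Agent.U121.SI.Coll

set_option autoImplicit false
set_option linter.unusedSectionVars false
set_option linter.unusedVariables false

/-!
U121/SI (helper121, MP_e016b3_lc, MP_f326ae_lc): a bit computed by a circuit of small depth is, for
most pairs of blocks, a function of two bits which depend on one of the two blocks each.
-/

namespace Pool.Agent.U121.SI

open Finset DomAC0 Pool.Agent.Y601.SSE

open scoped Classical

variable {k : ℕ} {X : Type} [Fintype X] {J : Type}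

/-- every block is taken from the first or from the second configuration -/
def sel (z z' : Fin k ⊕ Fin k → X) (x : Fin k ⊕ Fin k → Bool) : Fin k ⊕ Fin k → X :=
  fun i => if x i = true then z' i else z i

/-- the bit as a function of the selection -/
def FF (c : (Fin k ⊕ Fin k → X) → Bool) (z z' : Fin k ⊕ Fin k → X) (x : Fin k ⊕ Fin k → Bool) :
    Bool := c (sel z z' x)

/-- exchange of the two configurations at the places given by `x` -/
def sw (x : Fin k ⊕ Fin k → Bool) (q : (Fin k ⊕ Fin k → X) × (Fin k ⊕ Fin k → X)) :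
    (Fin k ⊕ Fin k → X) × (Fin k ⊕ Fin k → X) := (sel q.1 q.2 x, sel q.1 q.2 fun i => !(x i))

lemma sw_sw (x : Fin k ⊕ Fin k → Bool) (q : (Fin k ⊕ Fin k → X) × (Fin k ⊕ Fin k → X)) :
    sw x (sw x q) = q := by
  unfold sw sel
  refine Prod.ext (funext fun i => ?_) (funext fun i => ?_)
  · cases h : x i <;> simp [h]
  · cases h : x i <;> simp [h]

lemma FF_sw (c : (Fin k ⊕ Fin k → X) → Bool) (x y : Fin k ⊕ Fin k → Bool)
    (q : (Fin k ⊕ Fin k → X) × (Fin k ⊕ Fin k → X)) :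
    FF c (sw x q).1 (sw x q).2 y = FF c q.1 q.2 fun i => xor (x i) (y i) := by
  unfold FF sw
  congr 1
  funext i
  unfold sel
  cases h : x i <;> cases h' : y i <;> simp [h, h']

/-- the selection of the first configuration -/
def zz (k : ℕ) : Fin k ⊕ Fin k → Bool := fun _ => false

lemma xor_zz (x : Fin k ⊕ Fin k → Bool) : (fun i => xor (x i) (zz k i)) = x := by
  funext i; simp [zz]

lemma xor_flip (x : Fin k ⊕ Fin k → Bool) (j : Fin k ⊕ Fin k) :
    (fun i => xor (x i) (Y601.SSE.flip j (zz k) i)) = Y601.SSE.flip j x := by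
  funext i
  unfold Y601.SSE.flip
  by_cases h : i = j
  · subst h; simp [zz]
  · simp [zz, h]

lemma two_sw (c : (Fin k ⊕ Fin k → X) → Bool) (x : Fin k ⊕ Fin k → Bool) (p : Fin k × Fin k)
    (q : (Fin k ⊕ Fin k → X) × (Fin k ⊕ Fin k → X)) :
    Two (FF c (sw x q).1 (sw x q).2) (zz k) p ↔ Two (FF c q.1 q.2) x p := by
  unfold Two
  rw [FF_sw, FF_sw, FF_sw, xor_zz, xor_flip, xor_flip]

/-- the number of pairs of configurations with a sensitive pair of blocks -/
noncomputable def Th (c : (Fin k ⊕ Fin k → X) → Bool) (p : Fin k × Fin k) : ℕ :=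
  (univ.filter fun q : (Fin k ⊕ Fin k → X) × (Fin k ⊕ Fin k → X) =>
    Two (FF c q.1 q.2) (zz k) p).card

lemma Th_eq (c : (Fin k ⊕ Fin k → X) → Bool) (x : Fin k ⊕ Fin k → Bool) (p : Fin k × Fin k) :
    (univ.filter fun q : (Fin k ⊕ Fin k → X) × (Fin k ⊕ Fin k → X) =>
      Two (FF c q.1 q.2) x p).card = Th c p := by
  unfold Th
  refine card_bij' (fun q _ => sw x q) (fun q _ => sw x q) ?_ ?_ ?_ ?_
  · intro q hq
    rw [mem_filter] at hq ⊢
    exact ⟨mem_univ _, (two_sw c x p q).2 hq.2⟩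
  · intro q hq
    rw [mem_filter] at hq ⊢
    refine ⟨mem_univ _, ?_⟩
    rw [← two_sw c x p (sw x q), sw_sw]
    exact hq.2
  · intro q _; exact sw_sw x q
  · intro q _; exact sw_sw x q

/-- every input of the circuit is a function of one block, and `c` is a node of depth at most `h` -/
structure Small (C : Circuit J) (h : ℕ) (c : (Fin k ⊕ Fin k → X) → Bool) : Prop where
  ex : ∃ (inp : J → (Fin k ⊕ Fin k → X) → Bool) (v : J ⊕ Fin C.size),
    (∀ j, ∃ (i : Fin k ⊕ Fin k) (φ : X → Bool), ∀ z, inp j z = φ (z i)) ∧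
    C.nodeDepth v ≤ h ∧ ∀ z, c z = C.nodeVal (fun j => inp j z) v

theorem sum_Th {C : Circuit J} {h s : ℕ} {c : (Fin k ⊕ Fin k → X) → Bool} (hc : Small C h c)
    (hs : 1 ≤ s) (hcond : h * (C.size * k ^ 2) ≤ 2 ^ s) :
    ∑ p, (Th c p : ℝ) ≤ (24 * s : ℝ) ^ (2 * h + 2) *
      (Fintype.card (Fin k ⊕ Fin k → X) : ℝ) ^ 2 := by
  obtain ⟨inp, v, hinp, hv, hcv⟩ := hc.ex
  have h1 : ∀ q : (Fin k ⊕ Fin k → X) × (Fin k ⊕ Fin k → X),
      ∑ x : Fin k ⊕ Fin k → Bool,
        ((univ.filter fun p : Fin k × Fin k => Two (FF c q.1 q.2) x p).card : ℝ) ≤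
      2 ^ (k + k) * (24 * s : ℝ) ^ (2 * h + 2) := by
    intro q
    have e1 : FF c q.1 q.2 = fun x => C.nodeVal ((fun (x : Fin k ⊕ Fin k → Bool) (j : J) =>
        inp j (sel q.1 q.2 x)) x) v := by
      funext x
      exact hcv _
    rw [e1]
    refine pair_moment C (fun x j => inp j (sel q.1 q.2 x)) ?_ hs hcond v hv
    intro j
    obtain ⟨i, φ, hφ⟩ := hinp j
    refine ⟨i, fun b => φ (if b = true then q.2 i else q.1 i), fun x => ?_⟩
    exact hφ _
  have h2 : (2 : ℝ) ^ (k + k) * ∑ p, (Th c p : ℝ) =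
      ∑ q : (Fin k ⊕ Fin k → X) × (Fin k ⊕ Fin k → X), ∑ x : Fin k ⊕ Fin k → Bool,
        ((univ.filter fun p : Fin k × Fin k => Two (FF c q.1 q.2) x p).card : ℝ) := by
    have e1 : ∀ x : Fin k ⊕ Fin k → Bool, ∑ p, (Th c p : ℝ) =
        ∑ q : (Fin k ⊕ Fin k → X) × (Fin k ⊕ Fin k → X),
        ((univ.filter fun p : Fin k × Fin k => Two (FF c q.1 q.2) x p).card : ℝ) := by
      intro x
      simp_rw [← Th_eq c x, card_filter]
      push_cast
      rw [sum_comm]
    rw [sum_comm, ← sum_congr rfl fun x _ => e1 x, sum_const, nsmul_eq_mul, card_univ]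
    congr 1
    rw [Fintype.card_fun]
    simp
  have h3 : (2 : ℝ) ^ (k + k) * ∑ p, (Th c p : ℝ) ≤
      2 ^ (k + k) * ((24 * s : ℝ) ^ (2 * h + 2) *
        (Fintype.card (Fin k ⊕ Fin k → X) : ℝ) ^ 2) := by
    rw [h2]
    refine (sum_le_sum fun q _ => h1 q).trans ?_
    rw [sum_const, nsmul_eq_mul, card_univ, Fintype.card_prod]
    push_cast
    apply le_of_eq
    ring
  exact le_of_mul_le_mul_left h3 (by positivity)

/-- the selection of one block -/
def e1 (i : Fin k ⊕ Fin k) : Fin k ⊕ Fin k → Bool := Y601.SSE.flip i (zz k)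

/-- the approximation of the bit by a function of the two blocks of the pair `p`: the bits `r` and
`q` are functions of one of the two blocks, of the other blocks and of the second configuration -/
def ap (c : (Fin k ⊕ Fin k → X) → Bool) (z z' : Fin k ⊕ Fin k → X) (p : Fin k × Fin k) : Bool :=
  if FF c z z' (e1 (Sum.inl p.1)) = FF c z z' (Y601.SSE.flip (Sum.inr p.2) (e1 (Sum.inl p.1))) then
    FF c z z' (e1 (Sum.inr p.2)) else FF c z z' (e1 (Sum.inl p.1))

lemma sel_zz (z z' : Fin k ⊕ Fin k → X) : sel z z' (zz k) = z := by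
  funext i; simp [sel, zz]

lemma bool_corner (v q r v0 : Bool) (h : (if q = v0 then r else q) ≠ v) :
    (q ≠ v ∧ r ≠ v) ∨ (v ≠ q ∧ v0 ≠ q) ∨ (v0 ≠ r ∧ v ≠ r) := by
  cases v <;> cases q <;> cases r <;> cases v0 <;> simp_all

lemma flip_comm (i j : Fin k ⊕ Fin k) (hij : i ≠ j) (x : Fin k ⊕ Fin k → Bool) :
    Y601.SSE.flip i (Y601.SSE.flip j x) = Y601.SSE.flip j (Y601.SSE.flip i x) := by
  unfold Y601.SSE.flip
  funext l
  by_cases h1 : l = i
  · subst h1; simp [hij]
  · by_cases h2 : l = j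
    · subst h2; simp [h1]
    · simp [h1, h2]

theorem ap_err (c : (Fin k ⊕ Fin k → X) → Bool) (p : Fin k × Fin k) :
    (univ.filter fun q : (Fin k ⊕ Fin k → X) × (Fin k ⊕ Fin k → X) =>
      ap c q.1 q.2 p ≠ c q.1).card ≤ 3 * Th c p := by
  have h1 : (univ.filter fun q : (Fin k ⊕ Fin k → X) × (Fin k ⊕ Fin k → X) =>
      ap c q.1 q.2 p ≠ c q.1) ⊆
      ((univ.filter fun q : (Fin k ⊕ Fin k → X) × (Fin k ⊕ Fin k → X) =>
        Two (FF c q.1 q.2) (zz k) p) ∪
      (univ.filter fun q : (Fin k ⊕ Fin k → X) × (Fin k ⊕ Fin k → X) =>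
        Two (FF c q.1 q.2) (e1 (Sum.inl p.1)) p)) ∪
      (univ.filter fun q : (Fin k ⊕ Fin k → X) × (Fin k ⊕ Fin k → X) =>
        Two (FF c q.1 q.2) (e1 (Sum.inr p.2)) p) := by
    intro q hq
    rw [mem_filter] at hq
    rw [mem_union, mem_union, mem_filter, mem_filter, mem_filter]
    have h2 : c q.1 = FF c q.1 q.2 (zz k) := by
      unfold FF
      rw [sel_zz]
    have h3 := hq.2
    rw [h2] at h3
    unfold ap at h3
    have h4 := bool_corner _ _ _ _ h3
    have h5 : Y601.SSE.flip (Sum.inl p.1) (e1 (Sum.inr p.2)) =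
        Y601.SSE.flip (Sum.inr p.2) (e1 (Sum.inl p.1)) := by
      unfold e1
      rw [flip_comm _ _ (by simp)]
    rcases h4 with h4 | h4 | h4
    · left; left
      exact ⟨mem_univ _, h4⟩
    · left; right
      refine ⟨mem_univ _, ?_, ?_⟩
      · unfold e1 at h4 ⊢
        rw [Y601.SSE.flip_flip]
        exact h4.1
      · exact h4.2
    · right
      refine ⟨mem_univ _, ?_, ?_⟩
      · rw [h5]; exact h4.1
      · unfold e1 at h4 ⊢
        rw [Y601.SSE.flip_flip]
        exact h4.2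
  refine (card_le_card h1).trans ?_
  refine (card_union_le _ _).trans ?_
  have h2 := card_union_le (univ.filter fun q : (Fin k ⊕ Fin k → X) × (Fin k ⊕ Fin k → X) =>
        Two (FF c q.1 q.2) (zz k) p)
      (univ.filter fun q : (Fin k ⊕ Fin k → X) × (Fin k ⊕ Fin k → X) =>
        Two (FF c q.1 q.2) (e1 (Sum.inl p.1)) p)
  rw [Th_eq, Th_eq] at h2
  rw [Th_eq c (e1 (Sum.inr p.2))]
  omega

/-- **The bits of circuits of small depth are approximated for most pairs of blocks.** -/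
theorem sum_err {C : Circuit J} {h s : ℕ} {c : (Fin k ⊕ Fin k → X) → Bool} (hc : Small C h c)
    (hs : 1 ≤ s) (hcond : h * (C.size * k ^ 2) ≤ 2 ^ s) :
    ∑ p, ((univ.filter fun q : (Fin k ⊕ Fin k → X) × (Fin k ⊕ Fin k → X) =>
      ap c q.1 q.2 p ≠ c q.1).card : ℝ) ≤ 3 * (24 * s : ℝ) ^ (2 * h + 2) *
      (Fintype.card (Fin k ⊕ Fin k → X) : ℝ) ^ 2 := by
  have h1 : ∀ p : Fin k × Fin k, ((univ.filter fun q : (Fin k ⊕ Fin k → X) ×
      (Fin k ⊕ Fin k → X) => ap c q.1 q.2 p ≠ c q.1).card : ℝ) ≤ 3 * (Th c p : ℝ) := by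
    intro p
    exact_mod_cast ap_err c p
  refine (sum_le_sum fun p _ => h1 p).trans ?_
  rw [← mul_sum]
  have := sum_Th hc hs hcond
  linarith

end Pool.Agent.U121.SI
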