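import Mathlib

set_option autoImplicit false

/-!
U121/SI (helper121, MP_e016b3_lc, MP_f326ae_lc): adaptive queries (definitions).
-/

namespace Pool.Agent.U121.SI

/-- An adaptive query to a memory with `s` joint cells of `w` bits, for two inputs (of the types `L`
and `R`): at every step it either answers, or it reads a joint cell, or it gets the value of an
arbitrary function with `w` bits of one of the two inputs; the following steps may depend
arbitrarily on the `w` bits which have been read. -/
inductive Query (L R : Type) (w s : ℕ) : Type
  | answer (b : Bool) : Query L R w s
  | joint (c : Fin s) (next : (Fin w → Bool) → Query L R w s) : Query L R w s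
  | left (f : L → Fin w → Bool) (next : (Fin w → Bool) → Query L R w s) : Query L R w s
  | right (f : R → Fin w → Bool) (next : (Fin w → Bool) → Query L R w s) : Query L R w s

namespace Query

variable {L R : Type} {w s : ℕ}

/-- The answer of the query if the joint cells have the contents `mem` and the inputs are `a`, `b`. -/
def eval : Query L R w s → (Fin s → Fin w → Bool) → L → R → Bool
  | answer b, _, _, _ => b
  | joint c next, mem, a, b => (next (mem c)).eval mem a b
  | left f next, mem, a, b => (next (f a)).eval mem a b
  | right f next, mem, a, b => (next (f b)).eval mem a b

/-- The query makes at most `T` steps (reads of joint cells or of functions of one of the inputs)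
before it answers, whatever it reads. -/
def Within : Query L R w s → ℕ → Prop
  | answer _, _ => True
  | joint _ next, T => ∃ T', T = T' + 1 ∧ ∀ v, (next v).Within T'
  | left _ next, T => ∃ T', T = T' + 1 ∧ ∀ v, (next v).Within T'
  | right _ next, T => ∃ T', T = T' + 1 ∧ ∀ v, (next v).Within T'

end Query

end Pool.Agent.U121.SI
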