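import Pool.Agent.H568R2.Defs
import Pool.Agent.U121.SI.Query

set_option autoImplicit false

/-!
U121/SI (helper121, MP_f326ae_lc): data structures for set intersection whose joint memory is
computed by circuits (definitions).
-/

namespace Pool.Agent.U121.SI.SetInt

open Finset DomAC0

open scoped Classical

/-- A memory for two families `X`, `Y` of `k` sets, with `s` joint cells of `w` bits which are
computed by a circuit of NOT gates and AND and OR gates of unbounded fan-in: the inputs of the
circuit are arbitrary functions of single sets of the families (`Sum.inl i` is the set `X i`,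
`Sum.inr j` is the set `Y j`), and the bits of the cells are nodes of the circuit. -/
structure Memory (k w s : ℕ) where
  /-- the inputs of the circuit -/
  J : Type
  /-- the set on which the input depends, and the function of this set -/
  input : J → (Fin k ⊕ Fin k) × (Finset ℕ → Bool)
  /-- the circuit -/
  circuit : Circuit J
  /-- the node which computes the bit -/
  node : Fin s → Fin w → J ⊕ Fin circuit.size

/-- The contents of the joint cells for the families `X` and `Y`. -/
noncomputable def Memory.cells {k w s : ℕ} (D : Memory k w s) (X Y : Fin k → Finset ℕ) :
    Fin s → Fin w → Bool :=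
  fun c t => D.circuit.nodeVal (fun j => (D.input j).2 (Sum.elim X Y (D.input j).1)) (D.node c t)

/-- A data structure for set intersection: a memory, and for every `i` and `j` an adaptive query,
which reads joint cells and arbitrary functions (of `w` bits) of the first family alone and of the
second family alone. -/
structure DS (k w s : ℕ) where
  /-- the joint memory -/
  memory : Memory k w s
  /-- the queries -/
  query : Fin k → Fin k → Query (Fin k → Finset ℕ) (Fin k → Finset ℕ) w s

/-- The circuit has at most `M` gates, the bits of the joint cells are nodes of depth at most `h`,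
and all queries make at most `T` probes. -/
def DS.Bounded {k w s : ℕ} (D : DS k w s) (M h T : ℕ) : Prop :=
  D.memory.circuit.size ≤ M ∧ (∀ c t, D.memory.circuit.nodeDepth (D.memory.node c t) ≤ h) ∧
    ∀ i j, (D.query i j).Within T

/-- The random data structure (`D ω` with probability `p ω`) decides the disjointness of the sets
`X i` and `Y j`, for all families of total size at most `N` of sets of numbers less than `N ^ 2`,
and all `i` and `j`, with error probability at most `1 / 1000`. -/
def Solves {k w s : ℕ} (N : ℕ) {Ω : Type} [Fintype Ω] (p : Ω → ℝ) (D : Ω → DS k w s) : Prop :=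
  ∀ (X Y : Fin k → Finset ℕ), ∑ i, (X i).card + ∑ j, (Y j).card ≤ N →
    (∀ i, ∀ e ∈ X i, e < N ^ 2) → (∀ j, ∀ e ∈ Y j, e < N ^ 2) → ∀ i j,
    ∑ ω, p ω * (if ((D ω).query i j).eval ((D ω).memory.cells X Y) X Y ≠
      decide (¬ Disjoint (X i) (Y j)) then (1 : ℝ) else 0) ≤ 1 / 1000

end Pool.Agent.U121.SI.SetInt
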