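import Pool.Agent.U121.SI.Sum
import Pool.Agent.U121.SI.InterDefs

set_option autoImplicit false
set_option linter.unusedSectionVars false
set_option linter.unusedVariables false

/-!
U121/SI (helper121, MP_f326ae_lc): the space of structures for set intersection whose joint memory
is computed by circuits of small depth.
-/

namespace Pool.Agent.U121.SI.SetInt

open Finset DomAC0

open scoped Classical

variable {k m : ℕ}

/-- the set with the content `a` -/
noncomputable def st (a : Fin m → Fin m) : Finset ℕ := univ.image fun l => cod l (a l)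

lemma card_st (a : Fin m → Fin m) : (st a).card = m := by
  unfold st
  rw [card_image_of_injective _ (fun l l' h => (cod_inj h).1)]
  simp

lemma st_lt {a : Fin m → Fin m} {e : ℕ} (he : e ∈ st a) : e < m * m := by
  unfold st at he
  rw [mem_image] at he
  obtain ⟨l, _, rfl⟩ := he
  exact cod_lt _ _

lemma not_disj (a b : Fin m → Fin m) : ¬ Disjoint (st a) (st b) ↔ hit a b := by
  rw [Finset.not_disjoint_iff]
  constructor
  · rintro ⟨e, h1, h2⟩
    unfold st at h1 h2
    rw [mem_image] at h1 h2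
    obtain ⟨l, _, h1⟩ := h1
    obtain ⟨l', _, h2⟩ := h2
    rw [← h2] at h1
    obtain ⟨h3, h4⟩ := cod_inj h1
    subst h3
    exact ⟨l, h4⟩
  · rintro ⟨l, hl⟩
    refine ⟨cod l (a l), mem_image.2 ⟨l, mem_univ _, rfl⟩, mem_image.2 ⟨l, mem_univ _, ?_⟩⟩
    rw [hl]

/-- **Set intersection with a joint memory of small depth.** -/
theorem int_main {N w T : ℕ} (hw : 1 ≤ w) (hT : 1 ≤ T) (hN : 1000 * (w * T) ≤ N) :
    ∃ k : ℕ, ∀ (s M h σ : ℕ), 1 ≤ σ → h * (M * N ^ 2) ≤ 2 ^ σ → ∀ (Ω : Type) [Fintype Ω]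
      (p : Ω → ℝ), (∀ ω, 0 ≤ p ω) → ∑ ω, p ω = 1 → ∀ D : Ω → DS k w s,
      (∀ ω, (D ω).Bounded M h T) → Solves N p D →
      (N : ℝ) ^ 2 ≤ 10 ^ 10 * T ^ 2 * w ^ 3 * s * (24 * σ) ^ (2 * h + 2) := by
  obtain ⟨m, hm⟩ : ∃ m, m = 16 * (4 * (2 * w * T + 5)) := ⟨_, rfl⟩
  have hwT : 1 ≤ w * T := Nat.mul_pos hw hT
  have hm2 : m ≤ 448 * (w * T) := by
    rw [hm]
    have : 2 * w * T = 2 * (w * T) := by ring
    omega
  have hm0 : 0 < m := by omega
  obtain ⟨k, hk⟩ : ∃ k, k = N / (2 * m) := ⟨_, rfl⟩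
  have hkm : 2 * (k * m) ≤ N := by
    have := Nat.div_mul_le_self N (2 * m)
    rw [← hk] at this
    calc 2 * (k * m) = k * (2 * m) := by ring
      _ ≤ N := this
  have hk0 : 0 < k := by
    rw [hk]
    apply Nat.div_pos _ (by omega)
    omega
  have hn4 : N ≤ 4 * m * k := by
    have h1 : N < 2 * m * (k + 1) := by
      rw [hk]
      exact Nat.lt_mul_div_succ N (by omega)
    have h2 : 2 * m * (k + 1) ≤ 4 * m * k := by
      calc 2 * m * (k + 1) ≤ 2 * m * (k + k) := Nat.mul_le_mul_left _ (by omega)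
        _ = 4 * m * k := by ring
    omega
  refine ⟨k, fun s M h σ hσ hM Ω _ p hp hp1 D hD hsol => ?_⟩
  refine arith (by positivity) hn4 hm2 ?_
  refine block_main (k := k) (m := m) (w := w) (s := s) (T := T) (h := h) (M := M) (σ := σ)
    hm p hp hp1
    (fun ω c t z => (D ω).memory.cells (fun i => st (z (Sum.inl i)))
      (fun j => st (z (Sum.inr j))) c t) ?_
    (fun a => fun i => st (a i)) (fun b => fun j => st (b j))
    (fun ω pr => (D ω).query pr.1 pr.2) (fun ω pr => (hD ω).2.2 _ _) ?_ hσ ?_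
  · intro ω
    refine ⟨(D ω).memory.J, (D ω).memory.circuit, (hD ω).1, fun c t => ⟨?_⟩⟩
    refine ⟨fun j z => ((D ω).memory.input j).2 (Sum.elim
      (fun i => st (z (Sum.inl i))) (fun j => st (z (Sum.inr j)))
      ((D ω).memory.input j).1), (D ω).memory.node c t, ?_, (hD ω).2.1 c t, fun z => rfl⟩
    intro j
    rcases hj : ((D ω).memory.input j).1 with r | r
    · refine ⟨Sum.inl r, fun x => ((D ω).memory.input j).2 (st x), fun z => ?_⟩
      simp only [hj]
      rfl
    · refine ⟨Sum.inr r, fun x => ((D ω).memory.input j).2 (st x), fun z => ?_⟩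
      simp only [hj]
      rfl
  · intro z pr
    have hmN : m ≤ N := by
      calc m = 1 * m := (one_mul m).symm
        _ ≤ k * m := Nat.mul_le_mul_right m hk0
        _ ≤ N := by omega
    have hlt : ∀ (a : Fin m → Fin m), ∀ e ∈ st a, e < N ^ 2 := by
      intro a e he
      refine lt_of_lt_of_le (st_lt he) ?_
      rw [sq]
      exact Nat.mul_le_mul hmN hmN
    have h1 := hsol (fun i => st (z (Sum.inl i))) (fun j => st (z (Sum.inr j))) (by
        simp only [card_st, sum_const, card_univ, Fintype.card_fin, smul_eq_mul]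
        omega) (fun i => hlt _) (fun j => hlt _) pr.1 pr.2
    refine le_trans (le_of_eq ?_) h1
    refine sum_congr rfl fun ω _ => ?_
    congr 1
    have h2 : decide (¬ Disjoint ((fun i => st (z (Sum.inl i))) pr.1)
        ((fun j => st (z (Sum.inr j))) pr.2)) =
        decide (hit (z (Sum.inl pr.1)) (z (Sum.inr pr.2))) := by
      rw [decide_eq_decide]
      exact not_disj _ _
    rw [h2]
    unfold Wrong
    split_ifs <;> rfl
  · refine le_trans ?_ hM
    apply Nat.mul_le_mul_left
    apply Nat.mul_le_mul_left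
    apply Nat.pow_le_pow_left
    rw [hk]
    exact Nat.div_le_self _ _

end Pool.Agent.U121.SI.SetInt
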