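import Pool.Agent.U121.SI.Bfs
import Pool.Agent.U121.SI.Query

set_option autoImplicit false
set_option linter.unusedSectionVars false
set_option linter.unusedVariables false

/-!
U121/SI (helper121, MP_e016b3_lc, MP_f326ae_lc): adaptive queries and rectangles.
-/

namespace Pool.Agent.U121.SI

open Finset

open scoped Classical

section rect

variable {m : ℕ} {L R : Type} {w s : ℕ}

/-- the number of the pairs in a rectangle with a property -/
noncomputable def cnt (P : (Fin m → Fin m) × (Fin m → Fin m) → Prop)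
    (A B : Finset (Fin m → Fin m)) : ℕ := ((A ×ˢ B).filter P).card

lemma cnt_split (P : (Fin m → Fin m) × (Fin m → Fin m) → Prop) (A B : Finset (Fin m → Fin m))
    (α β : (Fin m → Fin m) → (Fin w → Bool)) :
    cnt P A B = ∑ xy : (Fin w → Bool) × (Fin w → Bool),
      cnt P (A.filter fun a => α a = xy.1) (B.filter fun b => β b = xy.2) := by
  unfold cnt
  rw [card_eq_sum_card_fiberwise (f := fun p : (Fin m → Fin m) × (Fin m → Fin m) =>
    (α p.1, β p.2)) (t := univ) (fun _ _ => by simp)]
  refine sum_congr rfl fun xy _ => ?_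
  congr 1
  ext p
  simp only [mem_filter, mem_product, Prod.ext_iff]
  tauto

lemma cnt_le_mul (P : (Fin m → Fin m) × (Fin m → Fin m) → Prop) (A B : Finset (Fin m → Fin m)) :
    cnt P A B ≤ A.card * B.card := by
  unfold cnt
  rw [← card_product]
  exact card_filter_le _ _

lemma cnt_congr {P Q : (Fin m → Fin m) × (Fin m → Fin m) → Prop} {A B : Finset (Fin m → Fin m)}
    (h : ∀ a ∈ A, ∀ b ∈ B, (P (a, b) ↔ Q (a, b))) : cnt P A B = cnt Q A B := by
  unfold cnt
  congr 1
  refine filter_congr fun p hp => ?_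
  rw [mem_product] at hp
  exact h p.1 hp.1 p.2 hp.2

/-- no agreement -/
def noHit : (Fin m → Fin m) × (Fin m → Fin m) → Prop := fun p => ¬ hit p.1 p.2

/-- the query errs -/
def Err (q : Query L R w s) (mem : (Fin m → Fin m) → (Fin m → Fin m) → Fin s → Fin w → Bool)
    (eL : (Fin m → Fin m) → L) (eR : (Fin m → Fin m) → R) :
    (Fin m → Fin m) × (Fin m → Fin m) → Prop :=
  fun p => q.eval (mem p.1 p.2) (eL p.1) (eR p.2) ≠ decide (hit p.1 p.2)

/-- the weight of the small rectangles -/
noncomputable def tau (m t : ℕ) : ℝ := 2 * ((81 / 100 : ℝ) ^ t * (m : ℝ) ^ m) * (m : ℝ) ^ m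

lemma tau_nonneg (m t : ℕ) : 0 ≤ tau m t := by unfold tau; positivity

lemma card_le_pow (A : Finset (Fin m → Fin m)) : (A.card : ℝ) ≤ (m : ℝ) ^ m := by
  have := card_le_univ A
  rw [Fintype.card_fun, Fintype.card_fin] at this
  exact_mod_cast this

lemma leaf_bound {t : ℕ} (ht : 1 ≤ t) (hmt : m = 16 * t) (b : Bool)
    (mem : (Fin m → Fin m) → (Fin m → Fin m) → Fin s → Fin w → Bool)
    (eL : (Fin m → Fin m) → L) (eR : (Fin m → Fin m) → R) (A B : Finset (Fin m → Fin m)) :
    (cnt noHit A B : ℝ) ≤ 64 * cnt (Err (Query.answer b) mem eL eR) A B + tau m t := by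
  cases b with
  | true =>
    have h1 : cnt (Err (Query.answer true) mem eL eR) A B = cnt noHit A B := by
      refine cnt_congr fun a _ b _ => ?_
      unfold Err noHit Query.eval
      simp
    rw [h1]
    have h2 : (0 : ℝ) ≤ cnt noHit A B := Nat.cast_nonneg _
    have := tau_nonneg m t
    linarith
  | false =>
    have h1 : cnt (Err (Query.answer false) mem eL eR) A B = hits A B := by
      unfold hits
      show cnt _ A B = cnt (fun p => hit p.1 p.2) A B
      refine cnt_congr fun a _ b _ => ?_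
      unfold Err Query.eval
      simp
    rw [h1]
    have h0 : (0 : ℝ) ≤ hits A B := Nat.cast_nonneg _
    have hm0 : (0 : ℝ) ≤ (m : ℝ) ^ m := by positivity
    have hle : (cnt noHit A B : ℝ) ≤ A.card * B.card := by exact_mod_cast cnt_le_mul noHit A B
    by_cases hA : 2 * ((81 / 100 : ℝ) ^ t * (m : ℝ) ^ m) ≤ A.card
    · by_cases hB : 2 * ((81 / 100 : ℝ) ^ t * (m : ℝ) ^ m) ≤ B.card
      · have h2 := bfs ht hmt A B hA hB
        have h3 : (A.card : ℝ) * B.card ≤ 64 * hits A B := by exact_mod_cast h2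
        have := tau_nonneg m t
        linarith
      · push Not at hB
        have h3 : (A.card : ℝ) * B.card ≤ tau m t := by
          unfold tau
          rw [mul_comm]
          exact mul_le_mul hB.le (card_le_pow A) (Nat.cast_nonneg _) (by positivity)
        linarith
    · push Not at hA
      have h3 : (A.card : ℝ) * B.card ≤ tau m t := by
        unfold tau
        exact mul_le_mul hA.le (card_le_pow B) (Nat.cast_nonneg _) (by positivity)
      linarith

/-- one step of a query -/
lemma step_bound {t T : ℕ} (q : Query L R w s) (nq : (Fin w → Bool) → (Fin w → Bool) → Query L R w s)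
    (mem : (Fin m → Fin m) → (Fin m → Fin m) → Fin s → Fin w → Bool)
    (eL : (Fin m → Fin m) → L) (eR : (Fin m → Fin m) → R)
    (α β : (Fin m → Fin m) → (Fin w → Bool))
    (hq : ∀ a b, q.eval (mem a b) (eL a) (eR b) = (nq (α a) (β b)).eval (mem a b) (eL a) (eR b))
    (ih : ∀ x y, ∀ A B : Finset (Fin m → Fin m), (cnt noHit A B : ℝ) ≤
      64 * cnt (Err (nq x y) mem eL eR) A B + (2 ^ (2 * w)) ^ T * tau m t)
    (A B : Finset (Fin m → Fin m)) :
    (cnt noHit A B : ℝ) ≤
      64 * cnt (Err q mem eL eR) A B + (2 ^ (2 * w)) ^ (T + 1) * tau m t := by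
  have h1 : cnt (Err q mem eL eR) A B = ∑ xy : (Fin w → Bool) × (Fin w → Bool),
      cnt (Err (nq xy.1 xy.2) mem eL eR) (A.filter fun a => α a = xy.1)
        (B.filter fun b => β b = xy.2) := by
    rw [cnt_split _ A B α β]
    refine sum_congr rfl fun xy _ => ?_
    refine cnt_congr fun a ha b hb => ?_
    rw [mem_filter] at ha hb
    unfold Err
    simp only
    rw [hq, ha.2, hb.2]
  rw [h1, cnt_split noHit A B α β]
  push_cast
  refine (sum_le_sum fun xy _ => ih xy.1 xy.2 _ _).trans ?_
  rw [sum_add_distrib, ← mul_sum, sum_const, nsmul_eq_mul, card_univ, Fintype.card_prod,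
    Fintype.card_fun, Fintype.card_bool, Fintype.card_fin]
  push_cast
  apply le_of_eq
  rw [pow_succ]
  ring

/-- few probes of approximated cells do not decide disjointness -/
theorem query_bound {t : ℕ} (ht : 1 ≤ t) (hmt : m = 16 * t)
    (mem : (Fin m → Fin m) → (Fin m → Fin m) → Fin s → Fin w → Bool)
    (hmem : ∀ c, ∃ (G : (Fin w → Bool) → (Fin w → Bool) → (Fin w → Bool))
      (u v : (Fin m → Fin m) → (Fin w → Bool)), ∀ a b, mem a b c = G (u a) (v b))
    (eL : (Fin m → Fin m) → L) (eR : (Fin m → Fin m) → R) :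
    ∀ (q : Query L R w s) (T : ℕ), q.Within T → ∀ A B : Finset (Fin m → Fin m),
      (cnt noHit A B : ℝ) ≤ 64 * cnt (Err q mem eL eR) A B + (2 ^ (2 * w)) ^ T * tau m t := by
  intro q
  induction q with
  | answer b =>
    intro T _ A B
    refine (leaf_bound ht hmt b mem eL eR A B).trans ?_
    have h1 : (1 : ℝ) ≤ (2 ^ (2 * w)) ^ T := one_le_pow₀ (one_le_pow₀ (by norm_num))
    have := tau_nonneg m t
    nlinarith
  | joint c next ih =>
    rintro T ⟨T', rfl, hT⟩ A B
    obtain ⟨G, u, v, h⟩ := hmem c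
    refine step_bound (Query.joint c next) (fun x y => next (G x y)) mem eL eR u v ?_ ?_ A B
    · intro a b
      show (next (mem a b c)).eval _ _ _ = _
      rw [h]
    · intro x y A B
      exact ih (G x y) T' (hT _) A B
  | left f next ih =>
    rintro T ⟨T', rfl, hT⟩ A B
    refine step_bound (Query.left f next) (fun x y => next x) mem eL eR (fun a => f (eL a))
      (fun b => fun _ => false) (fun a b => rfl) ?_ A B
    intro x y A B
    exact ih x T' (hT _) A B
  | right f next ih =>
    rintro T ⟨T', rfl, hT⟩ A B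
    refine step_bound (Query.right f next) (fun x y => next y) mem eL eR (fun a => fun _ => false)
      (fun b => f (eR b)) (fun a b => rfl) ?_ A B
    intro x y A B
    exact ih y T' (hT _) A B

/-- a constant fraction of the pairs do not agree anywhere -/
lemma noHit_univ {t : ℕ} (ht : 1 ≤ t) (hmt : m = 16 * t) :
    ((m : ℝ) ^ m) ^ 2 / 4 ≤ cnt (noHit (m := m)) univ univ := by
  have hm : 0 < m := by omega
  have hm' : (0 : ℝ) < m := by exact_mod_cast hm
  have h1 : cnt (noHit (m := m)) univ univ = m ^ m * (m - 1) ^ m := by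
    unfold cnt
    rw [card_filter, sum_product]
    have e1 : ∀ a : Fin m → Fin m, ∑ b : Fin m → Fin m, (if noHit (a, b) then 1 else 0) =
        (m - 1) ^ m := by
      intro a
      rw [← card_filter]
      have : (univ.filter fun b : Fin m → Fin m => noHit (a, b)) =
          Fintype.piFinset fun l => univ.erase (a l) := by
        ext b
        rw [mem_filter, Fintype.mem_piFinset]
        unfold noHit hit
        simp only [mem_univ, true_and, mem_erase, and_true, not_exists]
        exact ⟨fun h l h' => h l h'.symm, fun h l h' => h l h'.symm⟩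
      rw [this, Fintype.card_piFinset]
      simp
    rw [sum_congr rfl fun a _ => e1 a, sum_const, smul_eq_mul, card_univ, Fintype.card_fun,
      Fintype.card_fin]
  rw [h1]
  push_cast
  rw [Nat.cast_sub (by omega), Nat.cast_one]
  have h2 : (1 / 2 : ℝ) ≤ (1 - 1 / (m : ℝ)) ^ (8 * t) := by
    have h3 := one_add_mul_le_pow (a := -(1 / (m : ℝ))) (by
      have : 1 / (m : ℝ) ≤ 1 := by
        rw [div_le_one hm']
        exact_mod_cast hm
      linarith) (8 * t)
    have h4 : (1 : ℝ) + ((8 * t : ℕ) : ℝ) * -(1 / (m : ℝ)) = 1 / 2 := by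
      have ht' : (0 : ℝ) < t := by exact_mod_cast ht
      rw [hmt]
      push_cast
      field_simp
      norm_num
    rw [h4] at h3
    rwa [← sub_eq_add_neg] at h3
  have h5 : (1 / 4 : ℝ) ≤ (1 - 1 / (m : ℝ)) ^ m := by
    have : (1 - 1 / (m : ℝ)) ^ m = ((1 - 1 / (m : ℝ)) ^ (8 * t)) ^ 2 := by
      rw [← pow_mul]
      congr 1
      omega
    rw [this]
    calc (1 / 4 : ℝ) = (1 / 2) ^ 2 := by norm_num
      _ ≤ _ := pow_le_pow_left₀ (by norm_num) h2 2
  have h6 : ((m : ℝ) - 1) ^ m = (m : ℝ) ^ m * (1 - 1 / (m : ℝ)) ^ m := by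
    rw [← mul_pow]
    congr 1
    field_simp
  rw [h6]
  have h7 : (0 : ℝ) < (m : ℝ) ^ m := by positivity
  nlinarith [mul_le_mul_of_nonneg_left h5 (by positivity : (0 : ℝ) ≤ ((m : ℝ) ^ m) ^ 2)]

/-- **Few probes of approximated cells err often.** -/
theorem query_err {T : ℕ} (hm : m = 16 * (4 * (2 * w * T + 5)))
    (mem : (Fin m → Fin m) → (Fin m → Fin m) → Fin s → Fin w → Bool)
    (hmem : ∀ c, ∃ (G : (Fin w → Bool) → (Fin w → Bool) → (Fin w → Bool))
      (u v : (Fin m → Fin m) → (Fin w → Bool)), ∀ a b, mem a b c = G (u a) (v b))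
    (eL : (Fin m → Fin m) → L) (eR : (Fin m → Fin m) → R) (q : Query L R w s)
    (hq : q.Within T) :
    3 / 1024 * ((m : ℝ) ^ m) ^ 2 ≤ cnt (Err q mem eL eR) univ univ := by
  obtain ⟨t, ht⟩ : ∃ t, t = 4 * (2 * w * T + 5) := ⟨_, rfl⟩
  have hmt : m = 16 * t := by rw [hm, ht]
  have ht1 : 1 ≤ t := by omega
  have h1 := query_bound ht1 hmt mem hmem eL eR q T hq univ univ
  have h2 := noHit_univ ht1 hmt
  have h3 : (2 ^ (2 * w)) ^ T * tau m t ≤ ((m : ℝ) ^ m) ^ 2 / 16 := by
    unfold tau
    have e1 : (81 / 100 : ℝ) ^ t ≤ (1 / 2) ^ (2 * w * T + 5) := by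
      rw [ht, pow_mul]
      exact pow_le_pow_left₀ (by norm_num) (by norm_num) _
    have e2 : ((2 : ℝ) ^ (2 * w)) ^ T * (1 / 2) ^ (2 * w * T + 5) = 1 / 32 := by
      rw [← pow_mul, pow_add, ← mul_assoc, ← mul_pow]
      norm_num
    calc ((2 : ℝ) ^ (2 * w)) ^ T * (2 * ((81 / 100 : ℝ) ^ t * (m : ℝ) ^ m) * (m : ℝ) ^ m)
        = 2 * ((m : ℝ) ^ m) ^ 2 * (((2 : ℝ) ^ (2 * w)) ^ T * (81 / 100 : ℝ) ^ t) := by ring
      _ ≤ 2 * ((m : ℝ) ^ m) ^ 2 * (((2 : ℝ) ^ (2 * w)) ^ T * (1 / 2) ^ (2 * w * T + 5)) :=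
          mul_le_mul_of_nonneg_left (mul_le_mul_of_nonneg_left e1 (by positivity)) (by positivity)
      _ = ((m : ℝ) ^ m) ^ 2 / 16 := by rw [e2]; ring
  linarith

end rect

end Pool.Agent.U121.SI
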