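import Pool.Agent.U121.SI.Corner
import Pool.Agent.U121.SI.Rect

set_option autoImplicit false
set_option linter.unusedSectionVars false
set_option linter.unusedVariables false

/-!
U121/SI (helper121, MP_e016b3_lc, MP_f326ae_lc): the space of structures whose joint memory is
computed by circuits of small depth, for the disjointness of all pairs of blocks.
-/

namespace Pool.Agent.U121.SI

open Finset DomAC0

open scoped Classical

/-- resampling of one coordinate -/
lemma sum_update {I X : Type} [Fintype I] [DecidableEq I] [Fintype X] (i : I)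
    (g : (I → X) → ℝ) :
    ∑ z : I → X, ∑ a : X, g (Function.update z i a) = Fintype.card X * ∑ z : I → X, g z := by
  have h1 : ∑ q : (I → X) × X, g (Function.update q.1 i q.2) = ∑ q : (I → X) × X, g q.1 := by
    let e : ((I → X) × X) ≃ ((I → X) × X) :=
      { toFun := fun q => (Function.update q.1 i q.2, q.1 i)
        invFun := fun q => (Function.update q.1 i q.2, q.1 i)
        left_inv := fun q => by simp
        right_inv := fun q => by simp }
    exact e.sum_comp fun q => g q.1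
  rw [Fintype.sum_prod_type, Fintype.sum_prod_type] at h1
  rw [h1]
  simp only [sum_const, card_univ, nsmul_eq_mul]
  rw [← mul_sum]

section main

variable {k m w s T h M σ : ℕ} {L R : Type}

/-- the query gives the wrong answer -/
def Wrong (q : Query L R w s) (eL : (Fin k → (Fin m → Fin m)) → L)
    (eR : (Fin k → (Fin m → Fin m)) → R) (p : Fin k × Fin k) (mem : Fin s → Fin w → Bool)
    (z : Fin k ⊕ Fin k → (Fin m → Fin m)) : Prop :=
  q.eval mem (eL fun i => z (Sum.inl i)) (eR fun j => z (Sum.inr j)) ≠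
    decide (hit (z (Sum.inl p.1)) (z (Sum.inr p.2)))

/-- with approximated cells every query errs often -/
lemma approx_err (hm : m = 16 * (4 * (2 * w * T + 5)))
    (bit : Fin s → Fin w → (Fin k ⊕ Fin k → (Fin m → Fin m)) → Bool)
    (eL : (Fin k → (Fin m → Fin m)) → L) (eR : (Fin k → (Fin m → Fin m)) → R)
    (q : Query L R w s) (hq : q.Within T) (p : Fin k × Fin k) :
    3 / 1024 * (Fintype.card (Fin k ⊕ Fin k → (Fin m → Fin m)) : ℝ) ^ 2 ≤
      ((univ.filter fun zz : (Fin k ⊕ Fin k → (Fin m → Fin m)) ×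
        (Fin k ⊕ Fin k → (Fin m → Fin m)) =>
        Wrong q eL eR p (fun c t => ap (bit c t) zz.1 zz.2 p) zz.1).card : ℝ) := by
  have hm0 : 0 < m := by omega
  have hm' : (0 : ℝ) < m := by exact_mod_cast hm0
  obtain ⟨Z, hZ⟩ : ∃ Z : ℝ, Z = Fintype.card (Fin k ⊕ Fin k → (Fin m → Fin m)) := ⟨_, rfl⟩
  have hX : (Fintype.card (Fin m → Fin m) : ℝ) = (m : ℝ) ^ m := by
    rw [Fintype.card_fun, Fintype.card_fin]; push_cast; rfl
  have hXpos : (0 : ℝ) < (m : ℝ) ^ m := by positivity
  obtain ⟨g, hg⟩ : ∃ g : (Fin k ⊕ Fin k → (Fin m → Fin m)) →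
      (Fin k ⊕ Fin k → (Fin m → Fin m)) → ℝ, g = fun z' z =>
      if Wrong q eL eR p (fun c t => ap (bit c t) z z' p) z then (1 : ℝ) else 0 := ⟨_, rfl⟩
  have h1 : ((univ.filter fun zz : (Fin k ⊕ Fin k → (Fin m → Fin m)) ×
        (Fin k ⊕ Fin k → (Fin m → Fin m)) =>
        Wrong q eL eR p (fun c t => ap (bit c t) zz.1 zz.2 p) zz.1).card : ℝ) =
      ∑ z', ∑ z, g z' z := by
    rw [card_filter, Fintype.sum_prod_type, sum_comm, hg]
    push_cast
    rfl
  rw [h1, ← hZ]
  -- resample the two blocks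
  have hne : (Sum.inl p.1 : Fin k ⊕ Fin k) ≠ Sum.inr p.2 := by simp
  have h2 : ∀ z', ((m : ℝ) ^ m) ^ 2 * ∑ z, g z' z = ∑ z, ∑ a, ∑ b,
      g z' (Function.update (Function.update z (Sum.inl p.1) a) (Sum.inr p.2) b) := by
    intro z'
    have e1 := sum_update (Sum.inr p.2) (g z')
    have e2 := sum_update (Sum.inl p.1) (fun z => ∑ b, g z' (Function.update z (Sum.inr p.2) b))
    rw [e2, e1, hX]
    ring
  have h3 : ∀ z' z, 3 / 1024 * ((m : ℝ) ^ m) ^ 2 ≤ ∑ a, ∑ b,
      g z' (Function.update (Function.update z (Sum.inl p.1) a) (Sum.inr p.2) b) := by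
    intro z' z
    have e0 := query_err (T := T) hm (s := s) (w := w)
      (fun a b c t => ap (bit c t)
        (Function.update (Function.update z (Sum.inl p.1) a) (Sum.inr p.2) b) z' p) ?_
      (fun a => eL fun i => Function.update z (Sum.inl p.1) a (Sum.inl i))
      (fun b => eR fun j => Function.update z (Sum.inr p.2) b (Sum.inr j)) q hq
    · refine e0.trans (le_of_eq ?_)
      unfold cnt
      rw [card_filter, sum_product, hg]
      push_cast
      refine sum_congr rfl fun a _ => sum_congr rfl fun b _ => ?_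
      have e3 : (Function.update (Function.update z (Sum.inl p.1) a) (Sum.inr p.2) b)
          (Sum.inl p.1) = a := by
        rw [Function.update_of_ne hne, Function.update_self]
      have e4 : (Function.update (Function.update z (Sum.inl p.1) a) (Sum.inr p.2) b)
          (Sum.inr p.2) = b := Function.update_self _ _ _
      have e5 : (fun i => (Function.update (Function.update z (Sum.inl p.1) a) (Sum.inr p.2) b)
          (Sum.inl i)) = fun i => Function.update z (Sum.inl p.1) a (Sum.inl i) := by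
        funext i
        rw [Function.update_of_ne (by simp)]
      have e6 : (fun j => (Function.update (Function.update z (Sum.inl p.1) a) (Sum.inr p.2) b)
          (Sum.inr j)) = fun j => Function.update z (Sum.inr p.2) b (Sum.inr j) := by
        funext j
        by_cases hj : j = p.2
        · subst hj; simp
        · rw [Function.update_of_ne (by simpa using hj),
            Function.update_of_ne (by simp), Function.update_of_ne (by simpa using hj)]
      unfold Wrong Err
      simp only [e3, e4, e5, e6]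
      split_ifs <;> first | rfl | contradiction
    · intro c
      obtain ⟨v0, hv0⟩ : ∃ v0 : Fin w → Bool, v0 = fun t => FF (bit c t) z z'
        (Y601.SSE.flip (Sum.inr p.2) (e1 (Sum.inl p.1))) := ⟨_, rfl⟩
      refine ⟨fun x y => fun t => if y t = v0 t then x t else y t,
        fun a => fun t => FF (bit c t) (Function.update z (Sum.inl p.1) a) z' (e1 (Sum.inr p.2)),
        fun b => fun t => FF (bit c t) (Function.update z (Sum.inr p.2) b) z' (e1 (Sum.inl p.1)),
        fun a b => ?_⟩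
      funext t
      have f1 : FF (bit c t) (Function.update (Function.update z (Sum.inl p.1) a) (Sum.inr p.2) b)
          z' (e1 (Sum.inl p.1)) =
          FF (bit c t) (Function.update z (Sum.inr p.2) b) z' (e1 (Sum.inl p.1)) := by
        unfold FF
        congr 1
        funext i
        unfold sel e1 Y601.SSE.flip zz
        by_cases hi : i = Sum.inl p.1
        · subst hi; simp
        · by_cases hi2 : i = Sum.inr p.2
          · subst hi2; simp
          · simp [hi, hi2]
      have f2 : FF (bit c t) (Function.update (Function.update z (Sum.inl p.1) a) (Sum.inr p.2) b)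
          z' (e1 (Sum.inr p.2)) =
          FF (bit c t) (Function.update z (Sum.inl p.1) a) z' (e1 (Sum.inr p.2)) := by
        unfold FF
        congr 1
        funext i
        unfold sel e1 Y601.SSE.flip zz
        by_cases hi : i = Sum.inl p.1
        · subst hi; simp
        · by_cases hi2 : i = Sum.inr p.2
          · subst hi2; simp
          · simp [hi, hi2]
      have f3 : FF (bit c t) (Function.update (Function.update z (Sum.inl p.1) a) (Sum.inr p.2) b)
          z' (Y601.SSE.flip (Sum.inr p.2) (e1 (Sum.inl p.1))) =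
          FF (bit c t) z z' (Y601.SSE.flip (Sum.inr p.2) (e1 (Sum.inl p.1))) := by
        unfold FF
        congr 1
        funext i
        unfold sel e1 Y601.SSE.flip zz
        by_cases hi : i = Sum.inl p.1
        · subst hi; simp
        · by_cases hi2 : i = Sum.inr p.2
          · subst hi2; simp
          · simp [hi, hi2]
      unfold ap
      rw [f1, f2, f3, hv0]
  have h4 : ((m : ℝ) ^ m) ^ 2 * (3 / 1024 * Z ^ 2) ≤ ((m : ℝ) ^ m) ^ 2 * ∑ z', ∑ z, g z' z := by
    rw [mul_sum, sum_congr rfl fun z' _ => h2 z']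
    calc ((m : ℝ) ^ m) ^ 2 * (3 / 1024 * Z ^ 2)
        = ∑ z' : Fin k ⊕ Fin k → (Fin m → Fin m), ∑ z : Fin k ⊕ Fin k → (Fin m → Fin m),
            3 / 1024 * ((m : ℝ) ^ m) ^ 2 := by
          rw [sum_const, sum_const, nsmul_eq_mul, nsmul_eq_mul, card_univ, ← hZ]
          ring
      _ ≤ _ := sum_le_sum fun z' _ => sum_le_sum fun z _ => h3 z' z
  exact le_of_mul_le_mul_left h4 (by positivity)

/-- **Main theorem for blocks.** -/
theorem block_main (hm : m = 16 * (4 * (2 * w * T + 5))) {Ω : Type} [Fintype Ω] (p : Ω → ℝ)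
    (hp : ∀ ω, 0 ≤ p ω) (hp1 : ∑ ω, p ω = 1)
    (bit : Ω → Fin s → Fin w → (Fin k ⊕ Fin k → (Fin m → Fin m)) → Bool)
    (hbit : ∀ ω, ∃ (J : Type) (C : Circuit J), C.size ≤ M ∧ ∀ c t, Small C h (bit ω c t))
    (eL : (Fin k → (Fin m → Fin m)) → L) (eR : (Fin k → (Fin m → Fin m)) → R)
    (Q : Ω → Fin k × Fin k → Query L R w s) (hQ : ∀ ω pr, (Q ω pr).Within T)
    (herr : ∀ (z : Fin k ⊕ Fin k → (Fin m → Fin m)) (pr : Fin k × Fin k),
      ∑ ω, p ω * (if Wrong (Q ω pr) eL eR pr (fun c t => bit ω c t z) z then (1 : ℝ) else 0) ≤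
        1 / 1000)
    (hσ : 1 ≤ σ) (hcond : h * (M * k ^ 2) ≤ 2 ^ σ) :
    (k : ℝ) ^ 2 ≤ 1600 * (s * w * (24 * σ : ℝ) ^ (2 * h + 2)) := by
  obtain ⟨Z, hZ⟩ : ∃ Z : ℝ, Z = Fintype.card (Fin k ⊕ Fin k → (Fin m → Fin m)) := ⟨_, rfl⟩
  have hm0 : 0 < m := by omega
  have : Nonempty (Fin m) := ⟨⟨0, hm0⟩⟩
  have hZ0 : 0 < Z := by
    rw [hZ]
    exact_mod_cast Fintype.card_pos
  obtain ⟨K, hK⟩ : ∃ K : ℝ, K = (24 * σ : ℝ) ^ (2 * h + 2) := ⟨_, rfl⟩
  rw [← hK]
  -- for every `ω`
  have h1 : ∀ ω, 3 / 1024 * Z ^ 2 * (k : ℝ) ^ 2 ≤ 3 * (s * w * K) * Z ^ 2 +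
      Z * ∑ pr : Fin k × Fin k, ∑ z : Fin k ⊕ Fin k → (Fin m → Fin m),
        (if Wrong (Q ω pr) eL eR pr (fun c t => bit ω c t z) z then (1 : ℝ) else 0) := by
    intro ω
    obtain ⟨J, C, hC, hsm⟩ := hbit ω
    have hcond' : h * (C.size * k ^ 2) ≤ 2 ^ σ :=
      (Nat.mul_le_mul_left h (Nat.mul_le_mul_right _ hC)).trans hcond
    have h2 : ∀ pr : Fin k × Fin k, 3 / 1024 * Z ^ 2 ≤
        (∑ c : Fin s, ∑ t : Fin w, ((univ.filter fun q : (Fin k ⊕ Fin k → (Fin m → Fin m)) ×
          (Fin k ⊕ Fin k → (Fin m → Fin m)) => ap (bit ω c t) q.1 q.2 pr ≠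
            bit ω c t q.1).card : ℝ)) +
        Z * ∑ z : Fin k ⊕ Fin k → (Fin m → Fin m),
          (if Wrong (Q ω pr) eL eR pr (fun c t => bit ω c t z) z then (1 : ℝ) else 0) := by
      intro pr
      have e1 := approx_err hm (bit ω) eL eR (Q ω pr) (hQ ω pr) pr
      rw [← hZ] at e1
      refine e1.trans ?_
      have e2 : (univ.filter fun zz : (Fin k ⊕ Fin k → (Fin m → Fin m)) ×
          (Fin k ⊕ Fin k → (Fin m → Fin m)) =>
          Wrong (Q ω pr) eL eR pr (fun c t => ap (bit ω c t) zz.1 zz.2 pr) zz.1) ⊆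
          (univ.biUnion fun ct : Fin s × Fin w => univ.filter fun q :
            (Fin k ⊕ Fin k → (Fin m → Fin m)) × (Fin k ⊕ Fin k → (Fin m → Fin m)) =>
            ap (bit ω ct.1 ct.2) q.1 q.2 pr ≠ bit ω ct.1 ct.2 q.1) ∪
          ((univ.filter fun z : Fin k ⊕ Fin k → (Fin m → Fin m) =>
            Wrong (Q ω pr) eL eR pr (fun c t => bit ω c t z) z) ×ˢ univ) := by
        intro zz hzz
        rw [mem_filter] at hzz
        rw [mem_union, mem_biUnion]
        by_cases hall : ∀ c t, ap (bit ω c t) zz.1 zz.2 pr = bit ω c t zz.1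
        · right
          rw [mem_product, mem_filter]
          refine ⟨⟨mem_univ _, ?_⟩, mem_univ _⟩
          have : (fun c t => ap (bit ω c t) zz.1 zz.2 pr) = fun c t => bit ω c t zz.1 := by
            funext c t
            exact hall c t
          rw [← this]
          exact hzz.2
        · left
          push Not at hall
          obtain ⟨c, t, hct⟩ := hall
          exact ⟨(c, t), mem_univ _, by rw [mem_filter]; exact ⟨mem_univ _, hct⟩⟩
      have e3 := (card_le_card e2).trans ((card_union_le _ _).trans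
        (Nat.add_le_add_right card_biUnion_le _))
      have e4 : ((univ.filter fun zz : (Fin k ⊕ Fin k → (Fin m → Fin m)) ×
          (Fin k ⊕ Fin k → (Fin m → Fin m)) =>
          Wrong (Q ω pr) eL eR pr (fun c t => ap (bit ω c t) zz.1 zz.2 pr) zz.1).card : ℝ) ≤
          ((∑ ct : Fin s × Fin w, (univ.filter fun q :
            (Fin k ⊕ Fin k → (Fin m → Fin m)) × (Fin k ⊕ Fin k → (Fin m → Fin m)) =>
            ap (bit ω ct.1 ct.2) q.1 q.2 pr ≠ bit ω ct.1 ct.2 q.1).card +
          ((univ.filter fun z : Fin k ⊕ Fin k → (Fin m → Fin m) =>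
            Wrong (Q ω pr) eL eR pr (fun c t => bit ω c t z) z) ×ˢ
            (univ : Finset (Fin k ⊕ Fin k → (Fin m → Fin m)))).card : ℕ) : ℝ) := by
        exact_mod_cast e3
      refine e4.trans (le_of_eq ?_)
      rw [card_product, Fintype.sum_prod_type, card_univ, card_filter, hZ]
      push_cast
      ring
    have h3 : ∑ pr : Fin k × Fin k, 3 / 1024 * Z ^ 2 = 3 / 1024 * Z ^ 2 * (k : ℝ) ^ 2 := by
      rw [sum_const, nsmul_eq_mul, card_univ, Fintype.card_prod, Fintype.card_fin]
      push_cast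
      ring
    rw [← h3]
    refine (sum_le_sum fun pr _ => h2 pr).trans ?_
    rw [sum_add_distrib, ← mul_sum]
    have h4 : ∑ pr : Fin k × Fin k, ∑ c : Fin s, ∑ t : Fin w,
        ((univ.filter fun q : (Fin k ⊕ Fin k → (Fin m → Fin m)) ×
          (Fin k ⊕ Fin k → (Fin m → Fin m)) => ap (bit ω c t) q.1 q.2 pr ≠
            bit ω c t q.1).card : ℝ) ≤ 3 * (s * w * K) * Z ^ 2 := by
      rw [sum_comm]
      have h5 : ∀ c : Fin s, ∑ pr : Fin k × Fin k, ∑ t : Fin w,
          ((univ.filter fun q : (Fin k ⊕ Fin k → (Fin m → Fin m)) ×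
            (Fin k ⊕ Fin k → (Fin m → Fin m)) => ap (bit ω c t) q.1 q.2 pr ≠
              bit ω c t q.1).card : ℝ) ≤ w * (3 * K * Z ^ 2) := by
        intro c
        rw [sum_comm]
        refine (sum_le_sum fun t _ => ?_).trans (le_of_eq ?_) (b := ∑ _t : Fin w, 3 * K * Z ^ 2)
        · have := sum_err (hsm c t) hσ hcond'
          rw [← hK, ← hZ] at this
          exact this
        · rw [sum_const, nsmul_eq_mul, card_univ, Fintype.card_fin]
      refine (sum_le_sum fun c _ => h5 c).trans (le_of_eq ?_)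
      rw [sum_const, nsmul_eq_mul, card_univ, Fintype.card_fin]
      ring
    linarith
  have h5 : 3 / 1024 * Z ^ 2 * (k : ℝ) ^ 2 ≤ 3 * (s * w * K) * Z ^ 2 +
      Z * (Z * (k : ℝ) ^ 2 / 1000) := by
    have e1 : ∑ ω, p ω * (3 / 1024 * Z ^ 2 * (k : ℝ) ^ 2) ≤ ∑ ω, p ω *
        (3 * (s * w * K) * Z ^ 2 +
      Z * ∑ pr : Fin k × Fin k, ∑ z : Fin k ⊕ Fin k → (Fin m → Fin m),
        (if Wrong (Q ω pr) eL eR pr (fun c t => bit ω c t z) z then (1 : ℝ) else 0)) :=
      sum_le_sum fun ω _ => mul_le_mul_of_nonneg_left (h1 ω) (hp ω)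
    rw [← sum_mul, hp1, one_mul] at e1
    refine e1.trans ?_
    have e2 : ∑ ω, p ω * (3 * (s * w * K) * Z ^ 2 +
      Z * ∑ pr : Fin k × Fin k, ∑ z : Fin k ⊕ Fin k → (Fin m → Fin m),
        (if Wrong (Q ω pr) eL eR pr (fun c t => bit ω c t z) z then (1 : ℝ) else 0)) =
        3 * (s * w * K) * Z ^ 2 + Z * ∑ pr : Fin k × Fin k,
          ∑ z : Fin k ⊕ Fin k → (Fin m → Fin m), ∑ ω, p ω *
        (if Wrong (Q ω pr) eL eR pr (fun c t => bit ω c t z) z then (1 : ℝ) else 0) := by
      have e3 : ∀ ω, p ω * (3 * (s * w * K) * Z ^ 2 +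
        Z * ∑ pr : Fin k × Fin k, ∑ z : Fin k ⊕ Fin k → (Fin m → Fin m),
          (if Wrong (Q ω pr) eL eR pr (fun c t => bit ω c t z) z then (1 : ℝ) else 0)) =
          p ω * (3 * (s * w * K) * Z ^ 2) + Z * ∑ pr : Fin k × Fin k,
          ∑ z : Fin k ⊕ Fin k → (Fin m → Fin m), p ω *
          (if Wrong (Q ω pr) eL eR pr (fun c t => bit ω c t z) z then (1 : ℝ) else 0) := by
        intro ω
        rw [mul_add]
        congr 1
        simp_rw [← mul_sum]
        ring
      rw [sum_congr rfl fun ω _ => e3 ω, sum_add_distrib, ← sum_mul, hp1, one_mul, ← mul_sum]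
      congr 2
      rw [sum_comm]
      refine sum_congr rfl fun pr _ => ?_
      rw [sum_comm]
    rw [e2]
    have e4 : ∑ pr : Fin k × Fin k, ∑ z : Fin k ⊕ Fin k → (Fin m → Fin m), ∑ ω, p ω *
        (if Wrong (Q ω pr) eL eR pr (fun c t => bit ω c t z) z then (1 : ℝ) else 0) ≤
        ∑ pr : Fin k × Fin k, ∑ z : Fin k ⊕ Fin k → (Fin m → Fin m), (1 / 1000 : ℝ) :=
      sum_le_sum fun pr _ => sum_le_sum fun z _ => herr z pr
    have e5 : ∑ pr : Fin k × Fin k, ∑ z : Fin k ⊕ Fin k → (Fin m → Fin m), (1 / 1000 : ℝ) =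
        Z * (k : ℝ) ^ 2 / 1000 := by
      rw [sum_const, sum_const, nsmul_eq_mul, nsmul_eq_mul, card_univ, card_univ,
        Fintype.card_prod, Fintype.card_fin, ← hZ]
      push_cast
      ring
    rw [e5] at e4
    have := mul_le_mul_of_nonneg_left e4 hZ0.le
    linarith
  have hZ2 : 0 < Z ^ 2 := by positivity
  have hK0 : 0 ≤ s * w * K := by
    rw [hK]
    positivity
  have h6 : Z ^ 2 * ((3 / 1024 - 1 / 1000) * (k : ℝ) ^ 2) ≤ Z ^ 2 * (3 * (s * w * K)) := by
    nlinarith
  have h7 := le_of_mul_le_mul_left h6 hZ2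
  have hk2 : (0 : ℝ) ≤ (k : ℝ) ^ 2 := by positivity
  nlinarith

end main

end Pool.Agent.U121.SI
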