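import Pool.Agent.U121.SI.LTree
import Pool.Agent.U121.SI.Main

set_option autoImplicit false
set_option linter.unusedSectionVars false
set_option linter.unusedVariables false

/-!
U121/SI (helper121, MP_f326ae_lc): for every pair of sets of a random family, many joint cells are
not approximated. The proof is a variant of `Pool.Agent.W959.Ent.pair_lower`.
-/

namespace Pool.Agent.U121.SI.Lst

open Pool.Agent.W959 Pool.Agent.W959.Ent Pool.Agent.U121.SI

open scoped Classical

/-- the approximation of a bit is a function of two bits which depend on one block each -/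
lemma ap_split {k : ℕ} {X : Type} [Fintype X] (c : (Fin k ⊕ Fin k → X) → Bool)
    (z z' : Fin k ⊕ Fin k → X) (p : Fin k × Fin k) (a b : X) :
    ap c (Function.update (Function.update z (Sum.inl p.1) a) (Sum.inr p.2) b) z' p =
      if FF c (Function.update z (Sum.inr p.2) b) z' (e1 (Sum.inl p.1)) =
        FF c z z' (Y601.SSE.flip (Sum.inr p.2) (e1 (Sum.inl p.1))) then
        FF c (Function.update z (Sum.inl p.1) a) z' (e1 (Sum.inr p.2)) else
        FF c (Function.update z (Sum.inr p.2) b) z' (e1 (Sum.inl p.1)) := by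
  have f1 : FF c (Function.update (Function.update z (Sum.inl p.1) a) (Sum.inr p.2) b)
      z' (e1 (Sum.inl p.1)) =
      FF c (Function.update z (Sum.inr p.2) b) z' (e1 (Sum.inl p.1)) := by
    unfold FF
    congr 1
    funext i
    unfold sel e1 Y601.SSE.flip zz
    by_cases hi : i = Sum.inl p.1
    · subst hi; simp
    · by_cases hi2 : i = Sum.inr p.2
      · subst hi2; simp
      · simp [hi, hi2]
  have f2 : FF c (Function.update (Function.update z (Sum.inl p.1) a) (Sum.inr p.2) b)
      z' (e1 (Sum.inr p.2)) =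
      FF c (Function.update z (Sum.inl p.1) a) z' (e1 (Sum.inr p.2)) := by
    unfold FF
    congr 1
    funext i
    unfold sel e1 Y601.SSE.flip zz
    by_cases hi : i = Sum.inl p.1
    · subst hi; simp
    · by_cases hi2 : i = Sum.inr p.2
      · subst hi2; simp
      · simp [hi, hi2]
  have f3 : FF c (Function.update (Function.update z (Sum.inl p.1) a) (Sum.inr p.2) b)
      z' (Y601.SSE.flip (Sum.inr p.2) (e1 (Sum.inl p.1))) =
      FF c z z' (Y601.SSE.flip (Sum.inr p.2) (e1 (Sum.inl p.1))) := by
    unfold FF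
    congr 1
    funext i
    unfold sel e1 Y601.SSE.flip zz
    by_cases hi : i = Sum.inl p.1
    · subst hi; simp
    · by_cases hi2 : i = Sum.inr p.2
      · subst hi2; simp
      · simp [hi, hi2]
  unfold ap
  rw [f1, f2, f3]

/-- the set of numbers with the given characteristic vector -/
noncomputable def stv {n : ℕ} (x : Fin n → Bool) : Finset ℕ := (setOf x).map Fin.valEmbedding

lemma stv_inter {n : ℕ} (x y : Fin n → Bool) :
    stv x ∩ stv y = (setOf x ∩ setOf y).map Fin.valEmbedding := by
  unfold stv
  rw [Finset.map_inter]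

lemma card_stv_inter {n : ℕ} (x y : Fin n → Bool) :
    (stv x ∩ stv y).card = (setOf x ∩ setOf y).card := by
  rw [stv_inter, Finset.card_map]

lemma toB_stv {n : ℕ} (x y : Fin n → Bool) : toB n (stv x ∩ stv y) = conj x y := by
  rw [conj_eq_toBits]
  funext l
  unfold toB toBits
  rw [decide_eq_decide, stv_inter, Finset.mem_map]
  constructor
  · rintro ⟨l', h1, h2⟩
    have : l' = l := Fin.ext h2
    rw [← this]
    exact h1
  · intro h
    exact ⟨l, h, rfl⟩

lemma card_stv_le {n : ℕ} (x : Fin n → Bool) : (stv x).card ≤ n := by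
  unfold stv
  rw [Finset.card_map]
  have := Finset.card_le_univ (setOf x)
  rwa [Fintype.card_fin] at this

lemma stv_lt {n : ℕ} (x : Fin n → Bool) : ∀ e ∈ stv x, e < n := by
  intro e he
  unfold stv at he
  rw [Finset.mem_map] at he
  obtain ⟨l, _, rfl⟩ := he
  exact l.2

/-- the bits of the memory -/
noncomputable def bt {k w s n : ℕ} (D : DS k w s) (c : Fin s) (t : Fin w)
    (z : Fin k ⊕ Fin k → (Fin n → Bool)) : Bool :=
  D.memory.cells (fun i => stv (z (Sum.inl i))) (fun j => stv (z (Sum.inr j))) c t

/-- the cells which are not approximated -/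
noncomputable def own {k w s n : ℕ} (D : DS k w s) (z z' : Fin k ⊕ Fin k → (Fin n → Bool))
    (p : Fin k × Fin k) : Finset (Fin s) :=
  Finset.univ.filter fun c => ∃ t, ap (bt D c t) z z' p ≠ bt D c t z

theorem lpair_lower {C T : ℝ} {w m u k s n N : ℕ} (hC : 1 ≤ C) (hw : 1 ≤ w)
    (hT : 0 ≤ T) (hm : 1500 * (C * w) ≤ m) (hu : 300 ≤ u) (hTu : 300 * T ≤ u)
    (hn : n = m ^ 2 * u) (hkN : 2 * (k * n) ≤ N)
    {Ω : Type} [Fintype Ω] (p : Ω → ℝ) (hp0 : ∀ ω, 0 ≤ p ω) (hp1 : ∑ ω, p ω = 1)
    (D : Ω → DS k w s) (hD : Solves N C T p D)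
    (pr : Fin k × Fin k) (z z' : Fin k ⊕ Fin k → (Fin n → Bool)) :
    (u : ℝ) / (4000 * (w * C)) ≤ ∑ ω, p ω * ex2 (1 / (m : ℝ)) n (fun x y =>
      ((own (D ω) (Function.update (Function.update z (Sum.inl pr.1) x) (Sum.inr pr.2) y)
        z' pr).card : ℝ)) := by
  have hw' : (1 : ℝ) ≤ w := by exact_mod_cast hw
  have hu' : (300 : ℝ) ≤ u := by exact_mod_cast hu
  have hC0 : 0 < C := by linarith
  have hCb : 1 ≤ C * w := by nlinarith
  have hm' : (1500 : ℝ) ≤ m := by linarith
  have hm10 : 10 ≤ m := by
    have : (10 : ℝ) ≤ m := by linarith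
    exact_mod_cast this
  have hm0 : (0 : ℝ) < m := by linarith
  have hinv : 1 / (m : ℝ) ≤ 1 / 10 := by
    apply one_div_le_one_div_of_le <;> linarith
  have hinv0 : 0 < 1 / (m : ℝ) := by positivity
  have hr1 : 0 ≤ 1 - 1 / (m : ℝ) := by linarith
  obtain ⟨d, hd⟩ : ∃ d, d = ⌊C * (T + 4 * u)⌋₊ := ⟨_, rfl⟩
  have hd1 : (d : ℝ) ≤ C * (T + 4 * u) := by rw [hd]; exact Nat.floor_le (by positivity)
  obtain ⟨a, ha⟩ : ∃ a, a = ⌊(u : ℝ) / (500 * w * C)⌋₊ := ⟨_, rfl⟩
  have ha1 : (a : ℝ) ≤ u / (500 * w * C) := by rw [ha]; exact Nat.floor_le (by positivity)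
  have ha2 : (u : ℝ) / (500 * w * C) ≤ a + 1 := by
    rw [ha]; exact (Nat.lt_floor_add_one _).le
  have ha0 : (0 : ℝ) < a + 1 := by positivity
  have hne : (Sum.inl pr.1 : Fin k ⊕ Fin k) ≠ Sum.inr pr.2 := by simp
  -- the configuration with the sets `x` and `y`
  obtain ⟨cf, hcf⟩ : ∃ cf : (Fin n → Bool) → (Fin n → Bool) → Fin k ⊕ Fin k → (Fin n → Bool),
      cf = fun x y => Function.update (Function.update z (Sum.inl pr.1) x) (Sum.inr pr.2) y :=
    ⟨_, rfl⟩
  have hcf1 : ∀ x y, cf x y (Sum.inl pr.1) = x := by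
    intro x y
    rw [hcf]
    show Function.update (Function.update z (Sum.inl pr.1) x) (Sum.inr pr.2) y (Sum.inl pr.1) = x
    rw [Function.update_of_ne hne, Function.update_self]
  have hcf2 : ∀ x y, cf x y (Sum.inr pr.2) = y := by
    intro x y
    rw [hcf]
    exact Function.update_self _ _ _
  have hcf3 : ∀ x y y' i, cf x y (Sum.inl i) = cf x y' (Sum.inl i) := by
    intro x y y' i
    rw [hcf]
    show Function.update (Function.update z (Sum.inl pr.1) x) (Sum.inr pr.2) y (Sum.inl i) =
      Function.update (Function.update z (Sum.inl pr.1) x) (Sum.inr pr.2) y' (Sum.inl i)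
    have h0 : (Sum.inl i : Fin k ⊕ Fin k) ≠ Sum.inr pr.2 := by simp
    rw [Function.update_of_ne h0, Function.update_of_ne h0]
  have hcf4 : ∀ x x' y j, cf x y (Sum.inr j) = cf x' y (Sum.inr j) := by
    intro x x' y j
    rw [hcf]
    show Function.update (Function.update z (Sum.inl pr.1) x) (Sum.inr pr.2) y (Sum.inr j) =
      Function.update (Function.update z (Sum.inl pr.1) x') (Sum.inr pr.2) y (Sum.inr j)
    by_cases hj : j = pr.2
    · subst hj
      rw [Function.update_self, Function.update_self]
    · have h0 : (Sum.inr j : Fin k ⊕ Fin k) ≠ Sum.inr pr.2 := by simpa using hj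
      have h00 : (Sum.inr j : Fin k ⊕ Fin k) ≠ Sum.inl pr.1 := by simp
      rw [Function.update_of_ne h0, Function.update_of_ne h00,
        Function.update_of_ne h0, Function.update_of_ne h00]
  -- contents of the cells
  let φ : Ω → (Fin n → Bool) → (Fin n → Bool) → Fin s → Fin w → Bool := fun ω x y c t =>
    bt (D ω) c t (cf x y)
  let v0 : Ω → Fin s → Fin w → Bool := fun ω c t => FF (bt (D ω) c t) z z'
    (Y601.SSE.flip (Sum.inr pr.2) (e1 (Sum.inl pr.1)))
  let G : Ω → Fin s → (Fin w → Bool) → (Fin w → Bool) → (Fin w → Bool) := fun ω c x y t =>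
    if y t = v0 ω c t then x t else y t
  let U : Ω → Fin s → (Fin n → Bool) → Fin w → Bool := fun ω c x t =>
    FF (bt (D ω) c t) (Function.update z (Sum.inl pr.1) x) z' (e1 (Sum.inr pr.2))
  let V : Ω → Fin s → (Fin n → Bool) → Fin w → Bool := fun ω c y t =>
    FF (bt (D ω) c t) (Function.update z (Sum.inr pr.2) y) z' (e1 (Sum.inl pr.1))
  have hG : ∀ ω c x y, G ω c (U ω c x) (V ω c y) = fun t => ap (bt (D ω) c t) (cf x y) z' pr := by
    intro ω c x y
    funext t
    rw [hcf]
    exact (ap_split (bt (D ω) c t) z z' pr x y).symm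
  let eL : (Fin n → Bool) → (Fin k → Finset ℕ) := fun x i =>
    stv (cf x (fun _ => false) (Sum.inl i))
  let eR : (Fin n → Bool) → (Fin k → Finset ℕ) := fun y j =>
    stv (cf (fun _ => false) y (Sum.inr j))
  have heL : ∀ x y, (fun i => stv (cf x y (Sum.inl i))) = eL x := fun x y =>
    funext fun i => by
      show stv (cf x y (Sum.inl i)) = stv (cf x (fun _ => false) (Sum.inl i))
      rw [hcf3]
  have heR : ∀ x y, (fun j => stv (cf x y (Sum.inr j))) = eR y := fun x y =>
    funext fun j => by
      show stv (cf x y (Sum.inr j)) = stv (cf (fun _ => false) y (Sum.inr j))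
      rw [hcf4]
  let t : Ω → LQuery (Fin k → Finset ℕ) (Fin k → Finset ℕ) (Finset ℕ) w s := fun ω =>
    ((D ω).query pr.1 pr.2).prune fun _ => none
  -- the event
  let E : Ω → (Fin n → Bool) → (Fin n → Bool) → Prop := fun ω x y =>
    (t ω).steps (φ ω x y) (eL x) (eR y) ≤ d ∧
      (t ω).bad (fun c => φ ω x y c ≠ G ω c (U ω c x) (V ω c y)) (φ ω x y) (eL x) (eR y) ≤ a ∧
      conj x y = toB n ((t ω).eval (φ ω x y) (eL x) (eR y)) ∧ n - 4 * u ≤ nz (conj x y)
  have hE : ∀ ω, ex2 (1 / (m : ℝ)) n (fun x y => ind (E ω x y)) ≤ 1 / 8 := by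
    intro ω
    have h1 := ltree_bound hm10 (n - 4 * u) (φ ω) (G ω) (U ω) (V ω) eL eR
      (ε := 1 / (500 * C)) (by positivity) (by
        rw [div_le_one (by positivity)]
        linarith) (t ω) d a (fun _ => 1) (fun _ => 1) (fun _ => zero_le_one)
      (fun _ => zero_le_one)
    have hn1 : nrm m n (fun _ => 1) = 1 := by
      simp only [nrm, Real.one_rpow, ex_const]
    rw [hn1, mul_one, mul_one] at h1
    simp only [one_mul] at h1
    refine h1.trans ?_
    have := numeric (T := T) (d := d) (b := w) (m := m) (u := u) hC hw hw hm hu hTu hd1 ha1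
    rw [hn]
    exact this
  -- pointwise bound
  have hpt : ∀ x y : Fin n → Bool, (1 : ℝ) / 2 ≤ ∑ ω, p ω * (ind (E ω x y) +
      1 / (a + 1) * ((own (D ω) (cf x y) z' pr).card : ℝ)) +
      1 / (4 * (u : ℝ)) * ((setOf x ∩ setOf y).card : ℝ) := by
    intro x y
    have hterm : ∀ ω, 0 ≤ ind (E ω x y) +
      1 / ((a : ℝ) + 1) * ((own (D ω) (cf x y) z' pr).card : ℝ) := by
      intro ω
      have := ind_nonneg (E ω x y)
      positivity
    by_cases hc : (setOf x ∩ setOf y).card ≤ 4 * u
    · have h1 := hD (fun i => stv (cf x y (Sum.inl i))) (fun j => stv (cf x y (Sum.inr j))) (by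
          have e1 : ∑ i : Fin k, (stv (cf x y (Sum.inl i))).card ≤ k * n := by
            refine (Finset.sum_le_sum fun i _ => card_stv_le _).trans ?_
            simp
          have e2 : ∑ j : Fin k, (stv (cf x y (Sum.inr j))).card ≤ k * n := by
            refine (Finset.sum_le_sum fun i _ => card_stv_le _).trans ?_
            simp
          omega) (fun i e he => by
          have h0 := stv_lt _ e he
          have hk : 0 < k := Nat.pos_of_ne_zero fun h0 => by subst h0; exact i.elim0
          have : n ≤ k * n := Nat.le_mul_of_pos_left n hk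
          omega) (fun i e he => by
          have h0 := stv_lt _ e he
          have hk : 0 < k := Nat.pos_of_ne_zero fun h0 => by subst h0; exact i.elim0
          have : n ≤ k * n := Nat.le_mul_of_pos_left n hk
          omega) pr.1 pr.2
      have h2 : 0 ≤ 1 / (4 * (u : ℝ)) * ((setOf x ∩ setOf y).card : ℝ) := by positivity
      refine h1.trans (le_trans ?_ (le_add_of_nonneg_right h2))
      apply Finset.sum_le_sum
      intro ω _
      split_ifs with h3
      · have h4 : (1 : ℝ) ≤ ind (E ω x y) +
            1 / (a + 1) * ((own (D ω) (cf x y) z' pr).card : ℝ) := by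
          by_cases hown : (own (D ω) (cf x y) z' pr).card ≤ a
          · rw [ind_true]
            · have : 0 ≤ 1 / ((a : ℝ) + 1) *
                ((own (D ω) (cf x y) z' pr).card : ℝ) := by positivity
              linarith
            · obtain ⟨h4, h5⟩ := h3
              have hmem : (D ω).memory.cells (fun i => stv (cf x y (Sum.inl i)))
                  (fun j => stv (cf x y (Sum.inr j))) = φ ω x y := rfl
              rw [hmem, heL x y, heR x y] at h4 h5
              have hi : eL x pr.1 = stv x := by
                show stv (cf x (fun _ => false) (Sum.inl pr.1)) = stv x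
                rw [hcf1]
              have hj : eR y pr.2 = stv y := by
                show stv (cf (fun _ => false) y (Sum.inr pr.2)) = stv y
                rw [hcf2]
              rw [hi, hj] at h4 h5
              obtain ⟨g1, g2, g3⟩ := LQuery.prune_spec (φ ω x y) (eL x) (eR y)
                (fun c => φ ω x y c ≠ G ω c (U ω c x) (V ω c y)) ((D ω).query pr.1 pr.2)
                (fun _ => none) (fun c v h => by simp at h)
              refine ⟨?_, ?_, ?_, ?_⟩
              · refine le_trans g2 ?_
                rw [hd]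
                apply Nat.le_floor
                refine le_trans h5 ?_
                rw [card_stv_inter]
                have : ((setOf x ∩ setOf y).card : ℝ) ≤ 4 * u := by exact_mod_cast hc
                gcongr
              · refine le_trans g3 (le_trans ?_ hown)
                rw [← Set.ncard_coe_finset]
                apply Set.ncard_le_ncard _ (Set.toFinite _)
                rintro c ⟨h6, _⟩
                rw [Finset.mem_coe, own, Finset.mem_filter]
                refine ⟨Finset.mem_univ _, ?_⟩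
                by_contra h7
                push Not at h7
                apply h6
                rw [hG]
                funext t'
                exact (h7 t').symm
              · have g1' : (t ω).eval (φ ω x y) (eL x) (eR y) = stv x ∩ stv y := g1.trans h4
                rw [g1', toB_stv]
              · rw [conj_eq_toBits]
                have := nz_toBits (setOf x ∩ setOf y)
                omega
          · push Not at hown
            have h6 : (1 : ℝ) ≤ 1 / (a + 1) *
                ((own (D ω) (cf x y) z' pr).card : ℝ) := by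
              rw [one_div, inv_mul_eq_div, le_div_iff₀ ha0, one_mul]
              exact_mod_cast hown
            have := ind_nonneg (E ω x y)
            linarith
        calc p ω = p ω * 1 := (mul_one _).symm
          _ ≤ _ := mul_le_mul_of_nonneg_left h4 (hp0 ω)
      · exact mul_nonneg (hp0 ω) (hterm ω)
    · push Not at hc
      have h1 : (1 : ℝ) ≤ 1 / (4 * (u : ℝ)) * ((setOf x ∩ setOf y).card : ℝ) := by
        rw [one_div, inv_mul_eq_div, le_div_iff₀ (by positivity), one_mul]
        exact_mod_cast hc.le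
      have h2 : 0 ≤ ∑ ω, p ω * (ind (E ω x y) +
          1 / (a + 1) * ((own (D ω) (cf x y) z' pr).card : ℝ)) :=
        Finset.sum_nonneg fun ω _ => mul_nonneg (hp0 ω) (hterm ω)
      linarith
  have e1 := ex2_mono hinv0.le hr1 n hpt
  rw [ex2_const, ex2_add, ex2_sum, ex2_mul, ex2_card] at e1
  simp only [ex2_mul, ex2_add] at e1
  have e3 : 1 / (4 * (u : ℝ)) * ((n : ℝ) * (1 / (m : ℝ)) ^ 2) = 1 / 4 := by
    rw [hn]
    push_cast
    field_simp
  rw [e3] at e1
  have hgoal : (∑ ω, p ω * ex2 (1 / (m : ℝ)) n (fun x y =>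
      ((own (D ω) (Function.update (Function.update z (Sum.inl pr.1) x) (Sum.inr pr.2) y)
        z' pr).card : ℝ))) = ∑ ω, p ω * ex2 (1 / (m : ℝ)) n (fun x y =>
      ((own (D ω) (cf x y) z' pr).card : ℝ)) := by
    rw [hcf]
  rw [hgoal]
  set Z := ∑ ω, p ω * ex2 (1 / (m : ℝ)) n (fun x y =>
      ((own (D ω) (cf x y) z' pr).card : ℝ)) with hZ
  have h2 : ∑ ω, p ω * (ex2 (1 / (m : ℝ)) n (fun x y => ind (E ω x y)) +
      1 / (a + 1) * ex2 (1 / (m : ℝ)) n (fun x y =>
      ((own (D ω) (cf x y) z' pr).card : ℝ))) ≤ 1 / 8 + 1 / (a + 1) * Z := by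
    calc _ ≤ ∑ ω, p ω * (1 / 8 + 1 / (a + 1) * ex2 (1 / (m : ℝ)) n (fun x y =>
          ((own (D ω) (cf x y) z' pr).card : ℝ))) := by
          apply Finset.sum_le_sum
          intro ω _
          apply mul_le_mul_of_nonneg_left _ (hp0 ω)
          have := hE ω
          linarith
      _ = (∑ ω, p ω) * (1 / 8) + 1 / (a + 1) * Z := by
          rw [hZ, Finset.sum_mul, Finset.mul_sum, ← Finset.sum_add_distrib]
          apply Finset.sum_congr rfl
          intro ω _
          ring
      _ = _ := by rw [hp1, one_mul]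
  have h3 : (1 : ℝ) / 8 ≤ 1 / (a + 1) * Z := by linarith
  rw [one_div_mul_eq_div, le_div_iff₀ ha0] at h3
  calc (u : ℝ) / (4000 * (w * C)) = 1 / 8 * (u / (500 * w * C)) := by field_simp; ring
    _ ≤ 1 / 8 * (a + 1) := by gcongr
    _ ≤ Z := h3

end Pool.Agent.U121.SI.Lst
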