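import Pool.Agent.U121.SI.InterDefs

set_option autoImplicit false

/-!
U121/SI (helper121, MP_f326ae_lc): data structures for SetIntersection (listing) whose joint memory
is computed by circuits (definitions).
-/

namespace Pool.Agent.U121.SI.Lst

open Finset DomAC0

open scoped Classical

/-- An adaptive query with results in `O` to a memory with `s` joint cells of `w` bits, for two
inputs (of the types `L` and `R`): at every step it either gives the result, or it reads a joint
cell, or it gets the value of an arbitrary function with `w` bits of one of the two inputs; the
following steps may depend arbitrarily on what has been read. -/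
inductive LQuery (L R O : Type) (w s : ℕ) : Type
  | answer (o : O) : LQuery L R O w s
  | joint (c : Fin s) (next : (Fin w → Bool) → LQuery L R O w s) : LQuery L R O w s
  | left (f : L → Fin w → Bool) (next : (Fin w → Bool) → LQuery L R O w s) : LQuery L R O w s
  | right (f : R → Fin w → Bool) (next : (Fin w → Bool) → LQuery L R O w s) : LQuery L R O w s

namespace LQuery

variable {L R O : Type} {w s : ℕ}

/-- The result of the query if the joint cells have the contents `mem` and the inputs are `a`, `b`. -/
def eval : LQuery L R O w s → (Fin s → Fin w → Bool) → L → R → O
  | answer o, _, _, _ => o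
  | joint c next, mem, a, b => (next (mem c)).eval mem a b
  | left f next, mem, a, b => (next (f a)).eval mem a b
  | right f next, mem, a, b => (next (f b)).eval mem a b

/-- The number of steps (reads of joint cells or of functions of one of the inputs). -/
def steps : LQuery L R O w s → (Fin s → Fin w → Bool) → L → R → ℕ
  | answer _, _, _, _ => 0
  | joint c next, mem, a, b => (next (mem c)).steps mem a b + 1
  | left f next, mem, a, b => (next (f a)).steps mem a b + 1
  | right f next, mem, a, b => (next (f b)).steps mem a b + 1

end LQuery

/-- A data structure for SetIntersection: a joint memory (see `SetInt.Memory`), and for every `i`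
and `j` an adaptive query, whose result is a finite set of numbers, and which reads joint cells and
arbitrary functions (of `w` bits) of the first family alone and of the second family alone. -/
structure DS (k w s : ℕ) where
  /-- the joint memory -/
  memory : SetInt.Memory k w s
  /-- the queries -/
  query : Fin k → Fin k → LQuery (Fin k → Finset ℕ) (Fin k → Finset ℕ) (Finset ℕ) w s

/-- The circuit has at most `M` gates, and the bits of the joint cells are nodes of depth at most
`h`. -/
def DS.Bounded {k w s : ℕ} (D : DS k w s) (M h : ℕ) : Prop :=
  D.memory.circuit.size ≤ M ∧ ∀ c t, D.memory.circuit.nodeDepth (D.memory.node c t) ≤ h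

/-- For the families `X` and `Y`, the result of the query is `X i ∩ Y j`, and it makes at most
`C * (T + op)` steps, where `op` is the size of `X i ∩ Y j`. -/
def DS.Good {k w s : ℕ} (D : DS k w s) (C T : ℝ) (X Y : Fin k → Finset ℕ) (i j : Fin k) : Prop :=
  (D.query i j).eval (D.memory.cells X Y) X Y = X i ∩ Y j ∧
    ((D.query i j).steps (D.memory.cells X Y) X Y : ℝ) ≤ C * (T + (X i ∩ Y j).card)

/-- The random data structure (`D ω` with probability `p ω`) solves SetIntersection with query time
`C * (T + op)`: for all families `X`, `Y` of total size at most `N` of sets of numbers less than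
`N`, and all `i` and `j`, the query is `Good` with probability at least `1 / 2`. -/
def Solves {k w s : ℕ} (N : ℕ) (C T : ℝ) {Ω : Type} [Fintype Ω] (p : Ω → ℝ) (D : Ω → DS k w s) :
    Prop :=
  ∀ (X Y : Fin k → Finset ℕ), ∑ i, (X i).card + ∑ j, (Y j).card ≤ N →
    (∀ i, ∀ e ∈ X i, e < N) → (∀ j, ∀ e ∈ Y j, e < N) → ∀ i j,
    1 / 2 ≤ ∑ ω, if (D ω).Good C T X Y i j then p ω else 0

end Pool.Agent.U121.SI.Lst
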