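import Pool.Agent.W959.EntFinal
import Pool.Agent.U121.SI.ListDefs

set_option autoImplicit false
set_option linter.unusedSectionVars false
set_option linter.unusedVariables false

/-!
U121/SI (helper121, MP_f326ae_lc): adaptive queries to cells which are nearly products. The
estimate is a variant of `Pool.Agent.W959.Ent.tree_bound`.
-/

namespace Pool.Agent.U121.SI.Lst

open Pool.Agent.W959 Pool.Agent.W959.Ent

open scoped Classical

section prune

variable {L R O : Type} {w s : ℕ}

/-- the number of reads of cells with the property `P` -/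
noncomputable def LQuery.bad (P : Fin s → Prop) :
    LQuery L R O w s → (Fin s → Fin w → Bool) → L → R → ℕ
  | .answer _, _, _, _ => 0
  | .joint c next, mem, a, b => (next (mem c)).bad P mem a b + if P c then 1 else 0
  | .left f next, mem, a, b => (next (f a)).bad P mem a b
  | .right f next, mem, a, b => (next (f b)).bad P mem a b

/-- remove repeated reads -/
noncomputable def LQuery.prune :
    LQuery L R O w s → (Fin s → Option (Fin w → Bool)) → LQuery L R O w s
  | .answer o, _ => .answer o
  | .joint c next, known =>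
    match known c with
    | some v => (next v).prune known
    | none => .joint c fun v => (next v).prune (Function.update known c (some v))
  | .left f next, known => .left f fun v => (next v).prune known
  | .right f next, known => .right f fun v => (next v).prune known

theorem LQuery.prune_spec (mem : Fin s → Fin w → Bool) (a : L) (b : R) (P : Fin s → Prop)
    (t : LQuery L R O w s) : ∀ known : Fin s → Option (Fin w → Bool),
      (∀ c v, known c = some v → mem c = v) →
      (t.prune known).eval mem a b = t.eval mem a b ∧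
      (t.prune known).steps mem a b ≤ t.steps mem a b ∧
      (t.prune known).bad P mem a b ≤ Set.ncard {c | P c ∧ known c = none} := by
  induction t with
  | answer o =>
    intro known _
    refine ⟨rfl, le_rfl, ?_⟩
    simp [LQuery.prune, LQuery.bad]
  | left f next ih =>
    intro known hk
    obtain ⟨h1, h2, h3⟩ := ih (f a) known hk
    refine ⟨h1, ?_, h3⟩
    show ((next (f a)).prune known).steps mem a b + 1 ≤ (next (f a)).steps mem a b + 1
    omega
  | right f next ih =>
    intro known hk
    obtain ⟨h1, h2, h3⟩ := ih (f b) known hk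
    refine ⟨h1, ?_, h3⟩
    show ((next (f b)).prune known).steps mem a b + 1 ≤ (next (f b)).steps mem a b + 1
    omega
  | joint c next ih =>
    intro known hk
    cases hc : known c with
    | some v =>
      have hv := hk c v hc
      have e1 : (LQuery.joint c next).prune known = (next v).prune known := by
        simp [LQuery.prune, hc]
      obtain ⟨h1, h2, h3⟩ := ih v known hk
      rw [e1]
      refine ⟨?_, ?_, h3⟩
      · rw [h1, LQuery.eval, hv]
      · rw [LQuery.steps, hv]; omega
    | none =>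
      have e1 : (LQuery.joint c next).prune known =
          .joint c fun v => (next v).prune (Function.update known c (some v)) := by
        simp [LQuery.prune, hc]
      have hk' : ∀ c' v, Function.update known c (some (mem c)) c' = some v → mem c' = v := by
        intro c' v h
        by_cases hcc : c' = c
        · subst hcc
          rw [Function.update_self] at h
          exact Option.some.inj h
        · rw [Function.update_of_ne hcc] at h
          exact hk c' v h
      obtain ⟨h1, h2, h3⟩ := ih (mem c) (Function.update known c (some (mem c))) hk'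
      rw [e1]
      refine ⟨?_, ?_, ?_⟩
      · simp only [LQuery.eval]; exact h1
      · simp only [LQuery.steps]; omega
      · simp only [LQuery.bad]
        have hfin : ({c' | P c' ∧ known c' = none} : Set (Fin s)).Finite := Set.toFinite _
        by_cases hP : P c
        · rw [if_pos hP]
          have hss : insert c {c' | P c' ∧ Function.update known c (some (mem c)) c' = none} ⊆
              {c' | P c' ∧ known c' = none} := by
            rintro c' (rfl | ⟨h4, h5⟩)
            · exact ⟨hP, hc⟩
            · by_cases hcc : c' = c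
              · subst hcc
                rw [Function.update_self] at h5
                exact absurd h5 (by simp)
              · rw [Function.update_of_ne hcc] at h5
                exact ⟨h4, h5⟩
          have hn : c ∉ {c' | P c' ∧ Function.update known c (some (mem c)) c' = none} := by
            rintro ⟨_, h5⟩
            rw [Function.update_self] at h5
            exact absurd h5 (by simp)
          have h6 := Set.ncard_le_ncard hss hfin
          rw [Set.ncard_insert_of_notMem hn (Set.toFinite _)] at h6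
          omega
        · rw [if_neg hP]
          refine h3.trans (Set.ncard_le_ncard ?_ hfin)
          rintro c' ⟨h4, h5⟩
          by_cases hcc : c' = c
          · subst hcc; exact absurd h4 hP
          · rw [Function.update_of_ne hcc] at h5
            exact ⟨h4, h5⟩

end prune

section tree

variable {m n w s : ℕ}

/-- one step with an answer which is constant on rectangles -/
theorem step_ex2 (hm : 10 ≤ m) {Λ : Type} [Fintype Λ] {b : ℕ} (hΛ : Fintype.card Λ ≤ 2 ^ b)
    (lab : (Fin n → Bool) → (Fin n → Bool) → Λ)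
    (hlab : ∀ x x' y y', lab x y = lab x' y' → lab x y' = lab x y)
    (E : Λ → (Fin n → Bool) → (Fin n → Bool) → Prop) {B : ℝ} (hB : 0 ≤ B)
    (h : ∀ (l : Λ) (f g : (Fin n → Bool) → ℝ), (∀ x, 0 ≤ f x) → (∀ x, 0 ≤ g x) →
      ex2 (1 / (m : ℝ)) n (fun x y => f x * g y * ind (E l x y)) ≤ B * (nrm m n f * nrm m n g))
    (f g : (Fin n → Bool) → ℝ) (hf : ∀ x, 0 ≤ f x) (hg : ∀ x, 0 ≤ g x) :
    ex2 (1 / (m : ℝ)) n (fun x y => f x * g y * ind (E (lab x y) x y)) ≤
      B * (((2 : ℝ) ^ b) ^ (1 / ((m : ℝ) + 1)) * (nrm m n f * nrm m n g)) := by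
  have hm' : (10 : ℝ) ≤ m := by exact_mod_cast hm
  have hinv : 1 / (m : ℝ) ≤ 1 / 10 := by
    apply one_div_le_one_div_of_le <;> linarith
  have hinv0 : 0 < 1 / (m : ℝ) := by positivity
  have hr1 : 0 ≤ 1 - 1 / (m : ℝ) := by linarith
  have hfl : ∀ l x, 0 ≤ f x * ind (∃ y, (some (lab x y) : Option Λ) = some l) :=
    fun l x => mul_nonneg (hf x) (ind_nonneg _)
  have hgl : ∀ l y, 0 ≤ g y * ind (∃ x, (some (lab x y) : Option Λ) = some l) :=
    fun l x => mul_nonneg (hg x) (ind_nonneg _)
  have hsum := sum_nrm hm n b hf hg hΛ (fun x y => some (lab x y)) (by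
    intro x x' y y' l h1 h2
    have h1' : lab x y = l := Option.some.inj h1
    have h2' : lab x' y' = l := Option.some.inj h2
    show some (lab x y') = some l
    rw [hlab x x' y y' (h1'.trans h2'.symm), h1'])
  calc ex2 (1 / (m : ℝ)) n (fun x y => f x * g y * ind (E (lab x y) x y))
      ≤ ex2 (1 / (m : ℝ)) n (fun x y => ∑ l,
          (f x * ind (∃ y, (some (lab x y) : Option Λ) = some l)) *
          (g y * ind (∃ x, (some (lab x y) : Option Λ) = some l)) * ind (E l x y)) := by
        apply ex2_mono hinv0.le hr1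
        intro x y
        refine le_trans ?_ (Finset.single_le_sum (fun l _ => mul_nonneg (mul_nonneg
          (hfl l x) (hgl l y)) (ind_nonneg _)) (Finset.mem_univ (lab x y)))
        rw [ind_true (P := ∃ y', (some (lab x y') : Option Λ) = some (lab x y)) ⟨y, rfl⟩,
          ind_true (P := ∃ x', (some (lab x' y) : Option Λ) = some (lab x y)) ⟨x, rfl⟩,
          mul_one, mul_one]
    _ = ∑ l, ex2 (1 / (m : ℝ)) n (fun x y =>
          (f x * ind (∃ y, (some (lab x y) : Option Λ) = some l)) *
          (g y * ind (∃ x, (some (lab x y) : Option Λ) = some l)) * ind (E l x y)) :=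
        ex2_sum _ _ _
    _ ≤ ∑ l, B * (nrm m n (fun x => f x * ind (∃ y, (some (lab x y) : Option Λ) = some l)) *
          nrm m n (fun y => g y * ind (∃ x, (some (lab x y) : Option Λ) = some l))) :=
        Finset.sum_le_sum fun l _ => h l _ _ (hfl l) (hgl l)
    _ ≤ _ := by
        rw [← Finset.mul_sum]
        exact mul_le_mul_of_nonneg_left hsum hB

/-- the bits of the elements less than `n` -/
noncomputable def toB (n : ℕ) (Z : Finset ℕ) : Fin n → Bool := fun l => decide (l.val ∈ Z)

/-- **Main estimate.** -/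
theorem ltree_bound (hm : 10 ≤ m) {L R : Type} (Nz : ℕ)
    (φ : (Fin n → Bool) → (Fin n → Bool) → Fin s → Fin w → Bool)
    (G : Fin s → (Fin w → Bool) → (Fin w → Bool) → (Fin w → Bool))
    (u v : Fin s → (Fin n → Bool) → (Fin w → Bool))
    (eL : (Fin n → Bool) → L) (eR : (Fin n → Bool) → R)
    {ε : ℝ} (hε : 0 < ε) (hε1 : ε ≤ 1) (t : LQuery L R (Finset ℕ) w s) :
    ∀ (d a : ℕ) (f g : (Fin n → Bool) → ℝ), (∀ x, 0 ≤ f x) → (∀ x, 0 ≤ g x) →
    ex2 (1 / (m : ℝ)) n (fun x y => f x * g y *
      ind (t.steps (φ x y) (eL x) (eR y) ≤ d ∧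
        t.bad (fun c => φ x y c ≠ G c (u c x) (v c y)) (φ x y) (eL x) (eR y) ≤ a ∧
        conj x y = toB n (t.eval (φ x y) (eL x) (eR y)) ∧ Nz ≤ nz (conj x y))) ≤
      (((2 : ℝ) ^ (3 * w)) ^ (1 / ((m : ℝ) + 1)) * (1 + ε)) ^ d * ((2 : ℝ) ^ w / ε) ^ a *
        ((1 - 1 / (22 * (m : ℝ) ^ 2)) ^ Nz) * (nrm m n f * nrm m n g) := by
  have hm' : (10 : ℝ) ≤ m := by exact_mod_cast hm
  have hm0 : (0 : ℝ) < m := by linarith
  have hinv : 1 / (m : ℝ) ≤ 1 / 10 := by
    apply one_div_le_one_div_of_le <;> linarith
  have hinv0 : 0 < 1 / (m : ℝ) := by positivity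
  have hr1 : 0 ≤ 1 - 1 / (m : ℝ) := by linarith
  have hg0 : 0 ≤ 1 - 1 / (22 * (m : ℝ) ^ 2) := by
    have : 1 / (22 * (m : ℝ) ^ 2) ≤ 1 := by
      rw [div_le_one (by positivity)]
      nlinarith
    linarith
  have hg1 : 1 - 1 / (22 * (m : ℝ) ^ 2) ≤ 1 := by
    have : 0 ≤ 1 / (22 * (m : ℝ) ^ 2) := by positivity
    linarith
  have hnn : ∀ (u : (Fin n → Bool) → ℝ), (∀ x, 0 ≤ u x) → 0 ≤ nrm m n u := by
    intro u hu
    exact Real.rpow_nonneg (ex_nonneg hinv0.le hr1 n fun x => Real.rpow_nonneg (hu x) _) _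
  have hK1 : 1 ≤ ((2 : ℝ) ^ (3 * w)) ^ (1 / ((m : ℝ) + 1)) :=
    Real.one_le_rpow (one_le_pow₀ (by norm_num)) (by positivity)
  have hW1 : 1 ≤ (2 : ℝ) ^ w / ε := by
    rw [le_div_iff₀ hε, one_mul]
    exact hε1.trans (one_le_pow₀ (by norm_num))
  have hWe0 : 0 ≤ (2 : ℝ) ^ w / ε := by linarith
  -- one step
  have hstep : ∀ {Λ : Type} [Fintype Λ], Fintype.card Λ ≤ 2 ^ (3 * w) →
      ∀ (lab : (Fin n → Bool) → (Fin n → Bool) → Λ),
      (∀ x x' y y', lab x y = lab x' y' → lab x y' = lab x y) →
      ∀ (E : Λ → (Fin n → Bool) → (Fin n → Bool) → Prop) {B : ℝ}, 0 ≤ B →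
      (∀ (l : Λ) (f g : (Fin n → Bool) → ℝ), (∀ x, 0 ≤ f x) → (∀ x, 0 ≤ g x) →
        ex2 (1 / (m : ℝ)) n (fun x y => f x * g y * ind (E l x y)) ≤
          B * (nrm m n f * nrm m n g)) →
      ∀ (f g : (Fin n → Bool) → ℝ), (∀ x, 0 ≤ f x) → (∀ x, 0 ≤ g x) →
      ex2 (1 / (m : ℝ)) n (fun x y => f x * g y * ind (E (lab x y) x y)) ≤
      B * (((2 : ℝ) ^ (3 * w)) ^ (1 / ((m : ℝ) + 1)) * (nrm m n f * nrm m n g)) :=
    fun hΛ lab hlab E _ hB h f g hf hg => step_ex2 hm hΛ lab hlab E hB h f g hf hg
  obtain ⟨K, hK⟩ : ∃ K, K = ((2 : ℝ) ^ (3 * w)) ^ (1 / ((m : ℝ) + 1)) := ⟨_, rfl⟩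
  obtain ⟨γ, hγ⟩ : ∃ γ, γ = (1 - 1 / (22 * (m : ℝ) ^ 2)) ^ Nz := ⟨_, rfl⟩
  have hγ0 : 0 ≤ γ := by rw [hγ]; exact pow_nonneg hg0 _
  rw [← hK, ← hγ]
  simp only [← hK] at hstep
  rw [← hK] at hK1
  have hK0 : 0 ≤ K := by linarith
  have hKe : 1 ≤ K * (1 + ε) := by nlinarith
  have hKe0 : 0 ≤ K * (1 + ε) := by linarith
  have hKle : K ≤ K * (1 + ε) := by nlinarith
  have hB0 : ∀ d a, 0 ≤ (K * (1 + ε)) ^ d * ((2 : ℝ) ^ w / ε) ^ a * γ := fun d a =>
    mul_nonneg (mul_nonneg (pow_nonneg hKe0 _) (pow_nonneg hWe0 _)) hγ0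
  have hcard1 : Fintype.card (Fin w → Bool) ≤ 2 ^ (3 * w) := by
    rw [Fintype.card_fun, Fintype.card_bool, Fintype.card_fin]
    exact Nat.pow_le_pow_right (by norm_num) (by omega)
  have hcard2 : Fintype.card ((Fin w → Bool) × (Fin w → Bool)) ≤ 2 ^ (3 * w) := by
    rw [Fintype.card_prod, Fintype.card_fun, Fintype.card_bool, Fintype.card_fin, ← pow_add]
    exact Nat.pow_le_pow_right (by norm_num) (by omega)
  have hzero : ∀ (d a : ℕ) (f g : (Fin n → Bool) → ℝ), (∀ x, 0 ≤ f x) → (∀ x, 0 ≤ g x) →
      ∀ (Q : (Fin n → Bool) → (Fin n → Bool) → Prop), (∀ x y, ¬ Q x y) →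
      ex2 (1 / (m : ℝ)) n (fun x y => f x * g y * ind (Q x y)) ≤
        (K * (1 + ε)) ^ d * ((2 : ℝ) ^ w / ε) ^ a * γ * (nrm m n f * nrm m n g) := by
    intro d a f g hf hg Q hQ
    have h1 : ∀ x y, f x * g y * ind (Q x y) = 0 := fun x y => by
      rw [ind_false (hQ x y), mul_zero]
    simp only [h1, ex2_const]
    exact mul_nonneg (hB0 d a) (mul_nonneg (hnn f hf) (hnn g hg))
  -- from `B * (K * ...)` to the bound for `d + 1`
  have hup : ∀ (d a : ℕ) (N : ℝ), 0 ≤ N →
      (K * (1 + ε)) ^ d * ((2 : ℝ) ^ w / ε) ^ a * γ * (K * N) ≤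
        (K * (1 + ε)) ^ (d + 1) * ((2 : ℝ) ^ w / ε) ^ a * γ * N := by
    intro d a N hN
    have h1 := hB0 d a
    calc _ = (K * (1 + ε)) ^ d * ((2 : ℝ) ^ w / ε) ^ a * γ * N * K := by ring
      _ ≤ (K * (1 + ε)) ^ d * ((2 : ℝ) ^ w / ε) ^ a * γ * N * (K * (1 + ε)) :=
          mul_le_mul_of_nonneg_left hKle (mul_nonneg h1 hN)
      _ = _ := by ring
  induction t with
  | answer z =>
    intro d a f g hf hg
    simp only [LQuery.eval, LQuery.steps, LQuery.bad]
    have hN := mul_nonneg (hnn f hf) (hnn g hg)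
    by_cases hz : Nz ≤ nz (toB n z)
    · have h1 := tensor hm n hf hg (toB n z)
      have h2 : (1 - 1 / (22 * (m : ℝ) ^ 2)) ^ nz (toB n z) ≤ γ := by
        rw [hγ]
        exact pow_le_pow_of_le_one hg0 hg1 hz
      have h3 : (1 : ℝ) ≤ (K * (1 + ε)) ^ d * ((2 : ℝ) ^ w / ε) ^ a := by
        have e1 : 1 ≤ (K * (1 + ε)) ^ d := one_le_pow₀ hKe
        have e2 : 1 ≤ ((2 : ℝ) ^ w / ε) ^ a := one_le_pow₀ hW1
        nlinarith
      calc _ ≤ ex2 (1 / (m : ℝ)) n (fun x y => f x * g y * ind (conj x y = toB n z)) := by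
            apply ex2_mono hinv0.le hr1
            intro x y
            exact mul_le_mul_of_nonneg_left (ind_mono fun h => h.2.2.1)
              (mul_nonneg (hf x) (hg y))
        _ ≤ _ := h1
        _ ≤ γ * (nrm m n f * nrm m n g) := mul_le_mul_of_nonneg_right h2 hN
        _ = 1 * (γ * (nrm m n f * nrm m n g)) := (one_mul _).symm
        _ ≤ (K * (1 + ε)) ^ d * ((2 : ℝ) ^ w / ε) ^ a * (γ * (nrm m n f * nrm m n g)) :=
            mul_le_mul_of_nonneg_right h3 (mul_nonneg hγ0 hN)
        _ = _ := by ring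
    · refine hzero d a f g hf hg _ ?_
      rintro x y ⟨_, _, h5, h6⟩
      rw [h5] at h6
      exact hz h6
  | left f0 next ih =>
    intro d a f g hf hg
    simp only [LQuery.eval, LQuery.steps, LQuery.bad]
    cases d with
    | zero =>
      refine hzero 0 a f g hf hg _ ?_
      rintro x y ⟨h, _⟩
      omega
    | succ d =>
      refine le_trans ?_ (hup d a _ (mul_nonneg (hnn f hf) (hnn g hg)))
      refine le_trans ?_ (hstep hcard1 (fun x y => f0 (eL x)) (fun x x' y y' _ => rfl)
        (fun l x y => (next l).steps (φ x y) (eL x) (eR y) ≤ d ∧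
          (next l).bad (fun c => φ x y c ≠ G c (u c x) (v c y)) (φ x y) (eL x) (eR y) ≤ a ∧
          conj x y = toB n ((next l).eval (φ x y) (eL x) (eR y)) ∧ Nz ≤ nz (conj x y))
        (hB0 d a) (fun l f g hf hg => ih l d a f g hf hg) f g hf hg)
      apply ex2_mono hinv0.le hr1
      intro x y
      apply mul_le_mul_of_nonneg_left (ind_mono _) (mul_nonneg (hf x) (hg y))
      rintro ⟨h1, h2, h3⟩
      exact ⟨by omega, h2, h3⟩
  | right f0 next ih =>
    intro d a f g hf hg
    simp only [LQuery.eval, LQuery.steps, LQuery.bad]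
    cases d with
    | zero =>
      refine hzero 0 a f g hf hg _ ?_
      rintro x y ⟨h, _⟩
      omega
    | succ d =>
      refine le_trans ?_ (hup d a _ (mul_nonneg (hnn f hf) (hnn g hg)))
      refine le_trans ?_ (hstep hcard1 (fun x y => f0 (eR y)) (fun x x' y y' h => h.symm)
        (fun l x y => (next l).steps (φ x y) (eL x) (eR y) ≤ d ∧
          (next l).bad (fun c => φ x y c ≠ G c (u c x) (v c y)) (φ x y) (eL x) (eR y) ≤ a ∧
          conj x y = toB n ((next l).eval (φ x y) (eL x) (eR y)) ∧ Nz ≤ nz (conj x y))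
        (hB0 d a) (fun l f g hf hg => ih l d a f g hf hg) f g hf hg)
      apply ex2_mono hinv0.le hr1
      intro x y
      apply mul_le_mul_of_nonneg_left (ind_mono _) (mul_nonneg (hf x) (hg y))
      rintro ⟨h1, h2, h3⟩
      exact ⟨by omega, h2, h3⟩
  | joint c next ih =>
    intro d a f g hf hg
    simp only [LQuery.eval, LQuery.steps, LQuery.bad]
    cases d with
    | zero =>
      refine hzero 0 a f g hf hg _ ?_
      rintro x y ⟨h, _⟩
      omega
    | succ d =>
      have hN := mul_nonneg (hnn f hf) (hnn g hg)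
      -- the event for the child `l`
      let E : ℕ → (Fin w → Bool) → (Fin n → Bool) → (Fin n → Bool) → Prop := fun a l x y =>
        (next l).steps (φ x y) (eL x) (eR y) ≤ d ∧
          (next l).bad (fun c => φ x y c ≠ G c (u c x) (v c y)) (φ x y) (eL x) (eR y) ≤ a ∧
          conj x y = toB n ((next l).eval (φ x y) (eL x) (eR y)) ∧ Nz ≤ nz (conj x y)
      have hS1 : ∀ a, ex2 (1 / (m : ℝ)) n (fun x y => f x * g y *
          ind (E a (G c (u c x) (v c y)) x y)) ≤
          (K * (1 + ε)) ^ d * ((2 : ℝ) ^ w / ε) ^ a * γ * (K * (nrm m n f * nrm m n g)) :=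
        fun a => hstep hcard2 (fun x y => (u c x, v c y)) (fun x x' y y' h => by
            have h1 := congrArg Prod.snd h
            exact Prod.ext rfl h1.symm)
          (fun l x y => E a (G c l.1 l.2) x y)
          (hB0 d a) (fun l f g hf hg => ih (G c l.1 l.2) d a f g hf hg) f g hf hg
      have hgood : ∀ (a : ℕ) (x y : Fin n → Bool), φ x y c = G c (u c x) (v c y) →
          ∀ Q : Prop, (Q → E a (φ x y c) x y) →
          f x * g y * ind Q ≤ f x * g y * ind (E a (G c (u c x) (v c y)) x y) := by
        intro a x y h Q hQ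
        apply mul_le_mul_of_nonneg_left (ind_mono _) (mul_nonneg (hf x) (hg y))
        rw [← h]
        exact hQ
      have hpos : ∀ (Q : Prop) (x y : Fin n → Bool), 0 ≤ f x * g y * ind Q := fun Q x y =>
        mul_nonneg (mul_nonneg (hf x) (hg y)) (ind_nonneg _)
      cases a with
      | zero =>
        refine le_trans ?_ ((hS1 0).trans (hup d 0 _ hN))
        apply ex2_mono hinv0.le hr1
        intro x y
        by_cases hq : φ x y c = G c (u c x) (v c y)
        · refine hgood 0 x y hq _ ?_
          rintro ⟨h3, h4, h5⟩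
          exact ⟨by omega, by omega, h5⟩
        · rw [ind_false, mul_zero]
          · exact hpos _ x y
          · rintro ⟨_, h, _⟩
            rw [if_pos hq] at h
            omega
      | succ a =>
        have hS2 : ex2 (1 / (m : ℝ)) n (fun x y => ∑ l, f x * g y * ind (E a l x y)) ≤
            (K * (1 + ε)) ^ d * ((2 : ℝ) ^ w / ε) ^ (a + 1) * γ *
              (nrm m n f * nrm m n g) * ε := by
          rw [ex2_sum]
          calc _ ≤ ∑ _l : Fin w → Bool, (K * (1 + ε)) ^ d * ((2 : ℝ) ^ w / ε) ^ a * γ *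
                (nrm m n f * nrm m n g) :=
                Finset.sum_le_sum fun l _ => ih l d a f g hf hg
            _ = _ := by
                rw [Finset.sum_const, Finset.card_univ, Fintype.card_fun, Fintype.card_bool,
                  Fintype.card_fin, nsmul_eq_mul]
                push_cast
                have h10 : (2 : ℝ) ^ w / ε * ε = 2 ^ w := div_mul_cancel₀ _ hε.ne'
                calc (2 : ℝ) ^ w * ((K * (1 + ε)) ^ d * ((2 : ℝ) ^ w / ε) ^ a * γ *
                    (nrm m n f * nrm m n g))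
                    = ((2 : ℝ) ^ w / ε * ε) * ((K * (1 + ε)) ^ d * ((2 : ℝ) ^ w / ε) ^ a * γ *
                    (nrm m n f * nrm m n g)) := by rw [h10]
                  _ = _ := by ring
        refine le_trans (ex2_mono hinv0.le hr1 n (g := fun x y =>
          f x * g y * ind (E (a + 1) (G c (u c x) (v c y)) x y) +
          ∑ l, f x * g y * ind (E a l x y)) ?_) ?_
        · intro x y
          have hV0 : 0 ≤ ∑ l, f x * g y * ind (E a l x y) :=
            Finset.sum_nonneg fun l _ => hpos _ x y
          by_cases hq : φ x y c = G c (u c x) (v c y)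
          · refine (hgood (a + 1) x y hq _ ?_).trans (le_add_of_nonneg_right hV0)
            rintro ⟨h3, h4, h5⟩
            exact ⟨by omega, by omega, h5⟩
          · have hle : f x * g y * ind (E a (φ x y c) x y) ≤
                ∑ l, f x * g y * ind (E a l x y) :=
              Finset.single_le_sum (f := fun l => f x * g y * ind (E a l x y))
                (fun l _ => hpos _ x y) (Finset.mem_univ (φ x y c))
            refine le_trans ?_ (hle.trans (le_add_of_nonneg_left (hpos _ x y)))
            apply mul_le_mul_of_nonneg_left (ind_mono _) (mul_nonneg (hf x) (hg y))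
            rintro ⟨h3, h4, h5⟩
            rw [if_pos hq] at h4
            exact ⟨by omega, by omega, h5⟩
        · rw [ex2_add]
          have hP : 0 ≤ (K * (1 + ε)) ^ d * ((2 : ℝ) ^ w / ε) ^ (a + 1) * γ *
              (nrm m n f * nrm m n g) := mul_nonneg (hB0 d (a + 1)) hN
          refine (add_le_add (hS1 (a + 1)) hS2).trans ?_
          calc _ = (K * (1 + ε)) ^ d * ((2 : ℝ) ^ w / ε) ^ (a + 1) * γ *
              (nrm m n f * nrm m n g) * (K + ε) := by ring
            _ ≤ (K * (1 + ε)) ^ d * ((2 : ℝ) ^ w / ε) ^ (a + 1) * γ *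
              (nrm m n f * nrm m n g) * (K * (1 + ε)) := by
                apply mul_le_mul_of_nonneg_left _ hP
                nlinarith
            _ = _ := by ring

end tree

end Pool.Agent.U121.SI.Lst
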