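import Pool.Agent.H568R2.Defs
import Pool.Agent.U121.SI.Query

set_option autoImplicit false

/-!
U121/SI (helper121, MP_e016b3_lc): data structures for 3SUM-Indexing whose joint memory is computed
by circuits (definitions).
-/

namespace Pool.Agent.U121.SI

open Finset DomAC0

open scoped Classical

/-- A memory for two arrays `A`, `B` of `n` numbers, with `s` joint cells of `w` bits which are
computed by a circuit of NOT gates and AND and OR gates of unbounded fan-in: the inputs of the
circuit are arbitrary predicates of single entries of the arrays (`Sum.inl r` is the entry `A r`,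
`Sum.inr r` is the entry `B r`), and the bits of the cells are nodes of the circuit. -/
structure Memory (n w s : ℕ) where
  /-- the inputs of the circuit -/
  J : Type
  /-- the entry on which the input depends, and the predicate -/
  input : J → (Fin n ⊕ Fin n) × (ℕ → Bool)
  /-- the circuit -/
  circuit : Circuit J
  /-- the node which computes the bit -/
  node : Fin s → Fin w → J ⊕ Fin circuit.size

/-- The contents of the joint cells for the arrays `A` and `B`. -/
noncomputable def Memory.cells {n w s : ℕ} (D : Memory n w s) (A B : Fin n → ℕ) :
    Fin s → Fin w → Bool :=
  fun c t => D.circuit.nodeVal (fun j => (D.input j).2 (Sum.elim A B (D.input j).1)) (D.node c t)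

/-- A data structure for 3SUM-Indexing: a memory, and for every `z` an adaptive query, which reads
joint cells and arbitrary functions (of `w` bits) of the first array alone and of the second array
alone. -/
structure DS (n w s : ℕ) where
  /-- the joint memory -/
  memory : Memory n w s
  /-- the queries -/
  query : ℕ → Query (Fin n → ℕ) (Fin n → ℕ) w s

/-- The circuit has at most `M` gates, the bits of the joint cells are nodes of depth at most `h`,
and all queries make at most `T` probes. -/
def DS.Bounded {n w s : ℕ} (D : DS n w s) (M h T : ℕ) : Prop :=
  D.memory.circuit.size ≤ M ∧ (∀ c t, D.memory.circuit.nodeDepth (D.memory.node c t) ≤ h) ∧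
    ∀ z, (D.query z).Within T

/-- The random data structure (`D ω` with probability `p ω`) solves 3SUM-Indexing for arrays of
numbers at most `n ^ 2`: for all arrays and all `z` it is decided with error probability at most
`1 / 1000` whether `z` is the sum of an entry of `A` and an entry of `B`. -/
def Solves {n w s : ℕ} {Ω : Type} [Fintype Ω] (p : Ω → ℝ) (D : Ω → DS n w s) : Prop :=
  ∀ (A B : Fin n → ℕ), (∀ r, A r ≤ n ^ 2) → (∀ r, B r ≤ n ^ 2) → ∀ z : ℕ,
    ∑ ω, p ω * (if ((D ω).query z).eval ((D ω).memory.cells A B) A B ≠
      decide (∃ r r', A r + B r' = z) then (1 : ℝ) else 0) ≤ 1 / 1000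

end Pool.Agent.U121.SI
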