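import Pool.Agent.U121.SI.Main
import Pool.Agent.U121.SI.SumDefs

set_option autoImplicit false
set_option linter.unusedSectionVars false
set_option linter.unusedVariables false

/-!
U121/SI (helper121, MP_e016b3_lc): the space of structures for 3SUM-Indexing whose joint memory is
computed by circuits of small depth.
-/

namespace Pool.Agent.U121.SI

open Finset DomAC0

open scoped Classical

section code

variable {n k m : ℕ}

/-- the block and the row of an entry -/
noncomputable def idx (hk : 0 < k) (hm : 0 < m) (r : Fin n) : Fin k × Fin m :=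
  if h : r.val < k * m then finProdFinEquiv.symm ⟨r.val, h⟩ else (⟨0, hk⟩, ⟨0, hm⟩)

lemma idx_surj (hk : 0 < k) (hm : 0 < m) (hn : k * m ≤ n) (q : Fin k × Fin m) :
    ∃ r : Fin n, idx hk hm r = q := by
  refine ⟨⟨(finProdFinEquiv q).val, lt_of_lt_of_le (finProdFinEquiv q).2 hn⟩, ?_⟩
  unfold idx
  rw [dif_pos (finProdFinEquiv q).2]
  exact finProdFinEquiv.symm_apply_apply q

/-- the number of the element `(l, v)` -/
def cod (l v : Fin m) : ℕ := m * l + v

lemma cod_lt (l v : Fin m) : cod l v < m * m := by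
  unfold cod
  have h1 := l.2
  have h2 := v.2
  have h3 : m * (l.val + 1) ≤ m * m := Nat.mul_le_mul_left m h1
  have h4 : m * (l.val + 1) = m * l.val + m := by ring
  omega

lemma cod_inj {l v l' v' : Fin m} (h : cod l v = cod l' v') : l = l' ∧ v = v' := by
  unfold cod at h
  have h1 : (m * l.val + v.val) / m = (m * l'.val + v'.val) / m := by rw [h]
  have h2 : (m * l.val + v.val) % m = (m * l'.val + v'.val) % m := by rw [h]
  have hm : 0 < m := lt_of_le_of_lt (Nat.zero_le _) l.2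
  rw [Nat.mul_add_div hm, Nat.mul_add_div hm, Nat.div_eq_of_lt v.2, Nat.div_eq_of_lt v'.2] at h1
  rw [Nat.mul_add_mod, Nat.mul_add_mod, Nat.mod_eq_of_lt v.2, Nat.mod_eq_of_lt v'.2] at h2
  exact ⟨Fin.ext (by omega), Fin.ext h2⟩

/-- an entry of the first array -/
def valA (m : ℕ) (i : Fin k) (l v : Fin m) : ℕ := 2 * (m * m) * i + cod l v

/-- an entry of the second array -/
def valB (k m : ℕ) (j : Fin k) (l v : Fin m) : ℕ := 2 * (m * m) * k * j + (m * m - 1 - cod l v)

/-- the query for the blocks `i` and `j` -/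
def qu (k m : ℕ) (i j : Fin k) : ℕ := 2 * (m * m) * (i + k * j) + (m * m - 1)

lemma val_sum {i i' j j' : Fin k} {l v l' v' : Fin m}
    (h : valA m i' l v + valB k m j' l' v' = qu k m i j) :
    i' = i ∧ j' = j ∧ l = l' ∧ v = v' := by
  have hu := cod_lt l v
  have hu' := cod_lt l' v'
  obtain ⟨u, hud⟩ : ∃ u, u = m * m := ⟨_, rfl⟩
  unfold valA valB qu at h
  rw [← hud] at h hu hu'
  obtain ⟨e, he⟩ : ∃ e, e = cod l v := ⟨_, rfl⟩
  obtain ⟨e', he'⟩ : ∃ e', e' = cod l' v' := ⟨_, rfl⟩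
  rw [← he, ← he'] at h
  rw [← he] at hu
  rw [← he'] at hu'
  have h1 : 2 * u * (i' + k * j') + (e + (u - 1 - e')) =
      2 * u * (i + k * j) + (u - 1) := by
    rw [← h]
    ring
  have h2 : e + (u - 1 - e') < 2 * u := by omega
  have h3 : u - 1 < 2 * u := by omega
  have h4 : (2 * u * (i'.val + k * j'.val) + (e + (u - 1 - e'))) % (2 * u) =
      (2 * u * (i.val + k * j.val) + (u - 1)) % (2 * u) := by rw [h1]
  rw [Nat.mul_add_mod, Nat.mul_add_mod, Nat.mod_eq_of_lt h2, Nat.mod_eq_of_lt h3] at h4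
  have h5 : (2 * u * (i'.val + k * j'.val) + (e + (u - 1 - e'))) / (2 * u) =
      (2 * u * (i.val + k * j.val) + (u - 1)) / (2 * u) := by rw [h1]
  rw [Nat.mul_add_div (by omega), Nat.mul_add_div (by omega), Nat.div_eq_of_lt h2,
    Nat.div_eq_of_lt h3] at h5
  have h6 : (i'.val + k * j'.val) % k = (i.val + k * j.val) % k := by
    rw [show i'.val + k * j'.val = i.val + k * j.val by omega]
  rw [Nat.add_mul_mod_self_left, Nat.add_mul_mod_self_left, Nat.mod_eq_of_lt i'.2,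
    Nat.mod_eq_of_lt i.2] at h6
  have h7 : (i'.val + k * j'.val) / k = (i.val + k * j.val) / k := by
    rw [show i'.val + k * j'.val = i.val + k * j.val by omega]
  have hk : 0 < k := Nat.pos_of_ne_zero fun h0 => by subst h0; exact i.elim0
  rw [Nat.add_mul_div_left _ _ hk, Nat.add_mul_div_left _ _ hk, Nat.div_eq_of_lt i'.2,
    Nat.div_eq_of_lt i.2] at h7
  have hi : i' = i := Fin.ext h6
  have hj : j' = j := Fin.ext (by omega)
  have hee : e = e' := by omega
  rw [he, he'] at hee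
  obtain ⟨h8, h9⟩ := cod_inj hee
  exact ⟨hi, hj, h8, h9⟩

lemma sum_val (i j : Fin k) (l v : Fin m) : valA m i l v + valB k m j l v = qu k m i j := by
  have hu := cod_lt l v
  unfold valA valB qu
  have : cod l v + (m * m - 1 - cod l v) = m * m - 1 := by omega
  calc 2 * (m * m) * i.val + cod l v + (2 * (m * m) * k * j.val + (m * m - 1 - cod l v))
      = 2 * (m * m) * (i.val + k * j.val) + (cod l v + (m * m - 1 - cod l v)) := by ring
    _ = _ := by rw [this]

/-- the first array -/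
noncomputable def arrA (hk : 0 < k) (hm : 0 < m) (a : Fin k → Fin m → Fin m) (r : Fin n) : ℕ :=
  valA m (idx hk hm r).1 (idx hk hm r).2 (a (idx hk hm r).1 (idx hk hm r).2)

/-- the second array -/
noncomputable def arrB (hk : 0 < k) (hm : 0 < m) (b : Fin k → Fin m → Fin m) (r : Fin n) : ℕ :=
  valB k m (idx hk hm r).1 (idx hk hm r).2 (b (idx hk hm r).1 (idx hk hm r).2)

lemma sum_iff (hk : 0 < k) (hm : 0 < m) (hn : k * m ≤ n) (a b : Fin k → Fin m → Fin m)
    (i j : Fin k) :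
    (∃ r r' : Fin n, arrA hk hm a r + arrB hk hm b r' = qu k m i j) ↔ hit (a i) (b j) := by
  constructor
  · rintro ⟨r, r', h⟩
    unfold arrA arrB at h
    obtain ⟨h1, h2, h3, h4⟩ := val_sum h
    rw [h1, h2, ← h3] at h4
    exact ⟨_, h4⟩
  · rintro ⟨l, hl⟩
    obtain ⟨r, hr⟩ := idx_surj hk hm hn (i, l)
    obtain ⟨r', hr'⟩ := idx_surj hk hm hn (j, l)
    refine ⟨r, r', ?_⟩
    unfold arrA arrB
    rw [hr, hr']
    simp only
    rw [hl]
    exact sum_val i j l _

lemma arr_le (hk : 0 < k) (hm : 0 < m) (hn : 2 * (k * m) ≤ n) (a : Fin k → Fin m → Fin m)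
    (r : Fin n) : arrA hk hm a r ≤ n ^ 2 ∧ arrB hk hm a r ≤ n ^ 2 := by
  have h0 : 2 * (m * m) * k * k ≤ n ^ 2 := by
    calc 2 * (m * m) * k * k = 2 * (k * m) * (k * m) := by ring
      _ ≤ n * n := Nat.mul_le_mul hn (by omega)
      _ = n ^ 2 := by ring
  unfold arrA arrB valA valB
  obtain ⟨q, hq⟩ : ∃ q, q = idx hk hm r := ⟨_, rfl⟩
  rw [← hq]
  have hc := cod_lt q.2 (a q.1 q.2)
  have hi := q.1.2
  constructor
  · have h1 : 2 * (m * m) * (q.1.val + 1) ≤ 2 * (m * m) * k * k := by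
      calc 2 * (m * m) * (q.1.val + 1) ≤ 2 * (m * m) * k := Nat.mul_le_mul_left _ hi
        _ ≤ 2 * (m * m) * k * k := Nat.le_mul_of_pos_right _ hk
    have h2 : 2 * (m * m) * (q.1.val + 1) = 2 * (m * m) * q.1.val + 2 * (m * m) := by ring
    omega
  · have h1 : 2 * (m * m) * k * (q.1.val + 1) ≤ 2 * (m * m) * k * k := Nat.mul_le_mul_left _ hi
    have h2 : 2 * (m * m) * k * (q.1.val + 1) = 2 * (m * m) * k * q.1.val + 2 * (m * m) * k := by
      ring
    have h3 : 2 * (m * m) ≤ 2 * (m * m) * k := Nat.le_mul_of_pos_right _ hk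
    omega

end code

/-- the final computation -/
lemma arith {n m k w T s : ℕ} {K : ℝ} (hK : 0 ≤ K) (h1 : n ≤ 4 * m * k) (h2 : m ≤ 448 * (w * T))
    (h3 : (k : ℝ) ^ 2 ≤ 1600 * (s * w * K)) :
    (n : ℝ) ^ 2 ≤ 10 ^ 10 * T ^ 2 * w ^ 3 * s * K := by
  have h1' : (n : ℝ) ≤ 4 * m * k := by exact_mod_cast h1
  have h2' : (m : ℝ) ≤ 448 * (w * T) := by exact_mod_cast h2
  have hn0 : (0 : ℝ) ≤ n := Nat.cast_nonneg _
  have hm0 : (0 : ℝ) ≤ m := Nat.cast_nonneg _
  calc (n : ℝ) ^ 2 ≤ (4 * m * k) ^ 2 := pow_le_pow_left₀ hn0 h1' 2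
    _ = 16 * m ^ 2 * k ^ 2 := by ring
    _ ≤ 16 * (448 * (w * T)) ^ 2 * (1600 * (s * w * K)) := by
        apply mul_le_mul _ h3 (by positivity) (by positivity)
        exact mul_le_mul_of_nonneg_left (pow_le_pow_left₀ hm0 h2' 2) (by norm_num)
    _ = (16 * 448 ^ 2 * 1600) * (T ^ 2 * w ^ 3 * s * K) := by ring
    _ ≤ 10 ^ 10 * (T ^ 2 * w ^ 3 * s * K) := by
        apply mul_le_mul_of_nonneg_right (by norm_num) (by positivity)
    _ = _ := by ring

/-- **3SUM-Indexing with a joint memory of small depth.** -/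
theorem sum_main {n w s T M h σ : ℕ} (hw : 1 ≤ w) (hT : 1 ≤ T) (hn : 1000 * (w * T) ≤ n)
    (hσ : 1 ≤ σ) (hM : h * (M * n ^ 2) ≤ 2 ^ σ) {Ω : Type} [Fintype Ω] (p : Ω → ℝ)
    (hp : ∀ ω, 0 ≤ p ω) (hp1 : ∑ ω, p ω = 1) (D : Ω → DS n w s)
    (hD : ∀ ω, (D ω).Bounded M h T) (hsol : Solves p D) :
    (n : ℝ) ^ 2 ≤ 10 ^ 10 * T ^ 2 * w ^ 3 * s * (24 * σ) ^ (2 * h + 2) := by
  obtain ⟨m, hm⟩ : ∃ m, m = 16 * (4 * (2 * w * T + 5)) := ⟨_, rfl⟩
  have hwT : 1 ≤ w * T := Nat.mul_pos hw hT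
  have hm2 : m ≤ 448 * (w * T) := by
    rw [hm]
    have : 2 * w * T = 2 * (w * T) := by ring
    omega
  have hm0 : 0 < m := by omega
  obtain ⟨k, hk⟩ : ∃ k, k = n / (2 * m) := ⟨_, rfl⟩
  have hkm : 2 * (k * m) ≤ n := by
    have := Nat.div_mul_le_self n (2 * m)
    rw [← hk] at this
    calc 2 * (k * m) = k * (2 * m) := by ring
      _ ≤ n := this
  have hk0 : 0 < k := by
    rw [hk]
    apply Nat.div_pos _ (by omega)
    omega
  have hn4 : n ≤ 4 * m * k := by
    have h1 : n < 2 * m * (k + 1) := by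
      rw [hk]
      exact Nat.lt_mul_div_succ n (by omega)
    have h2 : 2 * m * (k + 1) ≤ 4 * m * k := by
      calc 2 * m * (k + 1) ≤ 2 * m * (k + k) := Nat.mul_le_mul_left _ (by omega)
        _ = 4 * m * k := by ring
    omega
  refine arith (by positivity) hn4 hm2 ?_
  refine block_main (k := k) (m := m) (w := w) (s := s) (T := T) (h := h) (M := M) (σ := σ)
    hm p hp hp1
    (fun ω c t z => (D ω).memory.cells (arrA (n := n) hk0 hm0 fun i => z (Sum.inl i))
      (arrB hk0 hm0 fun j => z (Sum.inr j)) c t) ?_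
    (fun a => arrA (n := n) hk0 hm0 a) (fun b => arrB (n := n) hk0 hm0 b)
    (fun ω pr => (D ω).query (qu k m pr.1 pr.2)) (fun ω pr => (hD ω).2.2 _) ?_ hσ ?_
  · intro ω
    refine ⟨(D ω).memory.J, (D ω).memory.circuit, (hD ω).1, fun c t => ⟨?_⟩⟩
    refine ⟨fun j z => ((D ω).memory.input j).2 (Sum.elim
      (arrA (n := n) hk0 hm0 fun i => z (Sum.inl i)) (arrB hk0 hm0 fun j => z (Sum.inr j))
      ((D ω).memory.input j).1), (D ω).memory.node c t, ?_, (hD ω).2.1 c t, fun z => rfl⟩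
    intro j
    rcases hj : ((D ω).memory.input j).1 with r | r
    · refine ⟨Sum.inl (idx hk0 hm0 r).1, fun x => ((D ω).memory.input j).2
        (valA m (idx hk0 hm0 r).1 (idx hk0 hm0 r).2 (x (idx hk0 hm0 r).2)), fun z => ?_⟩
      simp only [hj]
      rfl
    · refine ⟨Sum.inr (idx hk0 hm0 r).1, fun x => ((D ω).memory.input j).2
        (valB k m (idx hk0 hm0 r).1 (idx hk0 hm0 r).2 (x (idx hk0 hm0 r).2)), fun z => ?_⟩
      simp only [hj]
      rfl
  · intro z pr
    have h1 := hsol (arrA (n := n) hk0 hm0 fun i => z (Sum.inl i))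
      (arrB (n := n) hk0 hm0 fun j => z (Sum.inr j))
      (fun r => (arr_le hk0 hm0 hkm _ r).1) (fun r => (arr_le hk0 hm0 hkm _ r).2)
      (qu k m pr.1 pr.2)
    refine le_trans (le_of_eq ?_) h1
    refine sum_congr rfl fun ω _ => ?_
    congr 1
    have h2 : decide (∃ r r', (arrA (n := n) hk0 hm0 fun i => z (Sum.inl i)) r +
        (arrB (n := n) hk0 hm0 fun j => z (Sum.inr j)) r' = qu k m pr.1 pr.2) =
        decide (hit (z (Sum.inl pr.1)) (z (Sum.inr pr.2))) := by
      rw [decide_eq_decide]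
      exact sum_iff hk0 hm0 (by omega) (fun i => z (Sum.inl i)) (fun j => z (Sum.inr j)) pr.1 pr.2
    rw [h2]
    unfold Wrong
    split_ifs <;> rfl
  · refine le_trans ?_ hM
    apply Nat.mul_le_mul_left
    apply Nat.mul_le_mul_left
    apply Nat.pow_le_pow_left
    rw [hk]
    exact Nat.div_le_self _ _

end Pool.Agent.U121.SI
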